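import Pool.Agent.MP_387a72_lc.Tree

/-!
# A colouring of the rationals with dense fibres
-/

namespace Pool.Agent.MP_387a72_lc

noncomputable def col (q : ℚ) : ℕ := (-padicValRat 2 q).toNat

theorem col_dense (n : ℕ) (a b : ℚ) (hab : a < b) : ∃ q, a < q ∧ q < b ∧ col q = n := by
  have hba : 0 < b - a := sub_pos.2 hab
  obtain ⟨k, hk⟩ := pow_unbounded_of_one_lt (2 / (2 ^ n * (b - a))) (show (1 : ℚ) < 3 by norm_num)
  set D : ℚ := 2 ^ n * 3 ^ k with hD
  have hDpos : 0 < D := by positivity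
  have h2n : (0 : ℚ) < 2 ^ n := by positivity
  have h1 : 2 < D * (b - a) := by
    rw [div_lt_iff₀ (by positivity)] at hk
    rw [hD]
    nlinarith [hk]
  obtain ⟨m, hm, hm1, hm2⟩ : ∃ m : ℤ, ¬ (2 ∣ m) ∧ a * D < m ∧ (m : ℚ) < b * D := by
    have e1 : a * D < (⌊a * D⌋ + 1 : ℤ) := by push_cast; exact Int.lt_floor_add_one _
    have e2 : ((⌊a * D⌋ : ℤ) : ℚ) ≤ a * D := Int.floor_le _
    by_cases h : (2 : ℤ) ∣ ⌊a * D⌋ + 1
    · refine ⟨⌊a * D⌋ + 2, by omega, ?_, ?_⟩
      · push_cast at e1 ⊢; linarith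
      · push_cast; nlinarith
    · refine ⟨⌊a * D⌋ + 1, h, e1, ?_⟩
      push_cast; nlinarith
  refine ⟨m / D, ?_, ?_, ?_⟩
  · rw [lt_div_iff₀ hDpos]; exact hm1
  · rw [div_lt_iff₀ hDpos]; exact hm2
  · have hm0 : (m : ℚ) ≠ 0 := by
      intro h
      apply hm
      have : m = 0 := by exact_mod_cast h
      rw [this]; exact dvd_zero _
    have hfact : Fact (Nat.Prime 2) := ⟨Nat.prime_two⟩
    have v1 : padicValRat 2 (m : ℚ) = 0 := by
      rw [padicValRat.of_int]
      have : padicValInt 2 m = 0 := padicValInt.eq_zero_of_not_dvd (by exact_mod_cast hm)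
      rw [this]; rfl
    have v3 : padicValRat 2 (3 : ℚ) = 0 := by
      have : padicValRat 2 ((3 : ℕ) : ℚ) = 0 := by
        rw [padicValRat.of_nat]
        have : padicValNat 2 3 = 0 := padicValNat.eq_zero_of_not_dvd (by norm_num)
        rw [this]; rfl
      exact_mod_cast this
    have v2 : padicValRat 2 (2 : ℚ) = 1 := by
      have : padicValRat 2 ((2 : ℕ) : ℚ) = 1 := by
        rw [padicValRat.of_nat, padicValNat_self]; rfl
      exact_mod_cast this
    have vD : padicValRat 2 D = n := by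
      rw [hD, padicValRat.mul (by positivity) (by positivity), padicValRat.pow,
        padicValRat.pow, v2, v3]
      ring
    unfold col
    rw [padicValRat.div hm0 hDpos.ne', v1, vD]
    simp

theorem exists_denseCol (S : Type) [Countable S] : ∃ χ : ℚ → Option S, DenseCol χ := by
  obtain ⟨e, he⟩ := exists_surjective_nat (Option S)
  refine ⟨fun q => e (col q), ?_⟩
  intro o a b hab
  obtain ⟨n, rfl⟩ := he o
  obtain ⟨q, h1, h2, h3⟩ := col_dense n a b hab
  exact ⟨q, h1, h2, by simp only; rw [h3]⟩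

end Pool.Agent.MP_387a72_lc
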