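import Pool.Agent.MP_387a72_lc.Tree

/-!
# Recovering the transition system from the linear order
-/

namespace Pool.Agent.MP_387a72_lc

open Set

theorem lt_append_singleton (σ : List ℚ) (r : ℚ) : σ < σ ++ [r] := by
  induction σ with
  | nil => exact List.nil_lt_cons _ _
  | cons q σ ih =>
    rw [List.cons_append, List.cons_lt_cons_iff]
    exact Or.inr ⟨rfl, ih⟩

theorem exists_inf_between (σ : List ℚ) : ∀ τ, σ < τ →
    ∃ f : ℕ → List ℚ, Function.Injective f ∧ ∀ n, σ < f n ∧ f n < τ := by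
  induction σ with
  | nil =>
    intro τ h
    cases τ with
    | nil => exact absurd h (lt_irrefl _)
    | cons p τ =>
      refine ⟨fun n => [p - 1 - n], ?_, ?_⟩
      · intro a b hab
        simp only [List.cons.injEq, and_true] at hab
        have : (a : ℚ) = b := by linarith
        exact_mod_cast this
      · intro n
        refine ⟨List.nil_lt_cons _ _, ?_⟩
        rw [List.cons_lt_cons_iff]
        left
        have : (0 : ℚ) ≤ n := Nat.cast_nonneg n
        linarith
  | cons q σ ih =>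
    intro τ h
    cases τ with
    | nil => exact absurd h (List.not_lt_nil _)
    | cons p τ =>
      rw [List.cons_lt_cons_iff] at h
      rcases h with h | ⟨rfl, h⟩
      · refine ⟨fun n => (q :: σ) ++ [(n : ℚ)], ?_, ?_⟩
        · intro a b hab
          have h1 : [(a : ℚ)] = [(b : ℚ)] := List.append_cancel_left hab
          simpa using h1
        · intro n
          refine ⟨lt_append_singleton _ _, ?_⟩
          show q :: (σ ++ [(n : ℚ)]) < p :: τ
          rw [List.cons_lt_cons_iff]
          exact Or.inl h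
      · obtain ⟨f, hf, hf'⟩ := ih τ h
        refine ⟨fun n => q :: f n, ?_, ?_⟩
        · intro a b hab
          simp only [List.cons.injEq, true_and] at hab
          exact hf hab
        · intro n
          rw [List.cons_lt_cons_iff, List.cons_lt_cons_iff]
          exact ⟨Or.inr ⟨rfl, (hf' n).1⟩, Or.inr ⟨rfl, (hf' n).2⟩⟩

theorem prefix_iff (σ : List ℚ) : ∀ τ, σ <+: τ ↔
    σ ≤ τ ∧ ∀ ρ, σ < ρ → ρ ≤ τ → σ.length < ρ.length := by
  induction σ with
  | nil =>
    intro τ
    constructor
    · intro _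
      refine ⟨not_lt.1 (List.not_lt_nil _), ?_⟩
      intro ρ h _
      cases ρ with
      | nil => exact absurd h (lt_irrefl _)
      | cons p ρ => simp
    · intro _; exact List.nil_prefix
  | cons q σ ih =>
    intro τ
    cases τ with
    | nil =>
      constructor
      · intro h; simp at h
      · rintro ⟨h, -⟩
        exact absurd (List.nil_lt_cons q σ) (not_lt.2 h)
    | cons p τ =>
      rw [List.cons_prefix_cons]
      constructor
      · rintro ⟨rfl, h⟩
        obtain ⟨h1, h2⟩ := (ih τ).1 h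
        refine ⟨?_, ?_⟩
        · rw [← not_lt, List.cons_lt_cons_iff]
          rintro (h | ⟨-, h⟩)
          · exact lt_irrefl _ h
          · exact absurd h (not_lt.2 h1)
        · intro ρ hρ hρ'
          cases ρ with
          | nil => exact absurd hρ (List.not_lt_nil _)
          | cons r ρ =>
            rw [List.cons_lt_cons_iff] at hρ
            rw [← not_lt, List.cons_lt_cons_iff] at hρ'
            push Not at hρ'
            rcases hρ with hρ | ⟨rfl, hρ⟩
            · exact absurd hρ (not_lt.2 hρ'.1)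
            · have := h2 ρ hρ (hρ'.2 rfl)
              simpa using this
      · rintro ⟨h1, h2⟩
        rw [← not_lt, List.cons_lt_cons_iff] at h1
        push Not at h1
        rcases h1.1.eq_or_lt with h | h
        · subst h
          refine ⟨rfl, (ih τ).2 ⟨h1.2 rfl, ?_⟩⟩
          intro ρ hρ hρ'
          have := h2 (q :: ρ) (by rw [List.cons_lt_cons_iff]; exact Or.inr ⟨rfl, hρ⟩) (by
            rw [← not_lt, List.cons_lt_cons_iff]
            rintro (h | ⟨-, h⟩)
            · exact lt_irrefl _ h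
            · exact absurd h (not_lt.2 hρ'))
          simpa using this
        · exfalso
          have := h2 [p] (by rw [List.cons_lt_cons_iff]; exact Or.inl h) (by
            rw [← not_lt, List.cons_lt_cons_iff]
            rintro (h | ⟨-, h⟩)
            · exact lt_irrefl _ h
            · exact absurd h (List.not_lt_nil _))
          simp at this

/-! ### Blocks -/

/-- Lexicographic sum of blocks of size `n σ`. -/
def Dm (n : List ℚ → ℕ) : Set (List ℚ ×ₗ ℕ) := {x | (ofLex x).2 < n (ofLex x).1}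

variable {n n' : List ℚ → ℕ}

def fc (x : Dm n) : List ℚ := (ofLex x.1).1

theorem fc_mono {x y : Dm n} (h : x ≤ y) : fc x ≤ fc y := by
  rcases h.eq_or_lt with rfl | h
  · exact le_rfl
  · have h' : x.1 < y.1 := h
    rw [Prod.Lex.lt_iff] at h'
    rcases h' with h1 | ⟨h1, -⟩
    · exact h1.le
    · exact h1.le

theorem finite_iff {x y : Dm n} (hn : ∀ σ, 0 < n σ) (hxy : x ≤ y) :
    (Icc x y).Finite ↔ fc x = fc y := by
  constructor
  · intro hfin
    by_contra hne
    have hlt : fc x < fc y := lt_of_le_of_ne (fc_mono hxy) hne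
    obtain ⟨f, hf, hf'⟩ := exists_inf_between _ _ hlt
    let g : ℕ → Dm n := fun k => ⟨toLex (f k, 0), hn (f k)⟩
    have hg : Function.Injective g := by
      intro a b hab
      have h1 : (toLex (f a, 0) : List ℚ ×ₗ ℕ) = toLex (f b, 0) := congrArg Subtype.val hab
      have h2 : (f a, 0) = (f b, 0) := toLex.injective h1
      exact hf (Prod.ext_iff.1 h2).1
    have hsub : range g ⊆ Icc x y := by
      rintro _ ⟨k, rfl⟩
      constructor
      · apply le_of_lt
        show x.1 < toLex (f k, 0)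
        rw [Prod.Lex.lt_iff]
        exact Or.inl (hf' k).1
      · apply le_of_lt
        show (toLex (f k, 0) : List ℚ ×ₗ ℕ) < y.1
        rw [Prod.Lex.lt_iff]
        exact Or.inl (hf' k).2
    exact (infinite_range_of_injective hg) (hfin.subset hsub)
  · intro h
    have : Icc x y ⊆ Subtype.val ⁻¹' ((fun k => (toLex (fc x, k) : List ℚ ×ₗ ℕ)) ''
        (Iio (n (fc x)))) := by
      intro z hz
      have h1 : fc z = fc x := le_antisymm ((fc_mono hz.2).trans h.ge) (fc_mono hz.1)
      refine ⟨(ofLex z.1).2, ?_, ?_⟩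
      · have := z.2
        have h2 : (ofLex z.1).2 < n (fc z) := this
        rw [h1] at h2
        exact h2
      · show toLex (fc x, (ofLex z.1).2) = z.1
        rw [← h1]
        rfl
    exact (((Set.finite_Iio _).image _).preimage (Subtype.val_injective.injOn)).subset this

theorem fc_eq_iff (hn : ∀ σ, 0 < n σ) (hn' : ∀ σ, 0 < n' σ) (Φ : Dm n ≃o Dm n') (x y : Dm n) :
    fc (Φ x) = fc (Φ y) ↔ fc x = fc y := by
  have key : ∀ x y : Dm n, x ≤ y → (fc (Φ x) = fc (Φ y) ↔ fc x = fc y) := by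
    intro x y hxy
    rw [← finite_iff hn hxy, ← finite_iff hn' (Φ.monotone hxy), ← Φ.image_Icc]
    exact Set.finite_image_iff (Φ.injective.injOn)
  rcases le_total x y with h | h
  · exact key x y h
  · rw [eq_comm, key y x h, eq_comm]

def psi (hn : ∀ σ, 0 < n σ) (Φ : Dm n ≃o Dm n') (σ : List ℚ) : List ℚ :=
  fc (Φ ⟨toLex (σ, 0), hn σ⟩)

section Psi

variable (hn : ∀ σ, 0 < n σ) (hn' : ∀ σ, 0 < n' σ) (Φ : Dm n ≃o Dm n')

include hn' in
theorem fc_map (x : Dm n) : fc (Φ x) = psi hn Φ (fc x) :=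
  (fc_eq_iff hn hn' Φ _ _).2 rfl

include hn' in
theorem psi_strictMono : StrictMono (psi hn Φ) := by
  intro σ τ h
  have h1 : (⟨toLex (σ, 0), hn σ⟩ : Dm n) < ⟨toLex (τ, 0), hn τ⟩ := by
    show (toLex (σ, 0) : List ℚ ×ₗ ℕ) < toLex (τ, 0)
    rw [Prod.Lex.toLex_lt_toLex]
    exact Or.inl h
  refine lt_of_le_of_ne (fc_mono (Φ.monotone h1.le)) ?_
  intro h2
  have := (fc_eq_iff hn hn' Φ _ _).1 h2
  exact h.ne this

include hn' in
theorem psi_surj : Function.Surjective (psi hn Φ) := by
  intro τ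
  refine ⟨fc (Φ.symm ⟨toLex (τ, 0), hn' τ⟩), ?_⟩
  rw [← fc_map hn hn', Φ.apply_symm_apply]
  rfl

include hn' in
theorem card_le (σ : List ℚ) : n σ ≤ n' (psi hn Φ σ) := by
  let F : Fin (n σ) → Fin (n' (psi hn Φ σ)) := fun i =>
    ⟨(ofLex (Φ ⟨toLex (σ, i.1), i.2⟩).1).2, by
      have h1 := (Φ ⟨toLex (σ, i.1), i.2⟩).2
      have h2 : (ofLex (Φ ⟨toLex (σ, i.1), i.2⟩).1).2 < n' (fc (Φ ⟨toLex (σ, i.1), i.2⟩)) := h1
      rw [fc_map hn hn'] at h2
      exact h2⟩
  have hF : Function.Injective F := by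
    intro i j hij
    have h1 : (ofLex (Φ ⟨toLex (σ, i.1), i.2⟩).1).2 = (ofLex (Φ ⟨toLex (σ, j.1), j.2⟩).1).2 :=
      congrArg Fin.val hij
    have h2 : fc (Φ ⟨toLex (σ, i.1), i.2⟩) = fc (Φ ⟨toLex (σ, j.1), j.2⟩) :=
      (fc_eq_iff hn hn' Φ _ _).2 rfl
    have h3 : Φ ⟨toLex (σ, i.1), i.2⟩ = Φ ⟨toLex (σ, j.1), j.2⟩ := by
      apply Subtype.ext
      apply ofLex.injective
      exact Prod.ext h2 h1
    have h4 := Φ.injective h3
    have h5 : (toLex (σ, i.1) : List ℚ ×ₗ ℕ) = toLex (σ, j.1) := congrArg Subtype.val h4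
    have h6 : (σ, i.1) = (σ, j.1) := toLex.injective h5
    exact Fin.ext (Prod.ext_iff.1 h6).2
  have := Fintype.card_le_of_injective F hF
  simpa using this

include hn' in
theorem psi_symm (σ : List ℚ) : psi hn' Φ.symm (psi hn Φ σ) = σ := by
  have h1 : fc (Φ ⟨toLex (σ, 0), hn σ⟩) = psi hn Φ σ := rfl
  rw [← h1, ← fc_map hn' hn, Φ.symm_apply_apply]
  rfl

include hn' in
theorem card_eq (σ : List ℚ) : n' (psi hn Φ σ) = n σ := by
  apply le_antisymm _ (card_le hn hn' Φ σ)
  have := card_le hn' hn Φ.symm (psi hn Φ σ)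
  rwa [psi_symm hn hn' Φ σ] at this

end Psi

/-! ### Bisimilarity from an isomorphism -/

variable {S S' : Type} {T : LTS S} {T' : LTS S'} {χ : ℚ → Option S} {χ' : ℚ → Option S'}

theorem size_pos (T : LTS S) (χ : ℚ → Option S) (o : Option S) (σ : List ℚ) :
    0 < size T χ o σ := by
  unfold size; omega

theorem size_eq {o : Option S} {o' : Option S'} {σ τ : List ℚ}
    (h : size T' χ' o' τ = size T χ o σ) :
    labO T' (run T' χ' o' τ) = labO T (run T χ o σ) ∧ τ.length = σ.length := by
  unfold size at h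
  have h1 : Nat.pair (labO T' (run T' χ' o' τ)) τ.length =
    Nat.pair (labO T (run T χ o σ)) σ.length := by omega
  exact Nat.pair_eq_pair.1 h1

theorem labO_some {o : Option S} {k : ℕ} (h : labO T o = k + 1) : ∃ s, o = some s ∧ T.lab s = k := by
  cases o with
  | none => exact absurd h (Nat.succ_ne_zero k).symm
  | some s =>
    refine ⟨s, rfl, ?_⟩
    have : T.lab s + 1 = k + 1 := h
    omega

theorem snoc_of_prefix {σ τ : List ℚ} (h : σ <+: τ) (hl : τ.length = σ.length + 1) :
    ∃ q, τ = σ ++ [q] := by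
  obtain ⟨π, rfl⟩ := h
  rw [List.length_append] at hl
  have : π.length = 1 := by omega
  obtain ⟨q, rfl⟩ := List.length_eq_one_iff.1 this
  exact ⟨q, rfl⟩

theorem bisim_of_iso (hχ : DenseCol χ) (hχ' : DenseCol χ') {s0 : S} {s0' : S'}
    (Φ : Dom T χ (some s0) ≃o Dom T' χ' (some s0')) : Bisim T T' s0 s0' := by
  have hn := size_pos T χ (some s0)
  have hn' := size_pos T' χ' (some s0')
  let Ψ : Dm (size T χ (some s0)) ≃o Dm (size T' χ' (some s0')) := Φ
  set ψ := psi hn Ψ with hψ
  have hmono : StrictMono ψ := psi_strictMono hn hn' Ψ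
  have hsurj : Function.Surjective ψ := psi_surj hn hn' Ψ
  have hsize : ∀ σ, labO T' (run T' χ' (some s0') (ψ σ)) = labO T (run T χ (some s0) σ) ∧
      (ψ σ).length = σ.length := fun σ => size_eq (card_eq hn hn' Ψ σ)
  have hpre : ∀ σ τ, σ <+: τ ↔ ψ σ <+: ψ τ := by
    intro σ τ
    rw [prefix_iff, prefix_iff, hmono.le_iff_le]
    refine and_congr Iff.rfl ?_
    constructor
    · intro h ρ h1 h2
      obtain ⟨ρ, rfl⟩ := hsurj ρ
      rw [(hsize σ).2, (hsize ρ).2]
      exact h ρ (hmono.lt_iff_lt.1 h1) (hmono.le_iff_le.1 h2)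
    · intro h ρ h1 h2
      have := h (ψ ρ) (hmono h1) (hmono.le_iff_le.2 h2)
      rwa [(hsize σ).2, (hsize ρ).2] at this
  refine ⟨fun s s' => ∃ σ, run T χ (some s0) σ = some s ∧ run T' χ' (some s0') (ψ σ) = some s',
    ?_, [], rfl, ?_⟩
  · rintro s s' ⟨σ, h1, h2⟩
    have hlab := (hsize σ).1
    rw [h1, h2] at hlab
    have hlab' : T'.lab s' + 1 = T.lab s + 1 := hlab
    refine ⟨by omega, ?_, ?_⟩
    · intro t ht
      obtain ⟨q, -, -, hq⟩ := hχ (some t) 0 1 (by norm_num)
      have h3 : run T χ (some s0) (σ ++ [q]) = some t := by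
        rw [run_append, h1]
        exact child_eq_some.2 ⟨s, rfl, hq, ht⟩
      have h4 : ψ σ <+: ψ (σ ++ [q]) := (hpre _ _).1 (List.prefix_append _ _)
      obtain ⟨q', hq'⟩ := snoc_of_prefix h4 (by
        rw [(hsize _).2, (hsize _).2, List.length_append]; rfl)
      have h5 := (hsize (σ ++ [q])).1
      rw [h3] at h5
      obtain ⟨t', ht', -⟩ := labO_some h5
      refine ⟨t', ?_, σ ++ [q], h3, ht'⟩
      rw [hq', run_append, h2] at ht'
      obtain ⟨s1, e1, e2, e3⟩ := child_eq_some.1 ht'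
      cases e1
      exact e3
    · intro t' ht'
      obtain ⟨q', -, -, hq'⟩ := hχ' (some t') 0 1 (by norm_num)
      have h3 : run T' χ' (some s0') (ψ σ ++ [q']) = some t' := by
        rw [run_append, h2]
        exact child_eq_some.2 ⟨s', rfl, hq', ht'⟩
      obtain ⟨ρ, hρ⟩ := hsurj (ψ σ ++ [q'])
      have h4 : σ <+: ρ := (hpre _ _).2 (by rw [hρ]; exact List.prefix_append _ _)
      obtain ⟨q, rfl⟩ := snoc_of_prefix h4 (by
        rw [← (hsize ρ).2, hρ, List.length_append, (hsize σ).2]; rfl)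
      have h5 := (hsize (σ ++ [q])).1
      rw [hρ, h3] at h5
      obtain ⟨t, ht, -⟩ := labO_some h5.symm
      refine ⟨t, ?_, σ ++ [q], ht, by rw [hρ]; exact h3⟩
      rw [run_append, h1] at ht
      obtain ⟨s1, e1, e2, e3⟩ := child_eq_some.1 ht
      cases e1
      exact e3
  · have h1 : (ψ []).length = 0 := (hsize []).2
    rw [List.length_eq_zero_iff.1 h1]
    rfl

/-- **The coding is faithful.** -/
theorem dom_iso_iff (hχ : DenseCol χ) (hχ' : DenseCol χ') (s : S) (s' : S') :
    Nonempty (Dom T χ (some s) ≃o Dom T' χ' (some s')) ↔ Bisim T T' s s' := by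
  constructor
  · rintro ⟨Φ⟩
    exact bisim_of_iso hχ hχ' Φ
  · intro h
    exact iso_of_BO hχ hχ' (Or.inr ⟨s, s', rfl, rfl, h⟩)

end Pool.Agent.MP_387a72_lc
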