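import Pool.Agent.MP_387a72_lc.State

/-!
# Hiding a state behind a gate, and the main equivalence
-/

namespace Pool.Agent.MP_387a72_lc

open Set

variable {A B : Type} [LinearOrder A] [LinearOrder B] {bl br : Bool}

/-- The gate is open: its two states are bisimilar. -/
def Open (A : Type) [LinearOrder A] (bl br : Bool) : Prop :=
  Bisim (TL A) (TL A) (.gate bl br .top) (.gate bl br (.A []))

/-- The gates of `A` and `B` match. -/
def GateEq (A B : Type) [LinearOrder A] [LinearOrder B] (bl br : Bool) : Prop :=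
  Bisim (TL A) (TL B) (.gate bl br .top) (.gate bl br .top) ∧
  Bisim (TL A) (TL B) (.gate bl br (.A [])) (.gate bl br (.A []))

theorem GateEq.open_iff (h : GateEq A B bl br) : Open A bl br ↔ Open B bl br :=
  ⟨fun h' => (h.1.symm.trans h').trans h.2, fun h' => (h.1.trans h').trans h.2.symm⟩

/-- If the gate is open then everything is hidden. -/
theorem hide_open (h : Open A bl br) (s : St A) :
    Bisim (TL A) (TL A) (.HH bl br s) (.HD bl br) := by
  refine ⟨fun u u' => (∃ s, u = .HH bl br s ∧ u' = .HD bl br) ∨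
    (∃ s, u = .HPx bl br s ∧ u' = .HPy bl br (lab s)) ∨ Bisim (TL A) (TL A) u u', ?_,
    Or.inl ⟨s, rfl, rfl⟩⟩
  rintro u u' (⟨s, rfl, rfl⟩ | ⟨s, rfl, rfl⟩ | hB)
  · refine ⟨rfl, ?_, ?_⟩
    · intro t ht
      rcases step_HH.1 ht with ⟨t, -, rfl⟩ | ⟨k, rfl⟩
      · exact ⟨.HPy bl br (lab t), step_HD.2 ⟨_, rfl⟩, Or.inr (Or.inl ⟨t, rfl, rfl⟩)⟩
      · exact ⟨.HPy bl br k, step_HD.2 ⟨_, rfl⟩, Or.inr (Or.inr (Bisim.refl _ _))⟩
    · intro t ht
      obtain ⟨k, rfl⟩ := step_HD.1 ht
      exact ⟨.HPy bl br k, step_HH.2 (Or.inr ⟨k, rfl⟩), Or.inr (Or.inr (Bisim.refl _ _))⟩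
  · refine ⟨rfl, ?_, ?_⟩
    · intro t ht
      rcases step_HPx.1 ht with rfl | rfl
      · exact ⟨_, step_HPy.2 (Or.inl rfl), Or.inr (Or.inr h)⟩
      · exact ⟨_, step_HPy.2 (Or.inr rfl), Or.inl ⟨s, rfl, rfl⟩⟩
    · intro t ht
      rcases step_HPy.1 ht with rfl | rfl
      · exact ⟨_, step_HPx.2 (Or.inl rfl), Or.inr (Or.inr h)⟩
      · exact ⟨_, step_HPx.2 (Or.inr rfl), Or.inl ⟨s, rfl, rfl⟩⟩
  · refine ⟨hB.lab, ?_, ?_⟩
    · intro t ht
      obtain ⟨t', h1, h2⟩ := hB.fwd ht
      exact ⟨t', h1, Or.inr (Or.inr h2)⟩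
    · intro t ht
      obtain ⟨t', h1, h2⟩ := hB.bwd ht
      exact ⟨t', h1, Or.inr (Or.inr h2)⟩

/-- Congruence. -/
theorem hide_congr_aux (h : GateEq A B bl br) : IsBisim (TL A) (TL B)
    (fun u u' => (∃ s s', Bisim (TL A) (TL B) s s' ∧ u = .HH bl br s ∧ u' = .HH bl br s') ∨
      (∃ s s', Bisim (TL A) (TL B) s s' ∧ u = .HPx bl br s ∧ u' = .HPx bl br s') ∨
      (∃ k, u = .HPy bl br k ∧ u' = .HPy bl br k) ∨ (u = .HD bl br ∧ u' = .HD bl br) ∨
      Bisim (TL A) (TL B) u u') := by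
  rintro u u' (⟨s, s', hs, rfl, rfl⟩ | ⟨s, s', hs, rfl, rfl⟩ | ⟨k, rfl, rfl⟩ | ⟨rfl, rfl⟩ | hB)
  · refine ⟨rfl, ?_, ?_⟩
    · intro t ht
      rcases step_HH.1 ht with ⟨t, ht0, rfl⟩ | ⟨k, rfl⟩
      · obtain ⟨t', h1, h2⟩ := hs.fwd ht0
        exact ⟨_, step_HH.2 (Or.inl ⟨t', h1, rfl⟩), Or.inr (Or.inl ⟨t, t', h2, rfl, rfl⟩)⟩
      · exact ⟨_, step_HH.2 (Or.inr ⟨k, rfl⟩), Or.inr (Or.inr (Or.inl ⟨k, rfl, rfl⟩))⟩
    · intro t ht
      rcases step_HH.1 ht with ⟨t, ht0, rfl⟩ | ⟨k, rfl⟩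
      · obtain ⟨t', h1, h2⟩ := hs.bwd ht0
        exact ⟨_, step_HH.2 (Or.inl ⟨t', h1, rfl⟩), Or.inr (Or.inl ⟨t', t, h2, rfl, rfl⟩)⟩
      · exact ⟨_, step_HH.2 (Or.inr ⟨k, rfl⟩), Or.inr (Or.inr (Or.inl ⟨k, rfl, rfl⟩))⟩
  · refine ⟨by show 3 + lab s = 3 + lab s'; rw [show lab s = lab s' from hs.lab], ?_, ?_⟩
    · intro t ht
      rcases step_HPx.1 ht with rfl | rfl
      · exact ⟨_, step_HPx.2 (Or.inl rfl), Or.inr (Or.inr (Or.inr (Or.inr h.1)))⟩
      · exact ⟨_, step_HPx.2 (Or.inr rfl), Or.inl ⟨s, s', hs, rfl, rfl⟩⟩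
    · intro t ht
      rcases step_HPx.1 ht with rfl | rfl
      · exact ⟨_, step_HPx.2 (Or.inl rfl), Or.inr (Or.inr (Or.inr (Or.inr h.1)))⟩
      · exact ⟨_, step_HPx.2 (Or.inr rfl), Or.inl ⟨s, s', hs, rfl, rfl⟩⟩
  · refine ⟨rfl, ?_, ?_⟩
    · intro t ht
      rcases step_HPy.1 ht with rfl | rfl
      · exact ⟨_, step_HPy.2 (Or.inl rfl), Or.inr (Or.inr (Or.inr (Or.inr h.2)))⟩
      · exact ⟨_, step_HPy.2 (Or.inr rfl), Or.inr (Or.inr (Or.inr (Or.inl ⟨rfl, rfl⟩)))⟩
    · intro t ht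
      rcases step_HPy.1 ht with rfl | rfl
      · exact ⟨_, step_HPy.2 (Or.inl rfl), Or.inr (Or.inr (Or.inr (Or.inr h.2)))⟩
      · exact ⟨_, step_HPy.2 (Or.inr rfl), Or.inr (Or.inr (Or.inr (Or.inl ⟨rfl, rfl⟩)))⟩
  · refine ⟨rfl, ?_, ?_⟩
    · intro t ht
      obtain ⟨k, rfl⟩ := step_HD.1 ht
      exact ⟨_, step_HD.2 ⟨k, rfl⟩, Or.inr (Or.inr (Or.inl ⟨k, rfl, rfl⟩))⟩
    · intro t ht
      obtain ⟨k, rfl⟩ := step_HD.1 ht
      exact ⟨_, step_HD.2 ⟨k, rfl⟩, Or.inr (Or.inr (Or.inl ⟨k, rfl, rfl⟩))⟩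
  · refine ⟨hB.lab, ?_, ?_⟩
    · intro t ht
      obtain ⟨t', h1, h2⟩ := hB.fwd ht
      exact ⟨t', h1, Or.inr (Or.inr (Or.inr (Or.inr h2)))⟩
    · intro t ht
      obtain ⟨t', h1, h2⟩ := hB.bwd ht
      exact ⟨t', h1, Or.inr (Or.inr (Or.inr (Or.inr h2)))⟩

theorem hide_congr (h : GateEq A B bl br) {s : St A} {s' : St B}
    (hs : Bisim (TL A) (TL B) s s') : Bisim (TL A) (TL B) (.HH bl br s) (.HH bl br s') :=
  ⟨_, hide_congr_aux h, Or.inl ⟨s, s', hs, rfl, rfl⟩⟩

theorem hd_congr (h : GateEq A B bl br) : Bisim (TL A) (TL B) (.HD bl br) (.HD bl br) :=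
  ⟨_, hide_congr_aux h, Or.inr (Or.inr (Or.inr (Or.inl ⟨rfl, rfl⟩)))⟩

theorem hide_hidden (h : GateEq A B bl br) (ho : Open A bl br) (s : St A) (s' : St B) :
    Bisim (TL A) (TL B) (.HH bl br s) (.HH bl br s') :=
  ((hide_open ho s).trans (hd_congr h)).trans (hide_open (h.open_iff.1 ho) s').symm

/-- If the gate is closed then the hidden state is revealed. -/
theorem hide_reveal (h : GateEq A B bl br) (ho : ¬ Open A bl br) {s : St A} {s' : St B}
    (hlab : lab s = lab s') (hB : Bisim (TL A) (TL B) (.HH bl br s) (.HH bl br s')) :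
    Bisim (TL A) (TL B) s s' := by
  refine ⟨fun s s' => lab s = lab s' ∧ Bisim (TL A) (TL B) (.HH bl br s) (.HH bl br s'), ?_,
    hlab, hB⟩
  clear hlab hB
  rintro s s' ⟨hlab, hB⟩
  refine ⟨hlab, ?_, ?_⟩
  · intro t ht
    obtain ⟨u', hu', hB'⟩ := hB.fwd (step_HH.2 (Or.inl ⟨t, ht, rfl⟩))
    rcases step_HH.1 hu' with ⟨t', ht', rfl⟩ | ⟨k, rfl⟩
    · refine ⟨t', ht', ?_, ?_⟩
      · have h1 : 3 + lab t = 3 + lab t' := hB'.lab
        omega
      · obtain ⟨v', hv', hB''⟩ := hB'.fwd (step_HPx.2 (Or.inr rfl))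
        rcases step_HPx.1 hv' with rfl | rfl
        · have h1 : 2 = 0 := hB''.lab
          omega
        · exact hB''
    · exfalso
      obtain ⟨v', hv', hB''⟩ := hB'.fwd (step_HPx.2 (Or.inl rfl))
      rcases step_HPy.1 hv' with rfl | rfl
      · exact ho (hB''.trans h.2.symm)
      · have h1 : 0 = 2 := hB''.lab
        omega
  · intro t' ht'
    obtain ⟨u, hu, hB'⟩ := hB.bwd (step_HH.2 (Or.inl ⟨t', ht', rfl⟩))
    rcases step_HH.1 hu with ⟨t, ht, rfl⟩ | ⟨k, rfl⟩
    · refine ⟨t, ht, ?_, ?_⟩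
      · have h1 : 3 + lab t = 3 + lab t' := hB'.lab
        omega
      · obtain ⟨v, hv, hB''⟩ := hB'.bwd (step_HPx.2 (Or.inr rfl))
        rcases step_HPx.1 hv with rfl | rfl
        · have h1 : 0 = 2 := hB''.lab
          omega
        · exact hB''
    · exfalso
      obtain ⟨v, hv, hB''⟩ := hB'.bwd (step_HPx.2 (Or.inl rfl))
      rcases step_HPy.1 hv with rfl | rfl
      · exact ho (h.1.trans hB''.symm)
      · have h1 : 2 = 0 := hB''.lab
        omega

/-! ### Tags -/

theorem tg_bisim_iff {n : ℕ} {s : St A} {s' : St B} :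
    Bisim (TL A) (TL B) (.tg n s) (.tg n s') ↔ Bisim (TL A) (TL B) s s' := by
  constructor
  · intro h
    obtain ⟨t', ht', hB⟩ := h.fwd (step_tg.2 rfl)
    rw [step_tg.1 ht'] at hB
    exact hB
  · intro h
    refine ⟨fun u u' => (u = .tg n s ∧ u' = .tg n s') ∨ Bisim (TL A) (TL B) u u', ?_,
      Or.inl ⟨rfl, rfl⟩⟩
    rintro u u' (⟨rfl, rfl⟩ | hB)
    · refine ⟨rfl, fun t ht => ?_, fun t ht => ?_⟩
      · rw [step_tg.1 ht]
        exact ⟨s', step_tg.2 rfl, Or.inr h⟩
      · rw [step_tg.1 ht]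
        exact ⟨s, step_tg.2 rfl, Or.inr h⟩
    · refine ⟨hB.lab, fun t ht => ?_, fun t ht => ?_⟩
      · obtain ⟨t', h1, h2⟩ := hB.fwd ht
        exact ⟨t', h1, Or.inr h2⟩
      · obtain ⟨t', h1, h2⟩ := hB.bwd ht
        exact ⟨t', h1, Or.inr h2⟩

/-- A state whose successors form a list. -/
theorem list_bisim {s : St A} {s' : St B} (hlab : lab s = lab s') {l : List (St A)}
    {l' : List (St B)} (hs : ∀ u, (TL A).step s u ↔ u ∈ l) (hs' : ∀ u, (TL B).step s' u ↔ u ∈ l')
    (hll : List.Forall₂ (Bisim (TL A) (TL B)) l l') : Bisim (TL A) (TL B) s s' := by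
  refine ⟨fun u u' => (u = s ∧ u' = s') ∨ Bisim (TL A) (TL B) u u', ?_, Or.inl ⟨rfl, rfl⟩⟩
  rintro u u' (⟨rfl, rfl⟩ | hB)
  · refine ⟨hlab, fun t ht => ?_, fun t ht => ?_⟩
    · have h1 := (hs t).1 ht
      obtain ⟨t', h2, h3⟩ : ∃ t' ∈ l', Bisim (TL A) (TL B) t t' := by
        clear hs hs' ht
        induction hll with
        | nil => cases h1
        | cons h _ ih =>
          rcases List.mem_cons.1 h1 with rfl | h1
          · exact ⟨_, List.mem_cons_self, h⟩
          · obtain ⟨t', h2, h3⟩ := ih h1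
            exact ⟨t', List.mem_cons_of_mem _ h2, h3⟩
      exact ⟨t', (hs' t').2 h2, Or.inr h3⟩
    · have h1 := (hs' t).1 ht
      obtain ⟨t', h2, h3⟩ : ∃ t' ∈ l, Bisim (TL A) (TL B) t' t := by
        clear hs hs' ht
        induction hll with
        | nil => cases h1
        | cons h _ ih =>
          rcases List.mem_cons.1 h1 with rfl | h1
          · exact ⟨_, List.mem_cons_self, h⟩
          · obtain ⟨t', h2, h3⟩ := ih h1
            exact ⟨t', List.mem_cons_of_mem _ h2, h3⟩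
      exact ⟨t', (hs t').2 h2, Or.inr h3⟩
  · refine ⟨hB.lab, fun t ht => ?_, fun t ht => ?_⟩
    · obtain ⟨t', h1, h2⟩ := hB.fwd ht
      exact ⟨t', h1, Or.inr h2⟩
    · obtain ⟨t', h1, h2⟩ := hB.bwd ht
      exact ⟨t', h1, Or.inr h2⟩

theorem base_bisim_iff {s : TS A} {s' : TS B} :
    Bisim (TL A) (TL B) (.base s) (.base s') ↔ Bisim (TT A) (TT B) s s' :=
  bisim_emb emb_base emb_base s s'

theorem open_iff [Countable A] [Nonempty A] : Open A bl br ↔ BEmb A A bl br := by
  rw [← gate_open_iff]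
  exact bisim_emb (emb_gate bl br) (emb_gate bl br) _ _

theorem gateEq_of {f : A → B} {g : B → A} (hf : ConvexEmb f) (hg : ConvexEmb g)
    (hcond : (gm A A bl br).Win → InitIf bl f ∧ FinIf br f ∧ InitIf bl g ∧ FinIf br g) :
    GateEq A B bl br := by
  have h := gates_bisim hf hg hcond
  exact ⟨(bisim_emb (emb_gate bl br) (emb_gate bl br) _ _).2 h.1,
    (bisim_emb (emb_gate bl br) (emb_gate bl br) _ _).2 h.2⟩

/-! ### Invariants -/

/-- the invariant of closed intervals -/
def SubI (A B : Type) [LinearOrder A] [LinearOrder B] : Prop :=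
  ∀ x y : A, x ≤ y → ∃ x' y' : B, x' ≤ y' ∧ IsoS (Icc x y) (Icc x' y')
def SubR (A B : Type) [LinearOrder A] [LinearOrder B] : Prop :=
  ∀ x : A, ∃ x' : B, IsoS (Ici x) (Ici x')
def SubL (A B : Type) [LinearOrder A] [LinearOrder B] : Prop :=
  ∀ x : A, ∃ x' : B, IsoS (Iic x) (Iic x')

theorem setI_bisim [Nonempty A] [Nonempty B] (h : SubI A B) (h' : SubI B A) :
    Bisim (TT A) (TT B) .setI .setI := by
  refine ⟨fun u u' => (u = .setI ∧ u' = .setI) ∨ Bisim (TT A) (TT B) u u', ?_, Or.inl ⟨rfl, rfl⟩⟩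
  rintro u u' (⟨rfl, rfl⟩ | hB)
  · refine ⟨rfl, fun t ht => ?_, fun t ht => ?_⟩
    · cases t with
      | tup lo hi l =>
        obtain ⟨x, y, hxy, rfl, rfl, rfl⟩ := ht
        obtain ⟨x', y', hxy', hiso⟩ := h x y hxy
        refine ⟨.tup (some x') (some y') [], ⟨x', y', hxy', rfl, rfl, rfl⟩, Or.inr ?_⟩
        apply tup_bisim_of_iso
        rw [InI_some_some, InI_some_some]; exact hiso
      | _ => exact ht.elim
    · cases t with
      | tup lo hi l =>
        obtain ⟨x, y, hxy, rfl, rfl, rfl⟩ := ht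
        obtain ⟨x', y', hxy', hiso⟩ := h' x y hxy
        refine ⟨.tup (some x') (some y') [], ⟨x', y', hxy', rfl, rfl, rfl⟩, Or.inr ?_⟩
        apply tup_bisim_of_iso
        rw [InI_some_some, InI_some_some]; exact hiso.symm
      | _ => exact ht.elim
  · refine ⟨hB.lab, fun t ht => ?_, fun t ht => ?_⟩
    · obtain ⟨t', h1, h2⟩ := hB.fwd ht
      exact ⟨t', h1, Or.inr h2⟩
    · obtain ⟨t', h1, h2⟩ := hB.bwd ht
      exact ⟨t', h1, Or.inr h2⟩

theorem setR_bisim [Nonempty A] [Nonempty B] (h : SubR A B) (h' : SubR B A) :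
    Bisim (TT A) (TT B) .setR .setR := by
  refine ⟨fun u u' => (u = .setR ∧ u' = .setR) ∨ Bisim (TT A) (TT B) u u', ?_, Or.inl ⟨rfl, rfl⟩⟩
  rintro u u' (⟨rfl, rfl⟩ | hB)
  · refine ⟨rfl, fun t ht => ?_, fun t ht => ?_⟩
    · cases t with
      | tup lo hi l =>
        obtain ⟨⟨x, rfl⟩, rfl, rfl⟩ := ht
        obtain ⟨x', hiso⟩ := h x
        refine ⟨.tup (some x') none [], ⟨⟨x', rfl⟩, rfl, rfl⟩, Or.inr ?_⟩
        apply tup_bisim_of_iso
        rw [InI_some_none, InI_some_none]; exact hiso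
      | _ => exact ht.elim
    · cases t with
      | tup lo hi l =>
        obtain ⟨⟨x, rfl⟩, rfl, rfl⟩ := ht
        obtain ⟨x', hiso⟩ := h' x
        refine ⟨.tup (some x') none [], ⟨⟨x', rfl⟩, rfl, rfl⟩, Or.inr ?_⟩
        apply tup_bisim_of_iso
        rw [InI_some_none, InI_some_none]; exact hiso.symm
      | _ => exact ht.elim
  · refine ⟨hB.lab, fun t ht => ?_, fun t ht => ?_⟩
    · obtain ⟨t', h1, h2⟩ := hB.fwd ht
      exact ⟨t', h1, Or.inr h2⟩
    · obtain ⟨t', h1, h2⟩ := hB.bwd ht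
      exact ⟨t', h1, Or.inr h2⟩

theorem setL_bisim [Nonempty A] [Nonempty B] (h : SubL A B) (h' : SubL B A) :
    Bisim (TT A) (TT B) .setL .setL := by
  refine ⟨fun u u' => (u = .setL ∧ u' = .setL) ∨ Bisim (TT A) (TT B) u u', ?_, Or.inl ⟨rfl, rfl⟩⟩
  rintro u u' (⟨rfl, rfl⟩ | hB)
  · refine ⟨rfl, fun t ht => ?_, fun t ht => ?_⟩
    · cases t with
      | tup lo hi l =>
        obtain ⟨rfl, ⟨x, rfl⟩, rfl⟩ := ht
        obtain ⟨x', hiso⟩ := h x
        refine ⟨.tup none (some x') [], ⟨rfl, ⟨x', rfl⟩, rfl⟩, Or.inr ?_⟩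
        apply tup_bisim_of_iso
        rw [InI_none_some, InI_none_some]; exact hiso
      | _ => exact ht.elim
    · cases t with
      | tup lo hi l =>
        obtain ⟨rfl, ⟨x, rfl⟩, rfl⟩ := ht
        obtain ⟨x', hiso⟩ := h' x
        refine ⟨.tup none (some x') [], ⟨rfl, ⟨x', rfl⟩, rfl⟩, Or.inr ?_⟩
        apply tup_bisim_of_iso
        rw [InI_none_some, InI_none_some]; exact hiso.symm
      | _ => exact ht.elim
  · refine ⟨hB.lab, fun t ht => ?_, fun t ht => ?_⟩
    · obtain ⟨t', h1, h2⟩ := hB.fwd ht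
      exact ⟨t', h1, Or.inr h2⟩
    · obtain ⟨t', h1, h2⟩ := hB.bwd ht
      exact ⟨t', h1, Or.inr h2⟩

theorem subI_of_setI [Countable A] [Countable B] [Nonempty B]
    (h : Bisim (TT A) (TT B) .setI .setI) : SubI A B := by
  intro x y hxy
  obtain ⟨t', ht', hB⟩ := h.fwd (t := .tup (some x) (some y) []) ⟨x, y, hxy, rfl, rfl, rfl⟩
  cases t' with
  | tup lo hi l =>
    obtain ⟨x', y', hxy', rfl, rfl, rfl⟩ := ht'
    have := iso_of_tup_bisim hB
    rw [InI_some_some, InI_some_some] at this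
    exact ⟨x', y', hxy', this⟩
  | _ => exact ht'.elim

theorem subR_of_setR [Countable A] [Countable B] [Nonempty B]
    (h : Bisim (TT A) (TT B) .setR .setR) : SubR A B := by
  intro x
  obtain ⟨t', ht', hB⟩ := h.fwd (t := .tup (some x) none []) ⟨⟨x, rfl⟩, rfl, rfl⟩
  cases t' with
  | tup lo hi l =>
    obtain ⟨⟨x', rfl⟩, rfl, rfl⟩ := ht'
    have := iso_of_tup_bisim hB
    rw [InI_some_none, InI_some_none] at this
    exact ⟨x', this⟩
  | _ => exact ht'.elim

theorem subL_of_setL [Countable A] [Countable B] [Nonempty B]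
    (h : Bisim (TT A) (TT B) .setL .setL) : SubL A B := by
  intro x
  obtain ⟨t', ht', hB⟩ := h.fwd (t := .tup none (some x) []) ⟨rfl, ⟨x, rfl⟩, rfl⟩
  cases t' with
  | tup lo hi l =>
    obtain ⟨rfl, ⟨x', rfl⟩, rfl⟩ := ht'
    have := iso_of_tup_bisim hB
    rw [InI_none_some, InI_none_some] at this
    exact ⟨x', this⟩
  | _ => exact ht'.elim

/-! ### From bisimilarity to bi-embeddability -/

theorem emb_of_N4 (h : BEmb A A true true) (hI : SubI A B) [Nonempty A] :
    ∃ f : A → B, ConvexEmb f := by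
  obtain ⟨f, hf, z, w, hb⟩ := h
  obtain ⟨a⟩ := ‹Nonempty A›
  obtain ⟨x', y', -, hiso⟩ := hI z w (((hb a).1 rfl).trans ((hb a).2 rfl)).le
  exact emb_of_isoS (S := Icc z w) hf (fun a => ⟨((hb a).1 rfl).le, ((hb a).2 rfl).le⟩)
    ordConnected_Icc hiso

theorem emb_of_left (h : BEmb A A true false) (hI : SubR A B) : ∃ f : A → B, ConvexEmb f := by
  obtain ⟨f, hf, z, w, hb⟩ := h
  obtain ⟨x', hiso⟩ := hI z
  exact emb_of_isoS hf (fun a => ((hb a).1 rfl).le) ordConnected_Ici hiso

theorem emb_of_right (h : BEmb A A false true) (hI : SubL A B) : ∃ f : A → B, ConvexEmb f := by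
  obtain ⟨f, hf, z, w, hb⟩ := h
  obtain ⟨x', hiso⟩ := hI w
  exact emb_of_isoS hf (fun a => ((hb a).2 rfl).le) ordConnected_Iic hiso

theorem bi_of_root [Countable A] [Countable B] [Nonempty A] [Nonempty B]
    (h : Bisim (TL A) (TL B) .root .root) :
    (∃ f : A → B, ConvexEmb f) ∧ (∃ g : B → A, ConvexEmb g) := by
  -- children of the root
  have hc : ∀ n s s', St.tg n s ∈ listRoot A → (∀ t', t' ∈ listRoot B → lab t' = n → t' = .tg n s') →
      Bisim (TL A) (TL B) s s' := by
    intro n s s' h1 h2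
    obtain ⟨t', ht', hB⟩ := h.fwd (step_root.2 h1)
    have h3 := h2 t' (step_root.1 ht') hB.lab.symm
    subst h3
    exact tg_bisim_iff.1 hB
  have hI := hc 0 (.base .setI) (.base .setI) (by simp [listRoot]) (by
    intro t' ht' hl
    simp only [listRoot, List.mem_cons, List.not_mem_nil, or_false] at ht'
    rcases ht' with rfl | rfl | rfl | rfl <;> simp_all [lab])
  have hX := hc 1 (.gate true true .top) (.gate true true .top) (by simp [listRoot]) (by
    intro t' ht' hl
    simp only [listRoot, List.mem_cons, List.not_mem_nil, or_false] at ht'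
    rcases ht' with rfl | rfl | rfl | rfl <;> simp_all [lab])
  have hY := hc 2 (.gate true true (.A [])) (.gate true true (.A [])) (by simp [listRoot]) (by
    intro t' ht' hl
    simp only [listRoot, List.mem_cons, List.not_mem_nil, or_false] at ht'
    rcases ht' with rfl | rfl | rfl | rfl <;> simp_all [lab])
  have hH := hc 3 (.HH true true .Z) (.HH true true .Z) (by simp [listRoot]) (by
    intro t' ht' hl
    simp only [listRoot, List.mem_cons, List.not_mem_nil, or_false] at ht'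
    rcases ht' with rfl | rfl | rfl | rfl <;> simp_all [lab])
  have hG : GateEq A B true true := ⟨hX, hY⟩
  rw [base_bisim_iff] at hI
  have hI1 := subI_of_setI hI
  have hI2 := subI_of_setI hI.symm
  by_cases h4 : Open A true true
  · have h4' := hG.open_iff.1 h4
    rw [open_iff] at h4 h4'
    exact ⟨emb_of_N4 h4 hI1, emb_of_N4 h4' hI2⟩
  have hZ := hide_reveal hG h4 (s := .Z) (s' := .Z) rfl hH
  rw [open_iff] at h4
  have hc : ∀ n s s', St.tg n s ∈ listZ A → (∀ t', t' ∈ listZ B → lab t' = n → t' = .tg n s') →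
      Bisim (TL A) (TL B) s s' := by
    intro n s s' h1 h2
    obtain ⟨t', ht', hB⟩ := hZ.fwd (step_Z.2 h1)
    have h3 := h2 t' (step_Z.1 ht') hB.lab.symm
    subst h3
    exact tg_bisim_iff.1 hB
  have hXl := hc 0 (.gate true false .top) (.gate true false .top) (by simp [listZ]) (by
    intro t' ht' hl
    simp only [listZ, List.mem_cons, List.not_mem_nil, or_false] at ht'
    rcases ht' with rfl | rfl | rfl | rfl | rfl | rfl | rfl <;> simp_all [lab])
  have hYl := hc 1 (.gate true false (.A [])) (.gate true false (.A [])) (by simp [listZ]) (by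
    intro t' ht' hl
    simp only [listZ, List.mem_cons, List.not_mem_nil, or_false] at ht'
    rcases ht' with rfl | rfl | rfl | rfl | rfl | rfl | rfl <;> simp_all [lab])
  have hXr := hc 2 (.gate false true .top) (.gate false true .top) (by simp [listZ]) (by
    intro t' ht' hl
    simp only [listZ, List.mem_cons, List.not_mem_nil, or_false] at ht'
    rcases ht' with rfl | rfl | rfl | rfl | rfl | rfl | rfl <;> simp_all [lab])
  have hYr := hc 3 (.gate false true (.A [])) (.gate false true (.A [])) (by simp [listZ]) (by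
    intro t' ht' hl
    simp only [listZ, List.mem_cons, List.not_mem_nil, or_false] at ht'
    rcases ht' with rfl | rfl | rfl | rfl | rfl | rfl | rfl <;> simp_all [lab])
  have hR := hc 4 (.HH false true (.base .setR)) (.HH false true (.base .setR))
    (by simp [listZ]) (by
    intro t' ht' hl
    simp only [listZ, List.mem_cons, List.not_mem_nil, or_false] at ht'
    rcases ht' with rfl | rfl | rfl | rfl | rfl | rfl | rfl <;> simp_all [lab])
  have hL := hc 5 (.HH true false (.base .setL)) (.HH true false (.base .setL))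
    (by simp [listZ]) (by
    intro t' ht' hl
    simp only [listZ, List.mem_cons, List.not_mem_nil, or_false] at ht'
    rcases ht' with rfl | rfl | rfl | rfl | rfl | rfl | rfl <;> simp_all [lab])
  have hT := hc 6 (.HH true false (.HH false true (.base (.tup none none []))))
    (.HH true false (.HH false true (.base (.tup none none []))))
    (by simp [listZ]) (by
    intro t' ht' hl
    simp only [listZ, List.mem_cons, List.not_mem_nil, or_false] at ht'
    rcases ht' with rfl | rfl | rfl | rfl | rfl | rfl | rfl <;> simp_all [lab])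
  have hGl : GateEq A B true false := ⟨hXl, hYl⟩
  have hGr : GateEq A B false true := ⟨hXr, hYr⟩
  by_cases hl : Open A true false
  · have hl' := hGl.open_iff.1 hl
    have hr : ¬ Open A false true := by
      intro hr
      rw [open_iff] at hl hr
      exact h4 (bemb_both hl hr)
    have hR' := hide_reveal hGr hr rfl hR
    rw [base_bisim_iff] at hR'
    rw [open_iff] at hl hl'
    exact ⟨emb_of_left hl (subR_of_setR hR'), emb_of_left hl' (subR_of_setR hR'.symm)⟩
  · by_cases hr : Open A false true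
    · have hr' := hGr.open_iff.1 hr
      have hL' := hide_reveal hGl hl rfl hL
      rw [base_bisim_iff] at hL'
      rw [open_iff] at hr hr'
      exact ⟨emb_of_right hr (subL_of_setL hL'), emb_of_right hr' (subL_of_setL hL'.symm)⟩
    · have hT' := hide_reveal hGr hr rfl (hide_reveal hGl hl rfl hT)
      rw [base_bisim_iff] at hT'
      have h1 := iso_of_tup_bisim hT'
      have h2 := iso_of_tup_bisim hT'.symm
      rw [InI_none_none, InI_none_none] at h1 h2
      exact ⟨emb_of_isoS ConvexEmb.id (fun _ => trivial) ordConnected_univ h1,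
        emb_of_isoS ConvexEmb.id (fun _ => trivial) ordConnected_univ h2⟩

/-! ### From bi-embeddability to bisimilarity -/

theorem ConvexEmb.subI {f : A → B} (hf : ConvexEmb f) : SubI A B := fun x y hxy =>
  ⟨f x, f y, hf.le_iff.2 hxy, f, hf.1.strictMonoOn _, hf.image_Icc x y⟩

theorem ConvexEmb.subR {f : A → B} (hf : ConvexEmb f) (h : FinIf false f) : SubR A B := by
  intro x
  refine ⟨f x, f, hf.1.strictMonoOn _, ?_⟩
  ext t
  constructor
  · rintro ⟨s, hs, rfl⟩
    exact hf.le_iff.2 hs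
  · intro ht
    obtain ⟨s, rfl⟩ := h rfl x t ht
    exact ⟨s, hf.le_iff.1 ht, rfl⟩

theorem ConvexEmb.subL {f : A → B} (hf : ConvexEmb f) (h : InitIf false f) : SubL A B := by
  intro x
  refine ⟨f x, f, hf.1.strictMonoOn _, ?_⟩
  ext t
  constructor
  · rintro ⟨s, hs, rfl⟩
    exact hf.le_iff.2 hs
  · intro ht
    obtain ⟨s, rfl⟩ := h rfl x t ht
    exact ⟨s, hf.le_iff.1 ht, rfl⟩

theorem root_of_bi [Countable A] [Countable B] [Nonempty A] [Nonempty B]
    {f : A → B} {g : B → A} (hf : ConvexEmb f) (hg : ConvexEmb g) :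
    Bisim (TL A) (TL B) .root .root := by
  have hG4 : GateEq A B true true := gateEq_of hf hg (fun _ =>
    ⟨fun h => (by cases h), fun h => (by cases h), fun h => (by cases h),
      fun h => (by cases h)⟩)
  have hI : Bisim (TL A) (TL B) (.base .setI) (.base .setI) :=
    base_bisim_iff.2 (setI_bisim hf.subI hg.subI)
  have hH : Bisim (TL A) (TL B) (.HH true true .Z) (.HH true true .Z) := by
    by_cases h4 : Open A true true
    · exact hide_hidden hG4 h4 _ _
    apply hide_congr hG4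
    rw [open_iff] at h4
    have hGl : GateEq A B true false := gateEq_of hf hg (fun hw => by
      rw [win_iff] at hw
      have h1 := fin_of_not hf hg (fun h => h4 (bemb_both hw h))
      exact ⟨fun h => (by cases h), h1.1, fun h => (by cases h), h1.2⟩)
    have hGr : GateEq A B false true := gateEq_of hf hg (fun hw => by
      rw [win_iff] at hw
      have h1 := init_of_not hf hg (fun h => h4 (bemb_both h hw))
      exact ⟨h1.1, fun h => (by cases h), h1.2, fun h => (by cases h)⟩)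
    have hR : Bisim (TL A) (TL B) (.HH false true (.base .setR)) (.HH false true (.base .setR)) := by
      by_cases hr : Open A false true
      · exact hide_hidden hGr hr _ _
      · apply hide_congr hGr
        rw [open_iff] at hr
        have h1 := fin_of_not hf hg hr
        exact base_bisim_iff.2 (setR_bisim (hf.subR h1.1) (hg.subR h1.2))
    have hL : Bisim (TL A) (TL B) (.HH true false (.base .setL)) (.HH true false (.base .setL)) := by
      by_cases hl : Open A true false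
      · exact hide_hidden hGl hl _ _
      · apply hide_congr hGl
        rw [open_iff] at hl
        have h1 := init_of_not hf hg hl
        exact base_bisim_iff.2 (setL_bisim (hf.subL h1.1) (hg.subL h1.2))
    have hT : Bisim (TL A) (TL B) (.HH true false (.HH false true (.base (.tup none none []))))
        (.HH true false (.HH false true (.base (.tup none none [])))) := by
      by_cases hl : Open A true false
      · exact hide_hidden hGl hl _ _
      · apply hide_congr hGl
        by_cases hr : Open A false true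
        · exact hide_hidden hGr hr _ _
        · apply hide_congr hGr
          rw [open_iff] at hl hr
          apply base_bisim_iff.2
          apply tup_bisim_of_iso
          rw [InI_none_none, InI_none_none]
          refine ⟨f, hf.1.strictMonoOn _, ?_⟩
          obtain ⟨a⟩ := ‹Nonempty A›
          have h1 := (init_of_not hf hg hl).1
          have h2 := (fin_of_not hf hg hr).1
          apply eq_univ_of_forall
          intro t
          rcases le_total t (f a) with h | h
          · obtain ⟨s, rfl⟩ := h1 rfl a t h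
            exact ⟨s, trivial, rfl⟩
          · obtain ⟨s, rfl⟩ := h2 rfl a t h
            exact ⟨s, trivial, rfl⟩
    refine list_bisim rfl (fun u => step_Z) (fun u => step_Z) ?_
    unfold listZ
    refine .cons (tg_bisim_iff.2 hGl.1) (.cons (tg_bisim_iff.2 hGl.2) (.cons
      (tg_bisim_iff.2 hGr.1) (.cons (tg_bisim_iff.2 hGr.2) (.cons (tg_bisim_iff.2 hR)
      (.cons (tg_bisim_iff.2 hL) (.cons (tg_bisim_iff.2 hT) .nil))))))
  refine list_bisim rfl (fun u => step_root) (fun u => step_root) ?_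
  unfold listRoot
  exact .cons (tg_bisim_iff.2 hI) (.cons (tg_bisim_iff.2 hG4.1) (.cons
    (tg_bisim_iff.2 hG4.2) (.cons (tg_bisim_iff.2 hH) .nil)))

/-- **Main equivalence.** -/
theorem root_bisim_iff [Countable A] [Countable B] [Nonempty A] [Nonempty B] :
    Bisim (TL A) (TL B) .root .root ↔
      (∃ f : A → B, ConvexEmb f) ∧ (∃ g : B → A, ConvexEmb g) := by
  constructor
  · exact bi_of_root
  · rintro ⟨⟨f, hf⟩, ⟨g, hg⟩⟩
    exact root_of_bi hf hg

end Pool.Agent.MP_387a72_lc
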