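import Pool.Agent.MP_387a72_lc.Defs
import Pool.Agent.MP_387a72_lc.Col
import Pool.Agent.MP_387a72_lc.Hide
import Pool.Agent.MP_387a72_lc.Decode

/-!
# Borel computations
-/

namespace Pool.Agent.MP_387a72_lc

open Set

deriving instance Countable for Ch
deriving instance Countable for Ob
deriving instance Countable for GS
deriving instance Countable for TS
deriving instance Countable for St

open Classical in
/-- The linear order coded by `L`. -/
@[reducible]
noncomputable def LO.ord (L : LO) : LinearOrder ℕ where
  le m n := L.le m n
  lt m n := L.le m n ∧ ¬ L.le n m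
  lt_iff_le_not_ge _ _ := Iff.rfl
  min a b := if L.le a b then a else b
  max a b := if L.le a b then b else a
  min_def _ _ := rfl
  max_def _ _ := rfl
  compare a b := @compareOfLessAndEq ℕ a b ⟨fun m n => L.le m n ∧ ¬ L.le n m⟩ _ _
  compare_eq_compareOfLessAndEq _ _ := rfl
  le_refl m := L.2.1 m
  le_trans m n k h h' := L.2.2.2.1 m n k h h'
  le_antisymm m n h h' := L.2.2.1 m n h h'
  le_total m n := L.2.2.2.2 m n
  toDecidableLE := Classical.decRel _

/-! ### Measurable predicates -/

/-- `P` is a Borel condition. -/
def BM (P : LO → Prop) : Prop := MeasurableSet {L | P L}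

theorem BM.const (p : Prop) : BM (fun _ => p) := MeasurableSet.const p

theorem BM.and {P Q : LO → Prop} (hP : BM P) (hQ : BM Q) : BM (fun L => P L ∧ Q L) :=
  MeasurableSet.inter hP hQ

theorem BM.or {P Q : LO → Prop} (hP : BM P) (hQ : BM Q) : BM (fun L => P L ∨ Q L) :=
  MeasurableSet.union hP hQ

theorem BM.not {P : LO → Prop} (hP : BM P) : BM (fun L => ¬ P L) :=
  MeasurableSet.compl hP

theorem BM.congr {P Q : LO → Prop} (hP : BM P) (h : ∀ L, Q L ↔ P L) : BM Q := by
  have : {L | Q L} = {L | P L} := by ext L; exact h L
  unfold BM
  rw [this]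
  exact hP

theorem BM.imp {P Q : LO → Prop} (hP : BM P) (hQ : BM Q) : BM (fun L => P L → Q L) :=
  (hP.not.or hQ).congr (fun _ => imp_iff_not_or)

theorem BM.iff {P Q : LO → Prop} (hP : BM P) (hQ : BM Q) : BM (fun L => P L ↔ Q L) :=
  ((hP.imp hQ).and (hQ.imp hP)).congr (fun _ => iff_iff_implies_and_implies)

theorem BM.ex {ι : Type} [Countable ι] {P : ι → LO → Prop} (h : ∀ i, BM (P i)) :
    BM (fun L => ∃ i, P i L) := by
  have : {L | ∃ i, P i L} = ⋃ i, {L | P i L} := by ext L; simp [Set.mem_iUnion]
  unfold BM
  rw [this]
  exact MeasurableSet.iUnion h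

theorem BM.all {ι : Type} [Countable ι] {P : ι → LO → Prop} (h : ∀ i, BM (P i)) :
    BM (fun L => ∀ i, P i L) := by
  have : {L | ∀ i, P i L} = ⋂ i, {L | P i L} := by ext L; simp [Set.mem_iInter]
  unfold BM
  rw [this]
  exact MeasurableSet.iInter h

theorem bm_le (m n : ℕ) : BM (fun L => L.le m n) := by
  have h1 : Measurable (fun L : LO => L.1 (m, n)) := (measurable_pi_apply _).comp measurable_subtype_coe
  exact h1 (measurableSet_singleton true)

theorem bm_InI (lo hi : Option ℕ) (b : ℕ) : BM (fun L => b ∈ @InI ℕ L.ord lo hi) :=
  (BM.all fun x => (BM.const (lo = some x)).imp (bm_le x b)).and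
    (BM.all fun y => (BM.const (hi = some y)).imp (bm_le b y))

theorem bm_tstep (s t : TS ℕ) : BM (fun L => @tstep ℕ L.ord s t) := by
  cases s with
  | tup lo hi l =>
    cases t with
    | tup lo' hi' l' =>
      exact (BM.const (lo' = lo)).and ((BM.const (hi' = hi)).and
        (BM.ex fun b => (bm_InI lo hi b).and (BM.const (l' = b :: l))))
    | leaf n =>
      exact BM.ex fun a => BM.ex fun b => (BM.const (l[(Nat.unpair n).1]? = some a)).and
        ((BM.const (l[(Nat.unpair n).2]? = some b)).and (bm_le a b))
    | setI => exact BM.const False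
    | setR => exact BM.const False
    | setL => exact BM.const False
  | leaf n => cases t <;> exact BM.const False
  | setI =>
    cases t with
    | tup lo' hi' l' =>
      exact BM.ex fun x => BM.ex fun y => (bm_le x y).and
        (BM.const (lo' = some x ∧ hi' = some y ∧ l' = []))
    | _ => exact BM.const False
  | setR =>
    cases t with
    | tup lo' hi' l' => exact BM.const ((∃ x, lo' = some x) ∧ hi' = none ∧ l' = [])
    | _ => exact BM.const False
  | setL =>
    cases t with
    | tup lo' hi' l' => exact BM.const (lo' = none ∧ (∃ x, hi' = some x) ∧ l' = [])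
    | _ => exact BM.const False

theorem bm_good (l : List (ℕ × ℕ)) : BM (fun L => @Good ℕ ℕ L.ord L.ord l) :=
  BM.all fun x => (BM.const (x ∈ l)).imp (BM.all fun y => (BM.const (y ∈ l)).imp
    ((bm_le x.1 y.1).iff (bm_le x.2 y.2)))

theorem bm_chalPar (p q p' q' : ℕ) (l : List (ℕ × ℕ)) (c : Ch ℕ ℕ) :
    BM (fun L => @chalPar ℕ ℕ L.ord L.ord p q p' q' l c) :=
  (BM.ex fun a => (bm_le p a).and ((bm_le a q).and (BM.const (c = .isoF p q p' q' l a)))).or
    (BM.ex fun b => (bm_le p' b).and ((bm_le b q').and (BM.const (c = .isoB p q p' q' l b))))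

theorem bm_chal (o : Ob ℕ ℕ) (c : Ch ℕ ℕ) : BM (fun L => @chal ℕ ℕ L.ord L.ord o c) := by
  cases o with
  | root => exact BM.ex fun x => BM.ex fun y => (bm_le x y).and (BM.const (c = .rt x y))
  | trip x y z c1 d w =>
    exact (bm_chalPar x y c1 d [] c).or
      ((BM.ex fun x' => (bm_le x' x).and (BM.const (c = .left x' x z c1))).or
      (BM.ex fun y' => (bm_le y y').and (BM.const (c = .right y y' d w))))
  | par p q p' q' l => exact bm_chalPar p q p' q' l c
  | single c' => exact BM.const (c = c')
  | triv => exact BM.const False

theorem bm_resp (bl br : Bool) (c : Ch ℕ ℕ) (o : Ob ℕ ℕ) :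
    BM (fun L => @resp ℕ ℕ L.ord L.ord bl br c o) := by
  cases c with
  | isoF p q p' q' l a =>
    exact BM.ex fun b => (bm_le p' b).and ((bm_le b q').and ((bm_good ((a, b) :: l)).and
      (BM.const (o = .par p q p' q' ((a, b) :: l)))))
  | isoB p q p' q' l b =>
    exact BM.ex fun a => (bm_le p a).and ((bm_le a q).and ((bm_good ((a, b) :: l)).and
      (BM.const (o = .par p q p' q' ((a, b) :: l)))))
  | left x' x z c =>
    exact BM.ex fun c' => (bm_le c' c).and (((BM.const (bl = true)).imp (bm_le c' z).not).and
      (BM.const (o = .par x' x c' c [])))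
  | right y y' d w =>
    exact BM.ex fun d' => (bm_le d d').and (((BM.const (br = true)).imp (bm_le w d').not).and
      (BM.const (o = .par y y' d d' [])))
  | rt x y =>
    exact ((bm_le x y).and (BM.ex fun z => BM.ex fun c => BM.ex fun d => BM.ex fun w =>
      (bm_le c d).and (((BM.const (bl = true)).imp (bm_le c z).not).and
        (((BM.const (br = true)).imp (bm_le w d).not).and (BM.const (o = .trip x y z c d w)))))).or
      ((bm_le x y).not.and (BM.const (o = .triv)))

theorem bm_gstep (bl br : Bool) (s t : GS (Ob ℕ ℕ) (Ch ℕ ℕ)) :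
    BM (fun L => (@gm ℕ ℕ L.ord L.ord bl br).gstep s t) := by
  cases s with
  | top =>
    cases t with
    | etop => exact BM.const True
    | _ => exact BM.const False
  | etop =>
    cases t with
    | top => exact BM.const True
    | A C => exact BM.const True
    | _ => exact BM.const False
  | A C =>
    cases t with
    | E C' c =>
      exact (BM.const (C' = C)).and (BM.all fun d => (BM.const (c = some d)).imp
        (BM.ex fun o => (BM.const (o ∈ Ob.root :: C)).and (bm_chal o d)))
    | _ => exact BM.const False
  | E C c =>
    cases t with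
    | A C' =>
      exact (BM.const (C ⊆ C')).and (BM.all fun d => (BM.const (c = some d)).imp
        (BM.ex fun o => (BM.const (o ∈ C')).and (bm_resp bl br d o)))
    | _ => exact BM.const False

theorem bm_step (s : St ℕ) : ∀ t, BM (fun L => @step ℕ L.ord s t) := by
  induction s with
  | base s =>
    intro t
    cases t with
    | base t => simpa only [step] using bm_tstep s t
    | _ => simpa only [step] using BM.const False
  | gate bl br s =>
    intro t
    cases t with
    | gate bl' br' t =>
      simpa only [step] using (BM.const (bl = bl')).and ((BM.const (br = br')).and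
        (bm_gstep bl br s t))
    | _ => simpa only [step] using BM.const False
  | HH bl br s ih =>
    intro t
    cases t with
    | HPx bl' br' t =>
      simpa only [step] using (BM.const (bl = bl')).and ((BM.const (br = br')).and (ih t))
    | HPy bl' br' k => simpa only [step] using BM.const (bl = bl' ∧ br = br')
    | _ => simpa only [step] using BM.const False
  | HPx bl br s ih =>
    intro t
    cases t with
    | gate bl' br' t => simpa only [step] using BM.const (bl = bl' ∧ br = br' ∧ t = .top)
    | HH bl' br' t => simpa only [step] using BM.const (bl = bl' ∧ br = br' ∧ t = s)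
    | _ => simpa only [step] using BM.const False
  | HPy bl br k =>
    intro t
    cases t with
    | gate bl' br' t => simpa only [step] using BM.const (bl = bl' ∧ br = br' ∧ t = .A [])
    | HD bl' br' => simpa only [step] using BM.const (bl = bl' ∧ br = br')
    | _ => simpa only [step] using BM.const False
  | HD bl br =>
    intro t
    cases t with
    | HPy bl' br' k => simpa only [step] using BM.const (bl = bl' ∧ br = br')
    | _ => simpa only [step] using BM.const False
  | tg n s ih =>
    intro t
    simpa only [step] using BM.const (t = s)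
  | Z =>
    intro t
    simpa only [step] using BM.const (t ∈ listZ ℕ)
  | root =>
    intro t
    simpa only [step] using BM.const (t ∈ listRoot ℕ)

end Pool.Agent.MP_387a72_lc
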