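import Mathlib

/-!
# Definitions used in the statement
-/

namespace Pool.Agent.MP_387a72_lc

/-- `x` codes a (reflexive) linear order on `ℕ`: the set of pairs `(m, n)` with `x (m, n) = 1` is
reflexive, antisymmetric, transitive and total. -/
def IsLO (x : ℕ × ℕ → Bool) : Prop :=
  (∀ m, x (m, m) = true) ∧
  (∀ m n, x (m, n) = true → x (n, m) = true → m = n) ∧
  (∀ m n k, x (m, n) = true → x (n, k) = true → x (m, k) = true) ∧
  (∀ m n, x (m, n) = true ∨ x (n, m) = true)

/-- The space of codes of linear orders on `ℕ`, with the topology inherited from the product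
`2^(ℕ × ℕ)`. -/
abbrev LO : Type := {x : ℕ × ℕ → Bool // IsLO x}

/-- `m ≤ n` in the order coded by `L`. -/
def LO.le (L : LO) (m n : ℕ) : Prop := L.1 (m, n) = true

/-- `f` is a convex embedding: an order embedding with convex range. -/
def IsConvexEmb (L L' : LO) (f : ℕ → ℕ) : Prop :=
  (∀ m n, L.le m n ↔ L'.le (f m) (f n)) ∧
  (∀ a b t, L'.le (f a) t → L'.le t (f b) → ∃ s, f s = t)

/-- Convex embeddability. -/
def ConvexLE (L L' : LO) : Prop := ∃ f : ℕ → ℕ, IsConvexEmb L L' f

/-- Convex bi-embeddability. -/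
def ConvexBiEmb (L L' : LO) : Prop := ConvexLE L L' ∧ ConvexLE L' L

/-- Isomorphism of the coded linear orders. -/
def IsoLO (L L' : LO) : Prop := ∃ e : ℕ ≃ ℕ, ∀ m n, L.le m n ↔ L'.le (e m) (e n)

/-- Borel reducibility of relations on topological spaces. -/
def BorelReducible {X Y : Type} [TopologicalSpace X] [TopologicalSpace Y]
    (E : X → X → Prop) (F : Y → Y → Prop) : Prop :=
  ∃ h : X → Y, @Measurable X Y (borel X) (borel Y) h ∧ ∀ x x', E x x' ↔ F (h x) (h x')

/-- The relation of lying in the same orbit of an action of `G` on `Y`. -/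
def OrbitRel (G Y : Type) [Group G] [MulAction G Y] (y y' : Y) : Prop := ∃ g : G, g • y = y'

end Pool.Agent.MP_387a72_lc
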