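import Pool.Agent.MP_387a72_lc.Lts

/-!
# Games, their ordinal values and gates
-/

namespace Pool.Agent.MP_387a72_lc

open Set Order

/-- A game: obligations, challenges to an obligation, and responses to a challenge (each response
is a new obligation). -/
structure Game (Ob Ch : Type) where
  chal : Ob → Ch → Prop
  resp : Ch → Ob → Prop
  root : Ob
  single : Ch → Ob
  single_iff : ∀ c c', chal (single c) c' ↔ c' = c

namespace Game

variable {Ob Ch Ob' Ch' : Type} (G : Game Ob Ch) (G' : Game Ob' Ch')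

/-- The challenge can be answered `α` times in a row. -/
def SatC (α : Ordinal.{0}) (c : Ch) : Prop :=
  ∀ β, β < α → ∃ o, G.resp c o ∧ ∀ c', G.chal o c' → SatC β c'
termination_by α

theorem satC_iff (α : Ordinal.{0}) (c : Ch) :
    G.SatC α c ↔ ∀ β < α, ∃ o, G.resp c o ∧ ∀ c', G.chal o c' → G.SatC β c' := by
  rw [SatC]

def SatO (α : Ordinal.{0}) (o : Ob) : Prop := ∀ c, G.chal o c → G.SatC α c

def SatL (α : Ordinal.{0}) (C : List Ob) : Prop := ∀ o ∈ G.root :: C, G.SatO α o

/-- Sets of ordinals of the form `Iic β` or `univ`. -/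
structure Adm (V : Set Ordinal.{0}) : Prop where
  lower : ∀ α ∈ V, ∀ β ≤ α, β ∈ V
  succ : ∀ α, (∀ β < α, succ β ∈ V) → α ∈ V

theorem Adm.cases {V : Set Ordinal.{0}} (h : Adm V) : V = univ ∨ ∃ β, V = Iic β := by
  by_cases hV : V = univ
  · exact Or.inl hV
  · right
    have hne : ∃ α, α ∉ V := by
      by_contra hcon; push Not at hcon; exact hV (eq_univ_of_forall hcon)
    have hwf : WellFounded (α := Ordinal.{0}) (· < ·) := wellFounded_lt
    obtain ⟨α, hα, hmin⟩ := hwf.has_min {α | α ∉ V} hne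
    have h1 : ∃ β < α, Order.succ β ∉ V := by
      by_contra hcon; push Not at hcon
      exact hα (h.succ α hcon)
    obtain ⟨β, hβ, hβV⟩ := h1
    refine ⟨β, ?_⟩
    ext γ
    constructor
    · intro hγ
      by_contra hcon
      rw [mem_Iic, not_le] at hcon
      exact hβV (h.lower γ hγ _ (Order.succ_le_of_lt hcon))
    · intro hγ
      have hβ' : β ∈ V := by
        by_contra hcon
        exact hmin β hcon hβ
      exact h.lower β hβ' γ hγ

theorem Adm.eq_Iic {V : Set Ordinal.{0}} (h : Adm V) {β : Ordinal.{0}} (h1 : β ∈ V)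
    (h2 : Order.succ β ∉ V) : V = Iic β := by
  ext γ
  constructor
  · intro hγ
    by_contra hcon
    rw [mem_Iic, not_le] at hcon
    exact h2 (h.lower γ hγ _ (Order.succ_le_of_lt hcon))
  · intro hγ
    exact h.lower β h1 γ hγ

theorem succ_notMem_Iic (β : Ordinal.{0}) : Order.succ β ∉ Iic β := by
  rw [mem_Iic, not_le]; exact Order.lt_succ β

theorem SatC.anti {α β : Ordinal.{0}} (hβ : β ≤ α) {c : Ch} (h : G.SatC α c) : G.SatC β c := by
  rw [satC_iff] at h ⊢
  exact fun γ hγ => h γ (hγ.trans_le hβ)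

def VC (c : Ch) : Set Ordinal.{0} := {α | G.SatC α c}
def VO (o : Ob) : Set Ordinal.{0} := {α | G.SatO α o}
def VL (C : List Ob) : Set Ordinal.{0} := {α | G.SatL α C}

theorem adm_VC (c : Ch) : Adm (G.VC c) := by
  refine ⟨fun α hα β hβ => SatC.anti G hβ hα, fun α h => ?_⟩
  show G.SatC α c
  rw [satC_iff]
  intro β hβ
  have := h β hβ
  have h' : G.SatC (Order.succ β) c := this
  rw [satC_iff] at h'
  exact h' β (Order.lt_succ β)

theorem adm_VO (o : Ob) : Adm (G.VO o) :=
  ⟨fun α hα β hβ c hc => (G.adm_VC c).lower α (hα c hc) β hβ,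
    fun α h c hc => (G.adm_VC c).succ α (fun β hβ => h β hβ c hc)⟩

theorem adm_VL (C : List Ob) : Adm (G.VL C) :=
  ⟨fun α hα β hβ o ho => (G.adm_VO o).lower α (hα o ho) β hβ,
    fun α h o ho => (G.adm_VO o).succ α (fun β hβ => h β hβ o ho)⟩

theorem exists_resp_univ {c : Ch} (h : ∀ α, G.SatC α c) :
    ∃ o, G.resp c o ∧ ∀ α, G.SatO α o := by
  by_contra hcon
  push Not at hcon
  have h1 : ∀ o, ∃ α, G.resp c o → ¬ G.SatO α o := by
    intro o
    by_cases ho : G.resp c o
    · obtain ⟨α, hα⟩ := hcon o ho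
      exact ⟨α, fun _ => hα⟩
    · exact ⟨0, fun h => absurd h ho⟩
  choose a ha using h1
  have h2 := h (Order.succ (⨆ o, a o))
  rw [satC_iff] at h2
  obtain ⟨o, ho, ho'⟩ := h2 _ (Order.lt_succ _)
  exact ha o ho ((G.adm_VO o).lower _ ho' _ (Ordinal.le_iSup a o))

theorem VL_mem_append {C D : List Ob} {α : Ordinal.{0}} :
    α ∈ G.VL (C ++ D) ↔ α ∈ G.VL C ∧ α ∈ G.VL D := by
  constructor
  · intro h
    refine ⟨fun o ho => h o ?_, fun o ho => h o ?_⟩
    · simp only [List.mem_cons, List.mem_append] at ho ⊢; tauto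
    · simp only [List.mem_cons, List.mem_append] at ho ⊢; tauto
  · rintro ⟨h1, h2⟩ o ho
    simp only [List.mem_cons, List.mem_append] at ho
    rcases ho with rfl | ho | ho
    · exact h1 _ (by simp)
    · exact h1 _ (by simp [ho])
    · exact h2 _ (by simp [ho])

theorem VL_single {o : Ob} {α : Ordinal.{0}} :
    α ∈ G.VL [o] ↔ α ∈ G.VO G.root ∧ α ∈ G.VO o := by
  constructor
  · intro h; exact ⟨h _ (by simp), h _ (by simp)⟩
  · rintro ⟨h1, h2⟩ o' ho
    simp only [List.mem_cons, List.not_mem_nil, or_false] at ho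
    rcases ho with rfl | rfl
    · exact h1
    · exact h2

theorem VL_nil : G.VL [] = G.VO G.root := by
  ext α
  constructor
  · intro h; exact h _ (by simp)
  · intro h o ho
    simp only [List.mem_cons, List.not_mem_nil, or_false] at ho
    subst ho; exact h

theorem VL_subset_root (C : List Ob) : G.VL C ⊆ G.VO G.root := fun _ h => h _ (by simp)

theorem VL_mono {C D : List Ob} (h : C ⊆ D) : G.VL D ⊆ G.VL C := by
  intro α hα o ho
  apply hα
  simp only [List.mem_cons] at ho ⊢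
  rcases ho with rfl | ho
  · exact Or.inl rfl
  · exact Or.inr (h ho)

theorem VL_subset_mem {C : List Ob} {o : Ob} (h : o ∈ C) : G.VL C ⊆ G.VO o :=
  fun _ hα => hα o (by simp [h])

/-! ### Realising values -/

theorem exists_chal_of_VO {o : Ob} {β : Ordinal.{0}} (h : G.VO o = Iic β) :
    ∃ c, G.chal o c ∧ G.VC c = Iic β := by
  have h1 : ¬ G.SatO (Order.succ β) o := by
    intro hcon
    have : Order.succ β ∈ G.VO o := hcon
    rw [h] at this
    exact succ_notMem_Iic β this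
  unfold SatO at h1
  push Not at h1
  obtain ⟨c, hc, hc'⟩ := h1
  have h2 : β ∈ G.VO o := by rw [h]; exact mem_Iic.2 le_rfl
  exact ⟨c, hc, (G.adm_VC c).eq_Iic (h2 c hc) hc'⟩

theorem exists_chal_of_VL {C : List Ob} {β : Ordinal.{0}} (h : G.VL C = Iic β) :
    ∃ o ∈ G.root :: C, ∃ c, G.chal o c ∧ G.VC c = Iic β := by
  have h1 : ¬ G.SatL (Order.succ β) C := by
    intro hcon
    have : Order.succ β ∈ G.VL C := hcon
    rw [h] at this
    exact succ_notMem_Iic β this
  unfold SatL at h1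
  push Not at h1
  obtain ⟨o, ho, ho'⟩ := h1
  have h2 : β ∈ G.VL C := by rw [h]; exact mem_Iic.2 le_rfl
  obtain ⟨c, hc, hc'⟩ := G.exists_chal_of_VO ((G.adm_VO o).eq_Iic (h2 o ho) ho')
  exact ⟨o, ho, c, hc, hc'⟩

theorem VC_eq_resp {c : Ch} {ρ : Ordinal.{0}} (h : G.VC c = Iic ρ) :
    ∀ o, G.resp c o → ρ ∉ G.VO o := by
  intro o ho hρ
  apply succ_notMem_Iic ρ
  rw [← h]
  show G.SatC _ c
  rw [satC_iff]
  intro γ hγ
  exact ⟨o, ho, fun c' hc' => (G.adm_VC c').lower ρ (hρ c' hc') γ (Order.lt_succ_iff.1 hγ)⟩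

theorem descend (ρ : Ordinal.{0}) : ∀ c, G.VC c = Iic ρ → ∀ β ≤ ρ, ∃ c', G.VC c' = Iic β := by
  induction ρ using WellFoundedLT.induction with
  | ind ρ ih =>
  intro c hc β hβ
  rcases hβ.eq_or_lt with rfl | hlt
  · exact ⟨c, hc⟩
  · have h1 : G.SatC ρ c := by
      have : ρ ∈ G.VC c := by rw [hc]; exact mem_Iic.2 le_rfl
      exact this
    rw [satC_iff] at h1
    obtain ⟨o, ho, ho'⟩ := h1 β hlt
    have h2 : β ∈ G.VO o := ho'
    have h3 := G.VC_eq_resp hc o ho
    rcases (G.adm_VO o).cases with h | ⟨γ, h⟩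
    · rw [h] at h3; exact absurd (mem_univ _) h3
    · rw [h, mem_Iic] at h2 h3
      obtain ⟨c', -, hc'⟩ := G.exists_chal_of_VO h
      exact ih γ (not_le.1 h3) c' hc' β h2

def vals : Set (Set Ordinal.{0}) := Set.range G.VL

theorem VL_mem_vals (C : List Ob) : G.VL C ∈ G.vals := ⟨C, rfl⟩

theorem VO_single (c : Ch) : G.VO (G.single c) = G.VC c := by
  ext α
  constructor
  · intro h; exact h c ((G.single_iff c c).2 rfl)
  · intro h c' hc'
    rw [(G.single_iff c c').1 hc']; exact h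

theorem vals_subset {G : Game Ob Ch} {G' : Game Ob' Ch'} (hroot : G.VO G.root = G'.VO G'.root)
    (htrue : G.VO G.root = univ → ∀ c, G.VC c ≠ univ → ∃ c', G'.VC c' = G.VC c) :
    G.vals ⊆ G'.vals := by
  rintro _ ⟨C, rfl⟩
  rcases (G.adm_VL C).cases with h | ⟨β, h⟩
  · have h1 : G.VO G.root = univ := eq_univ_of_univ_subset (h ▸ G.VL_subset_root C)
    exact ⟨[], by rw [G'.VL_nil, ← hroot, h1, h]⟩
  · obtain ⟨o, -, c, -, hc⟩ := G.exists_chal_of_VL h
    have hc' : ∃ c', G'.VC c' = Iic β := by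
      rcases (G.adm_VO G.root).cases with h1 | ⟨ρ, h1⟩
      · obtain ⟨c', hc'⟩ := htrue h1 c (by
          rw [hc]; intro hcon
          exact succ_notMem_Iic β (hcon ▸ mem_univ _))
        exact ⟨c', hc'.trans hc⟩
      · have h2 : β ≤ ρ := by
          have : β ∈ G.VO G.root := G.VL_subset_root C (by rw [h]; exact mem_Iic.2 le_rfl)
          rw [h1] at this; exact this
        obtain ⟨c0, -, hc0⟩ := G'.exists_chal_of_VO (o := G'.root) (hroot ▸ h1)
        exact G'.descend ρ c0 hc0 β h2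
    obtain ⟨c', hc'⟩ := hc'
    refine ⟨[G'.single c'], ?_⟩
    rw [h]
    ext α
    rw [G'.VL_single, G'.VO_single, hc', ← hroot]
    constructor
    · exact fun h => h.2
    · intro hα
      refine ⟨?_, hα⟩
      apply G.VL_subset_root C
      rw [h]; exact hα

/-! ### Gates -/

end Game

inductive GS (Ob Ch : Type) : Type
  | top : GS Ob Ch
  | etop : GS Ob Ch
  | A (C : List Ob) : GS Ob Ch
  | E (C : List Ob) (c : Option Ch) : GS Ob Ch

namespace Game

variable {Ob Ch Ob' Ch' : Type} (G : Game Ob Ch) (G' : Game Ob' Ch')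

def gstep : GS Ob Ch → GS Ob Ch → Prop
  | .top, .etop => True
  | .etop, .top => True
  | .etop, .A _ => True
  | .A C, .E C' c => C' = C ∧ ∀ d, c = some d → ∃ o ∈ G.root :: C, G.chal o d
  | .E C c, .A C' => C ⊆ C' ∧ ∀ d, c = some d → ∃ o ∈ C', G.resp d o
  | _, _ => False

def glab : GS Ob Ch → ℕ
  | .top => 0
  | .A _ => 0
  | .etop => 1
  | .E _ _ => 1

def gate : LTS (GS Ob Ch) := ⟨G.gstep, glab⟩

/-- values of the states `top`, `A C` -/
def VA : GS Ob Ch → Set Ordinal.{0}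
  | .top => univ
  | .A C => G.VL C
  | .etop => univ
  | .E _ _ => univ

def WE (e : GS Ob Ch) : Set (Set Ordinal.{0}) := {v | ∃ b, G.gstep e b ∧ G.VA b = v}

def Dle (V : Set Ordinal.{0}) : Set (Set Ordinal.{0}) := {v | (v = V ∨ v ∈ G.vals) ∧ v ⊆ V}
def Dlt (V : Set Ordinal.{0}) : Set (Set Ordinal.{0}) := {v | (v = V ∨ v ∈ G.vals) ∧ v ⊂ V}

theorem WE_etop : G.WE .etop = G.Dle univ := by
  ext v
  constructor
  · rintro ⟨b, hb, rfl⟩
    cases b with
    | top => exact ⟨Or.inl rfl, subset_univ _⟩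
    | etop => exact hb.elim
    | A C => exact ⟨Or.inr (G.VL_mem_vals C), subset_univ _⟩
    | E C c => exact hb.elim
  · rintro ⟨rfl | ⟨C, rfl⟩, -⟩
    · exact ⟨.top, trivial, rfl⟩
    · exact ⟨.A C, trivial, rfl⟩

theorem WE_subset (C : List Ob) (c : Option Ch) : G.WE (.E C c) ⊆ G.Dle (G.VL C) := by
  rintro v ⟨b, hb, rfl⟩
  cases b with
  | top => exact hb.elim
  | etop => exact hb.elim
  | A C' => exact ⟨Or.inr (G.VL_mem_vals C'), G.VL_mono hb.1⟩
  | E C c => exact hb.elim

theorem WE_none (C : List Ob) : G.WE (.E C none) = G.Dle (G.VL C) := by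
  apply Subset.antisymm (G.WE_subset C none)
  rintro v ⟨hv, hvs⟩
  rcases hv with rfl | ⟨D, rfl⟩
  · exact ⟨.A C, ⟨List.Subset.refl _, fun _ h => by cases h⟩, rfl⟩
  · refine ⟨.A (C ++ D), ⟨List.subset_append_left _ _, fun _ h => by cases h⟩, ?_⟩
    ext α
    show α ∈ G.VL (C ++ D) ↔ _
    rw [G.VL_mem_append]
    exact ⟨fun h => h.2, fun h => ⟨hvs h, h⟩⟩

theorem WE_some {C : List Ob} {c : Ch} (hc : ∃ o ∈ G.root :: C, G.chal o c) :
    G.WE (.E C (some c)) = G.Dle (G.VL C) ∨
      (G.VL C ≠ univ ∧ G.WE (.E C (some c)) = G.Dlt (G.VL C)) := by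
  obtain ⟨o0, ho0, hoc⟩ := hc
  have key : G.Dlt (G.VL C) ⊆ G.WE (.E C (some c)) := by
    rintro v ⟨hv, hvs⟩
    rcases hv with rfl | ⟨D, rfl⟩
    · exact absurd rfl hvs.ne
    · rcases (G.adm_VL D).cases with h | ⟨β, h⟩
      · exfalso
        rw [h] at hvs
        exact hvs.2 (subset_univ _)
      · have h1 : Order.succ β ∈ G.VL C := by
          by_contra hcon
          apply hvs.2
          intro γ hγ
          rw [h, mem_Iic]
          by_contra hcon'
          rw [not_le] at hcon'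
          exact hcon ((G.adm_VL C).lower γ hγ _ (Order.succ_le_of_lt hcon'))
        have h2 : G.SatC (Order.succ β) c := h1 o0 ho0 c hoc
        rw [satC_iff] at h2
        obtain ⟨o, ho, ho'⟩ := h2 β (Order.lt_succ β)
        refine ⟨.A (C ++ (D ++ [o])), ⟨List.subset_append_left _ _, ?_⟩, ?_⟩
        · rintro d hd
          cases hd
          exact ⟨o, by simp, ho⟩
        · ext α
          show α ∈ G.VL (C ++ (D ++ [o])) ↔ _
          rw [G.VL_mem_append, G.VL_mem_append, G.VL_single]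
          constructor
          · exact fun h => h.2.1
          · intro hα
            refine ⟨hvs.1 hα, hα, G.VL_subset_root D hα, ?_⟩
            rw [h, mem_Iic] at hα
            exact (G.adm_VO o).lower β ho' α hα
  by_cases hV : G.VL C ∈ G.WE (.E C (some c))
  · left
    apply Subset.antisymm (G.WE_subset C _)
    rintro v ⟨hv, hvs⟩
    rcases hvs.eq_or_ssubset with rfl | hlt
    · exact hV
    · exact key ⟨hv, hlt⟩
  · right
    refine ⟨?_, ?_⟩
    · intro huniv
      apply hV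
      have h1 : ∀ α, G.SatC α c := by
        intro α
        have : α ∈ G.VL C := by rw [huniv]; trivial
        exact this o0 ho0 c hoc
      obtain ⟨o, ho, ho'⟩ := G.exists_resp_univ h1
      refine ⟨.A (C ++ [o]), ⟨List.subset_append_left _ _, ?_⟩, ?_⟩
      · rintro d hd
        cases hd
        exact ⟨o, by simp, ho⟩
      · ext α
        show α ∈ G.VL (C ++ [o]) ↔ _
        rw [G.VL_mem_append, G.VL_single]
        constructor
        · exact fun h => h.1
        · intro hα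
          exact ⟨hα, G.VL_subset_root C hα, ho' α⟩
    · apply Subset.antisymm _ key
      intro v hv
      have h1 := G.WE_subset C _ hv
      refine ⟨h1.1, h1.2.ssubset_of_ne ?_⟩
      rintro rfl
      exact hV hv

theorem exists_WE_lt {C : List Ob} (h : G.VL C ≠ univ) :
    ∃ c, (∃ o ∈ G.root :: C, G.chal o c) ∧ G.WE (.E C (some c)) = G.Dlt (G.VL C) := by
  rcases (G.adm_VL C).cases with h1 | ⟨β, h1⟩
  · exact absurd h1 h
  obtain ⟨o, ho, c, hoc, hc⟩ := G.exists_chal_of_VL h1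
  refine ⟨c, ⟨o, ho, hoc⟩, ?_⟩
  rcases G.WE_some ⟨o, ho, hoc⟩ with h2 | h2
  · exfalso
    have h3 : G.VL C ∈ G.WE (.E C (some c)) := by
      rw [h2]; exact ⟨Or.inl rfl, Subset.rfl⟩
    obtain ⟨b, hb, hbV⟩ := h3
    cases b with
    | top => exact hb.elim
    | etop => exact hb.elim
    | A C' =>
      obtain ⟨o', ho', hr⟩ := hb.2 c rfl
      have h4 := G.VC_eq_resp hc o' hr
      apply h4
      apply G.VL_subset_mem ho'
      have h5 : G.VL C' = G.VL C := hbV
      rw [h5, h1]; exact mem_Iic.2 le_rfl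
    | E C c => exact hb.elim
  · exact h2.2

/-- states `top`, `A C` -/
def isA : GS Ob Ch → Prop
  | .top => True
  | .A _ => True
  | _ => False

theorem A_trans {s : GS Ob Ch} (hs : isA s) :
    (∀ e, G.gstep s e → ¬ isA e ∧ (G.WE e = G.Dle (G.VA s) ∨
      (G.VA s ≠ univ ∧ G.WE e = G.Dlt (G.VA s)))) ∧
    (∃ e, G.gstep s e ∧ ¬ isA e ∧ G.WE e = G.Dle (G.VA s)) ∧
    (G.VA s ≠ univ → ∃ e, G.gstep s e ∧ ¬ isA e ∧ G.WE e = G.Dlt (G.VA s)) := by
  cases s with
  | top =>
    refine ⟨?_, ⟨.etop, trivial, fun h => h, G.WE_etop⟩, fun h => absurd rfl h⟩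
    intro e he
    cases e with
    | top => exact he.elim
    | etop => exact ⟨fun h => h, Or.inl G.WE_etop⟩
    | A C => exact he.elim
    | E C c => exact he.elim
  | etop => exact hs.elim
  | A C =>
    refine ⟨?_, ⟨.E C none, ⟨rfl, fun d h => by cases h⟩, fun h => h, G.WE_none C⟩, ?_⟩
    · intro e he
      cases e with
      | top => exact he.elim
      | etop => exact he.elim
      | A C => exact he.elim
      | E C' c =>
        obtain ⟨rfl, h2⟩ := he
        refine ⟨fun h => h, ?_⟩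
        cases c with
        | none => exact Or.inl (G.WE_none _)
        | some c => exact G.WE_some (h2 c rfl)
    · intro h
      obtain ⟨c, hc, hW⟩ := G.exists_WE_lt h
      exact ⟨.E C (some c), ⟨rfl, fun d hd => by cases hd; exact hc⟩, fun h => h, hW⟩
  | E C c => exact hs.elim

theorem lab_isA {s : GS Ob Ch} (hs : isA s) : glab s = 0 := by
  cases s <;> first | rfl | exact hs.elim

theorem lab_not_isA {s : GS Ob Ch} (hs : ¬ isA s) : glab s = 1 := by
  cases s with
  | top => exact absurd trivial hs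
  | etop => rfl
  | A C => exact absurd trivial hs
  | E C c => rfl

theorem isA_of_step {e b : GS Ob Ch} (he : ¬ isA e) (h : G.gstep e b) : isA b := by
  cases e <;> cases b <;> first | trivial | exact h.elim | exact absurd trivial he

theorem Dle_congr {G : Game Ob Ch} {G' : Game Ob' Ch'} (h : G.vals = G'.vals)
    (V : Set Ordinal.{0}) : G.Dle V = G'.Dle V := by
  unfold Dle; rw [h]

theorem Dlt_congr {G : Game Ob Ch} {G' : Game Ob' Ch'} (h : G.vals = G'.vals)
    (V : Set Ordinal.{0}) : G.Dlt V = G'.Dlt V := by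
  unfold Dlt; rw [h]

/-- **Gate lemma.** -/
theorem gate_bisim {G : Game Ob Ch} {G' : Game Ob' Ch'} (hv : G.vals = G'.vals)
    {s : GS Ob Ch} {s' : GS Ob' Ch'} (hs : isA s) (hs' : isA s') (h : G.VA s = G'.VA s') :
    Bisim G.gate G'.gate s s' := by
  refine ⟨fun s s' => (isA s ∧ isA s' ∧ G.VA s = G'.VA s') ∨
    (¬ isA s ∧ ¬ isA s' ∧ G.WE s = G'.WE s'), ?_, Or.inl ⟨hs, hs', h⟩⟩
  clear hs hs' h
  rintro s s' (⟨hs, hs', h⟩ | ⟨hs, hs', h⟩)
  · refine ⟨(lab_isA hs).trans (lab_isA hs').symm, ?_, ?_⟩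
    · intro e he
      obtain ⟨h1, h2⟩ := (G.A_trans hs).1 e he
      obtain ⟨-, ⟨e1, he1, hA1, hW1⟩, h4⟩ := G'.A_trans hs'
      rcases h2 with h2 | ⟨h2, h3⟩
      · exact ⟨e1, he1, Or.inr ⟨h1, hA1, by rw [h2, hW1, h, Dle_congr hv]⟩⟩
      · obtain ⟨e2, he2, hA2, hW2⟩ := h4 (h ▸ h2)
        exact ⟨e2, he2, Or.inr ⟨h1, hA2, by rw [h3, hW2, h, Dlt_congr hv]⟩⟩
    · intro e he
      obtain ⟨h1, h2⟩ := (G'.A_trans hs').1 e he
      obtain ⟨-, ⟨e1, he1, hA1, hW1⟩, h4⟩ := G.A_trans hs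
      rcases h2 with h2 | ⟨h2, h3⟩
      · exact ⟨e1, he1, Or.inr ⟨hA1, h1, by rw [h2, hW1, h, Dle_congr hv]⟩⟩
      · obtain ⟨e2, he2, hA2, hW2⟩ := h4 (h ▸ h2)
        exact ⟨e2, he2, Or.inr ⟨hA2, h1, by rw [h3, hW2, h, Dlt_congr hv]⟩⟩
  · refine ⟨(lab_not_isA hs).trans (lab_not_isA hs').symm, ?_, ?_⟩
    · intro b hb
      have h1 : G.VA b ∈ G.WE s := ⟨b, hb, rfl⟩
      rw [h] at h1
      obtain ⟨b', hb', hV⟩ := h1
      exact ⟨b', hb', Or.inl ⟨G.isA_of_step hs hb, G'.isA_of_step hs' hb', hV.symm⟩⟩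
    · intro b hb
      have h1 : G'.VA b ∈ G'.WE s' := ⟨b, hb, rfl⟩
      rw [← h] at h1
      obtain ⟨b', hb', hV⟩ := h1
      exact ⟨b', hb', Or.inl ⟨G.isA_of_step hs hb', G'.isA_of_step hs' hb, hV⟩⟩

/-- The root obligation can be met. -/
def Win : Prop := G.VO G.root = univ

theorem gate_open (h : G.Win) : Bisim G.gate G.gate .top (.A []) :=
  gate_bisim rfl trivial trivial (by show univ = G.VL []; rw [G.VL_nil, h])

theorem not_gate_open (h : ¬ G.Win) (C : List Ob) : ¬ Bisim G.gate G.gate .top (.A C) := by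
  have key : ∀ β : Ordinal.{0}, ∀ C, G.VL C = Iic β → ¬ Bisim G.gate G.gate .top (.A C) := by
    intro β
    induction β using WellFoundedLT.induction with
    | ind β ih =>
    intro C hC hB
    have hne : G.VL C ≠ univ := by
      rw [hC]; intro hcon
      exact succ_notMem_Iic β (hcon ▸ mem_univ _)
    obtain ⟨c, hc, hW⟩ := G.exists_WE_lt hne
    obtain ⟨e, he, hB'⟩ := hB.bwd (t' := .E C (some c)) ⟨rfl, fun d hd => by cases hd; exact hc⟩
    have : e = .etop := by
      cases e with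
      | top => exact he.elim
      | etop => rfl
      | A C => exact he.elim
      | E C c => exact he.elim
    subst this
    obtain ⟨b, hb, hB''⟩ := hB'.fwd (t := .top) trivial
    have h1 : G.VA b ∈ G.Dlt (G.VL C) := by rw [← hW]; exact ⟨b, hb, rfl⟩
    cases b with
    | top => exact hb.elim
    | etop => exact hb.elim
    | E C c => exact hb.elim
    | A C' =>
      have h2 : G.VL C' ⊂ Iic β := by rw [← hC]; exact h1.2
      rcases (G.adm_VL C').cases with h3 | ⟨γ, h3⟩
      · rw [h3] at h2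
        exact h2.2 (subset_univ _)
      · rw [h3] at h2
        have h4 : γ < β := by
          have h5 : γ ≤ β := mem_Iic.1 (h2.1 (mem_Iic.2 le_rfl))
          rcases h5.eq_or_lt with rfl | h5
          · exact absurd rfl h2.ne
          · exact h5
        exact ih γ h4 C' h3 hB''
  rcases (G.adm_VL C).cases with h1 | ⟨β, h1⟩
  · exact absurd (eq_univ_of_univ_subset (h1 ▸ G.VL_subset_root C)) h
  · exact key β C h1

end Game

end Pool.Agent.MP_387a72_lc
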