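import Mathlib

/-!
# Labelled transition systems and bisimilarity
-/

namespace Pool.Agent.MP_387a72_lc

/-- A labelled transition system. -/
structure LTS (S : Type) where
  step : S → S → Prop
  lab : S → ℕ

variable {S S' S'' U U' : Type}

def IsBisim (T : LTS S) (T' : LTS S') (R : S → S' → Prop) : Prop :=
  ∀ s s', R s s' → T.lab s = T'.lab s' ∧
    (∀ t, T.step s t → ∃ t', T'.step s' t' ∧ R t t') ∧
    (∀ t', T'.step s' t' → ∃ t, T.step s t ∧ R t t')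

def Bisim (T : LTS S) (T' : LTS S') (s : S) (s' : S') : Prop := ∃ R, IsBisim T T' R ∧ R s s'

theorem isBisim_bisim (T : LTS S) (T' : LTS S') : IsBisim T T' (Bisim T T') := by
  rintro s s' ⟨R, hR, hs⟩
  obtain ⟨h1, h2, h3⟩ := hR s s' hs
  refine ⟨h1, fun t ht => ?_, fun t' ht' => ?_⟩
  · obtain ⟨t', h, h'⟩ := h2 t ht
    exact ⟨t', h, R, hR, h'⟩
  · obtain ⟨t, h, h'⟩ := h3 t' ht'
    exact ⟨t, h, R, hR, h'⟩

theorem Bisim.lab {T : LTS S} {T' : LTS S'} {s : S} {s' : S'} (h : Bisim T T' s s') :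
    T.lab s = T'.lab s' := (isBisim_bisim T T' s s' h).1

theorem Bisim.fwd {T : LTS S} {T' : LTS S'} {s : S} {s' : S'} (h : Bisim T T' s s')
    {t : S} (ht : T.step s t) : ∃ t', T'.step s' t' ∧ Bisim T T' t t' :=
  (isBisim_bisim T T' s s' h).2.1 t ht

theorem Bisim.bwd {T : LTS S} {T' : LTS S'} {s : S} {s' : S'} (h : Bisim T T' s s')
    {t' : S'} (ht : T'.step s' t') : ∃ t, T.step s t ∧ Bisim T T' t t' :=
  (isBisim_bisim T T' s s' h).2.2 t' ht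

theorem Bisim.refl (T : LTS S) (s : S) : Bisim T T s s :=
  ⟨fun a b => a = b, by rintro a _ rfl; exact ⟨rfl, fun t h => ⟨t, h, rfl⟩, fun t h => ⟨t, h, rfl⟩⟩,
    rfl⟩

theorem Bisim.symm {T : LTS S} {T' : LTS S'} {s : S} {s' : S'} (h : Bisim T T' s s') :
    Bisim T' T s' s := by
  obtain ⟨R, hR, hs⟩ := h
  refine ⟨fun a b => R b a, ?_, hs⟩
  intro a b hab
  obtain ⟨h1, h2, h3⟩ := hR b a hab
  exact ⟨h1.symm, h3, h2⟩

theorem Bisim.trans {T : LTS S} {T' : LTS S'} {T'' : LTS S''} {s : S} {s' : S'} {s'' : S''}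
    (h : Bisim T T' s s') (h' : Bisim T' T'' s' s'') : Bisim T T'' s s'' := by
  refine ⟨fun a c => ∃ b, Bisim T T' a b ∧ Bisim T' T'' b c, ?_, s', h, h'⟩
  rintro a c ⟨b, hab, hbc⟩
  refine ⟨hab.lab.trans hbc.lab, fun t ht => ?_, fun t ht => ?_⟩
  · obtain ⟨t', h1, h2⟩ := hab.fwd ht
    obtain ⟨t'', h3, h4⟩ := hbc.fwd h1
    exact ⟨t'', h3, t', h2, h4⟩
  · obtain ⟨t', h1, h2⟩ := hbc.bwd ht
    obtain ⟨t'', h3, h4⟩ := hab.bwd h1
    exact ⟨t'', h3, t', h4, h2⟩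

/-- An embedding of transition systems onto a part closed under steps. -/
structure IsEmb (T : LTS S) (U' : LTS U) (f : S → U) : Prop where
  lab : ∀ s, U'.lab (f s) = T.lab s
  step : ∀ s t', U'.step (f s) t' ↔ ∃ t, t' = f t ∧ T.step s t

theorem bisim_emb {T : LTS S} {T' : LTS S'} {V : LTS U} {V' : LTS U'} {f : S → U} {g : S' → U'}
    (hf : IsEmb T V f) (hg : IsEmb T' V' g) (s : S) (s' : S') :
    Bisim V V' (f s) (g s') ↔ Bisim T T' s s' := by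
  constructor
  · intro h
    refine ⟨fun s s' => Bisim V V' (f s) (g s'), ?_, h⟩
    intro a b hab
    refine ⟨by rw [← hf.lab, ← hg.lab]; exact hab.lab, fun t ht => ?_, fun t ht => ?_⟩
    · obtain ⟨u', h1, h2⟩ := hab.fwd ((hf.step a (f t)).2 ⟨t, rfl, ht⟩)
      obtain ⟨t', rfl, h3⟩ := (hg.step b u').1 h1
      exact ⟨t', h3, h2⟩
    · obtain ⟨u', h1, h2⟩ := hab.bwd ((hg.step b (g t)).2 ⟨t, rfl, ht⟩)
      obtain ⟨t', rfl, h3⟩ := (hf.step a u').1 h1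
      exact ⟨t', h3, h2⟩
  · rintro ⟨R, hR, hs⟩
    refine ⟨fun u u' => ∃ t t', u = f t ∧ u' = g t' ∧ R t t', ?_, s, s', rfl, rfl, hs⟩
    rintro _ _ ⟨a, b, rfl, rfl, hab⟩
    obtain ⟨h1, h2, h3⟩ := hR a b hab
    refine ⟨by rw [hf.lab, hg.lab]; exact h1, fun u hu => ?_, fun u hu => ?_⟩
    · obtain ⟨t, rfl, ht⟩ := (hf.step a u).1 hu
      obtain ⟨t', h4, h5⟩ := h2 t ht
      exact ⟨g t', (hg.step b _).2 ⟨t', rfl, h4⟩, t, t', rfl, rfl, h5⟩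
    · obtain ⟨t', rfl, ht⟩ := (hg.step b u).1 hu
      obtain ⟨t, h4, h5⟩ := h3 t' ht
      exact ⟨f t, (hf.step a _).2 ⟨t, rfl, h4⟩, t, t', rfl, rfl, h5⟩

end Pool.Agent.MP_387a72_lc
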