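import Pool.Agent.MP_387a72_lc.Defs

/-!
# Isomorphism of coded linear orders is an orbit equivalence relation
-/

namespace Pool.Agent.MP_387a72_lc

open Set Topology

/-- The group `S_∞` of permutations of `ℕ`. -/
def SInf : Type := Equiv.Perm ℕ

instance : Group SInf := inferInstanceAs (Group (Equiv.Perm ℕ))

/-- `g ↦ (g, g⁻¹)`. -/
def SInf.emb (g : SInf) : (ℕ → ℕ) × (ℕ → ℕ) :=
  ((Equiv.toFun (α := ℕ) (β := ℕ) g), (Equiv.invFun (α := ℕ) (β := ℕ) g))

instance : TopologicalSpace SInf := TopologicalSpace.induced SInf.emb inferInstance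

theorem SInf.continuous_emb : Continuous SInf.emb := continuous_induced_dom

theorem SInf.emb_injective : Function.Injective SInf.emb := by
  intro g h hgh
  apply Equiv.ext (α := ℕ) (β := ℕ)
  intro n
  exact congrFun (congrArg Prod.fst hgh) n

theorem continuous_eval {X : Type} [TopologicalSpace X] {ι Y : Type} [TopologicalSpace Y]
    [TopologicalSpace ι] [DiscreteTopology ι]
    {f : X → ι → Y} {k : X → ι} (hf : Continuous f) (hk : Continuous k) :
    Continuous (fun x => f x (k x)) := by
  have h1 : Continuous (fun p : (ι → Y) × ι => p.1 p.2) := by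
    rw [continuous_prod_of_discrete_right]
    intro b
    exact continuous_apply b
  exact h1.comp (hf.prodMk hk)

theorem SInf.isClosed_range : IsClosed (range SInf.emb) := by
  have h : range SInf.emb = ⋂ n : ℕ, ({p : (ℕ → ℕ) × (ℕ → ℕ) | p.1 (p.2 n) = n} ∩
      {p | p.2 (p.1 n) = n}) := by
    ext p
    simp only [mem_iInter, mem_inter_iff, mem_range]
    constructor
    · rintro ⟨g, rfl⟩ n
      exact ⟨Equiv.apply_symm_apply (α := ℕ) (β := ℕ) g n,
        Equiv.symm_apply_apply (α := ℕ) (β := ℕ) g n⟩
    · intro h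
      exact ⟨(⟨p.1, p.2, fun n => (h n).2, fun n => (h n).1⟩ : Equiv.Perm ℕ), rfl⟩
  rw [h]
  refine isClosed_iInter fun n => IsClosed.inter ?_ ?_
  · exact isClosed_eq (continuous_eval continuous_fst ((continuous_apply n).comp continuous_snd))
      continuous_const
  · exact isClosed_eq (continuous_eval continuous_snd ((continuous_apply n).comp continuous_fst))
      continuous_const

instance : PolishSpace SInf :=
  (Topology.IsClosedEmbedding.mk ⟨⟨rfl⟩, SInf.emb_injective⟩ SInf.isClosed_range).polishSpace

instance : IsTopologicalGroup SInf where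
  continuous_mul := by
    rw [continuous_induced_rng]
    have h1 : Continuous (fun p : SInf × SInf => SInf.emb p.1) :=
      SInf.continuous_emb.comp continuous_fst
    have h2 : Continuous (fun p : SInf × SInf => SInf.emb p.2) :=
      SInf.continuous_emb.comp continuous_snd
    change Continuous (fun p : SInf × SInf =>
      ((fun n => (SInf.emb p.1).1 ((SInf.emb p.2).1 n)),
        (fun n => (SInf.emb p.2).2 ((SInf.emb p.1).2 n))))
    refine Continuous.prodMk ?_ ?_
    · refine continuous_pi fun n => ?_
      exact continuous_eval (continuous_fst.comp h1)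
        ((continuous_apply n).comp (continuous_fst.comp h2))
    · refine continuous_pi fun n => ?_
      exact continuous_eval (continuous_snd.comp h2)
        ((continuous_apply n).comp (continuous_snd.comp h1))
  continuous_inv := by
    rw [continuous_induced_rng]
    exact continuous_swap.comp SInf.continuous_emb

theorem isClosed_LO : IsClosed {x : ℕ × ℕ → Bool | IsLO x} := by
  have hc : ∀ m n, IsClopen {x : ℕ × ℕ → Bool | x (m, n) = true} := fun m n =>
    (isClopen_discrete {true}).preimage (continuous_apply (m, n))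
  have e : {x : ℕ × ℕ → Bool | IsLO x} =
      (⋂ m, {x | x (m, m) = true}) ∩
      ((⋂ m, ⋂ n, {x | x (m, n) = true → x (n, m) = true → m = n}) ∩
      ((⋂ m, ⋂ n, ⋂ k, {x | x (m, n) = true → x (n, k) = true → x (m, k) = true}) ∩
      (⋂ m, ⋂ n, {x | x (m, n) = true ∨ x (n, m) = true}))) := by
    ext x
    simp only [IsLO, mem_inter_iff, mem_iInter, Set.mem_ofPred_eq]
  rw [e]
  refine IsClosed.inter (isClosed_iInter fun m => (hc m m).1) (IsClosed.inter ?_
    (IsClosed.inter ?_ ?_))
  · refine isClosed_iInter fun m => isClosed_iInter fun n => ?_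
    have : {x : ℕ × ℕ → Bool | x (m, n) = true → x (n, m) = true → m = n} =
        {x | x (m, n) = true}ᶜ ∪ ({x | x (n, m) = true}ᶜ ∪ {_x | m = n}) := by
      ext x
      simp only [Set.mem_ofPred_eq, mem_union, mem_compl_iff]
      tauto
    rw [this]
    exact (hc m n).compl.1.union ((hc n m).compl.1.union isClosed_const)
  · refine isClosed_iInter fun m => isClosed_iInter fun n => isClosed_iInter fun k => ?_
    have : {x : ℕ × ℕ → Bool | x (m, n) = true → x (n, k) = true → x (m, k) = true} =
        {x | x (m, n) = true}ᶜ ∪ ({x | x (n, k) = true}ᶜ ∪ {x | x (m, k) = true}) := by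
      ext x
      simp only [Set.mem_ofPred_eq, mem_union, mem_compl_iff]
      tauto
    rw [this]
    exact (hc m n).compl.1.union ((hc n k).compl.1.union (hc m k).1)
  · refine isClosed_iInter fun m => isClosed_iInter fun n => ?_
    exact (hc m n).1.union (hc n m).1

instance : PolishSpace (ℕ × ℕ → Bool) := by
  have h1 : TopologicalSpace.SeparableSpace (ℕ × ℕ → Bool) := inferInstance
  have h2 : TopologicalSpace.IsCompletelyMetrizableSpace (ℕ × ℕ → Bool) := inferInstance
  exact instPolishSpaceOfSeparableSpaceOfIsCompletelyMetrizableSpace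

instance : PolishSpace LO := isClosed_LO.polishSpace

theorem isLO_comp {x : ℕ × ℕ → Bool} (hx : IsLO x) {f : ℕ → ℕ} (hf : Function.Injective f) :
    IsLO (fun p => x (f p.1, f p.2)) :=
  ⟨fun _ => hx.1 _, fun _ _ h h' => hf (hx.2.1 _ _ h h'),
    fun _ _ _ h h' => hx.2.2.1 _ _ _ h h', fun _ _ => hx.2.2.2 _ _⟩

/-- The logic action of `S_∞` on `LO`. -/
instance : MulAction SInf LO where
  smul g x := ⟨fun p => x.1 ((SInf.emb g).2 p.1, (SInf.emb g).2 p.2),
    isLO_comp x.2 (Equiv.injective (Equiv.symm (α := ℕ) (β := ℕ) g))⟩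
  one_smul _ := rfl
  mul_smul _ _ _ := rfl

theorem smul_val (g : SInf) (x : LO) :
    (g • x).1 = fun p => x.1 ((SInf.emb g).2 p.1, (SInf.emb g).2 p.2) := rfl

instance : ContinuousSMul SInf LO where
  continuous_smul := by
    refine Continuous.subtype_mk ?_ _
    refine continuous_pi fun p => ?_
    have h1 : Continuous (fun q : SInf × LO => (SInf.emb q.1).2) :=
      continuous_snd.comp (SInf.continuous_emb.comp continuous_fst)
    exact continuous_eval (continuous_subtype_val.comp continuous_snd)
      (((continuous_apply p.1).comp h1).prodMk ((continuous_apply p.2).comp h1))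

theorem isoLO_iff_orbit (L L' : LO) : IsoLO L L' ↔ OrbitRel SInf LO L L' := by
  constructor
  · rintro ⟨e, he⟩
    refine ⟨(show SInf from e), Subtype.ext ?_⟩
    funext ⟨m, n⟩
    show L.1 (e.symm m, e.symm n) = L'.1 (m, n)
    have h := he (e.symm m) (e.symm n)
    rw [Equiv.apply_symm_apply, Equiv.apply_symm_apply] at h
    unfold LO.le at h
    rw [Bool.eq_iff_iff]
    exact h
  · rintro ⟨g, hg⟩
    refine ⟨g, fun m n => ?_⟩
    unfold LO.le
    rw [← hg, smul_val]
    show _ ↔ L.1 ((Equiv.symm (α := ℕ) (β := ℕ) g) (Equiv.toFun (α := ℕ) (β := ℕ) g m),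
      (Equiv.symm (α := ℕ) (β := ℕ) g) (Equiv.toFun (α := ℕ) (β := ℕ) g n)) = true
    have h1 : ∀ k, (Equiv.symm (α := ℕ) (β := ℕ) g) (Equiv.toFun (α := ℕ) (β := ℕ) g k) = k :=
      fun k => Equiv.symm_apply_apply (α := ℕ) (β := ℕ) g k
    rw [h1, h1]

end Pool.Agent.MP_387a72_lc
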