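import Pool.Agent.MP_387a72_lc.Reduction
import Pool.Agent.MP_387a72_lc.Polish

/-!
# Main theorem
-/

namespace Pool.Agent.MP_387a72_lc

theorem main_orbit : BorelReducible ConvexBiEmb (OrbitRel SInf LO) := by
  obtain ⟨h, h1, h2⟩ := main
  exact ⟨h, h1, fun x x' => (h2 x x').trans (isoLO_iff_orbit _ _)⟩

end Pool.Agent.MP_387a72_lc
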