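import Mathlib

/-!
# Linear orders: intervals and left chains

Part I of the proof: if the intervals `[x', x)` with `x' ≤ x` all embed as final segments of
`(-∞, c)`, then (for a cofinal set of `x`, going to the left) the whole half line `(-∞, x)` is
isomorphic to a final segment of `(-∞, c)`.
-/

namespace Pool.Agent.MP_387a72_lc

open Set

variable {X Y W : Type*} [LinearOrder X] [LinearOrder Y] [LinearOrder W]

/-- `S` and `T` are order isomorphic, via a total function. -/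
def IsoS (S : Set X) (T : Set Y) : Prop := ∃ f : X → Y, StrictMonoOn f S ∧ f '' S = T

theorem IsoS.refl (S : Set X) : IsoS S S := ⟨id, strictMonoOn_id, image_id S⟩

theorem IsoS.trans {S : Set X} {T : Set Y} {U : Set W} (h : IsoS S T) (h' : IsoS T U) :
    IsoS S U := by
  obtain ⟨f, hf, hfi⟩ := h
  obtain ⟨g, hg, hgi⟩ := h'
  refine ⟨g ∘ f, ?_, ?_⟩
  · refine hg.comp hf ?_
    intro a ha
    rw [← hfi]; exact mem_image_of_mem f ha
  · rw [image_comp, hfi, hgi]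

theorem IsoS.symm [Nonempty X] {S : Set X} {T : Set Y} (h : IsoS S T) : IsoS T S := by
  obtain ⟨f, hf, hfi⟩ := h
  subst hfi
  refine ⟨Function.invFunOn f S, ?_, ?_⟩
  · rintro _ ⟨a, ha, rfl⟩ _ ⟨b, hb, rfl⟩ hab
    rw [hf.injOn.leftInvOn_invFunOn ha, hf.injOn.leftInvOn_invFunOn hb]
    exact (hf.lt_iff_lt ha hb).1 hab
  · ext a
    constructor
    · rintro ⟨_, ⟨b, hb, rfl⟩, rfl⟩
      rw [hf.injOn.leftInvOn_invFunOn hb]; exact hb
    · intro ha
      exact ⟨f a, mem_image_of_mem f ha, hf.injOn.leftInvOn_invFunOn ha⟩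

/-- Restriction of an isomorphism to the part above a point. -/
theorem image_inter_Ici {f : X → Y} {S : Set X} {T : Set Y} (hf : StrictMonoOn f S)
    (hfi : f '' S = T) {u : X} (hu : u ∈ S) : f '' (S ∩ Ici u) = T ∩ Ici (f u) := by
  subst hfi
  ext b
  constructor
  · rintro ⟨a, ⟨ha, hua⟩, rfl⟩
    exact ⟨mem_image_of_mem f ha, (hf.le_iff_le hu ha).2 hua⟩
  · rintro ⟨⟨a, ha, rfl⟩, hub⟩
    exact ⟨a, ⟨ha, (hf.le_iff_le hu ha).1 hub⟩, rfl⟩

theorem image_inter_Iio {f : X → Y} {S : Set X} {T : Set Y} (hf : StrictMonoOn f S)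
    (hfi : f '' S = T) {u : X} (hu : u ∈ S) : f '' (S ∩ Iio u) = T ∩ Iio (f u) := by
  subst hfi
  ext b
  constructor
  · rintro ⟨a, ⟨ha, hua⟩, rfl⟩
    exact ⟨mem_image_of_mem f ha, (hf.lt_iff_lt ha hu).2 hua⟩
  · rintro ⟨⟨a, ha, rfl⟩, hub⟩
    exact ⟨a, ⟨ha, (hf.lt_iff_lt ha hu).1 hub⟩, rfl⟩

/-- Data carried by an isomorphism of half open intervals. -/
theorem ico_mem {f : X → Y} {a b : X} {c d : Y} (hfi : f '' Ico a b = Ico c d) {u : X}
    (h1 : a ≤ u) (h2 : u < b) : c ≤ f u ∧ f u < d := by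
  have : f u ∈ Ico c d := by rw [← hfi]; exact mem_image_of_mem f ⟨h1, h2⟩
  exact this

theorem ico_min {f : X → Y} {a b : X} {c d : Y} (hf : StrictMonoOn f (Ico a b))
    (hfi : f '' Ico a b = Ico c d) (hab : a < b) : f a = c := by
  have h1 := ico_mem hfi le_rfl hab
  apply le_antisymm _ h1.1
  have : c ∈ f '' Ico a b := by rw [hfi]; exact ⟨le_rfl, h1.1.trans_lt h1.2⟩
  obtain ⟨t, ht, htc⟩ := this
  rw [← htc]
  exact (hf.le_iff_le ⟨le_rfl, hab⟩ ht).2 ht.1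

theorem ico_upper {f : X → Y} {a b : X} {c d : Y} (hf : StrictMonoOn f (Ico a b))
    (hfi : f '' Ico a b = Ico c d) {u : X} (h1 : a ≤ u) (h2 : u < b) :
    f '' Ico u b = Ico (f u) d := by
  have h := image_inter_Ici hf hfi (u := u) ⟨h1, h2⟩
  have e1 : Ico a b ∩ Ici u = Ico u b := by
    ext t; simp only [mem_inter_iff, mem_Ico, mem_Ici]; constructor
    · rintro ⟨⟨_, h⟩, h'⟩; exact ⟨h', h⟩
    · rintro ⟨h, h'⟩; exact ⟨⟨h1.trans h, h'⟩, h⟩
  have e2 : Ico c d ∩ Ici (f u) = Ico (f u) d := by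
    ext t; simp only [mem_inter_iff, mem_Ico, mem_Ici]; constructor
    · rintro ⟨⟨_, h⟩, h'⟩; exact ⟨h', h⟩
    · rintro ⟨h, h'⟩; exact ⟨⟨(ico_mem hfi h1 h2).1.trans h, h'⟩, h⟩
  rw [e1, e2] at h
  exact h

theorem ico_lower {f : X → Y} {a b : X} {c d : Y} (hf : StrictMonoOn f (Ico a b))
    (hfi : f '' Ico a b = Ico c d) {u : X} (h1 : a ≤ u) (h2 : u < b) :
    f '' Ico a u = Ico c (f u) := by
  have h := image_inter_Iio hf hfi (u := u) ⟨h1, h2⟩
  have e1 : Ico a b ∩ Iio u = Ico a u := by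
    ext t; simp only [mem_inter_iff, mem_Ico, mem_Iio]; constructor
    · rintro ⟨⟨h, _⟩, h'⟩; exact ⟨h, h'⟩
    · rintro ⟨h, h'⟩; exact ⟨⟨h, h'.trans h2⟩, h'⟩
  have e2 : Ico c d ∩ Iio (f u) = Ico c (f u) := by
    ext t; simp only [mem_inter_iff, mem_Ico, mem_Iio]; constructor
    · rintro ⟨⟨h, _⟩, h'⟩; exact ⟨h, h'⟩
    · rintro ⟨h, h'⟩; exact ⟨⟨h, h'.trans (ico_mem hfi h1 h2).2⟩, h'⟩
  rw [e1, e2] at h
  exact h

theorem isoS_upper {f : X → Y} {a b : X} {c d : Y} (hf : StrictMonoOn f (Ico a b))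
    (hfi : f '' Ico a b = Ico c d) {u : X} (h1 : a ≤ u) (h2 : u < b) :
    IsoS (Ico u b) (Ico (f u) d) :=
  ⟨f, hf.mono (Ico_subset_Ico_left h1), ico_upper hf hfi h1 h2⟩

theorem isoS_lower {f : X → Y} {a b : X} {c d : Y} (hf : StrictMonoOn f (Ico a b))
    (hfi : f '' Ico a b = Ico c d) {u : X} (h1 : a ≤ u) (h2 : u < b) :
    IsoS (Ico a u) (Ico c (f u)) :=
  ⟨f, hf.mono (Ico_subset_Ico_right h2.le), ico_lower hf hfi h1 h2⟩

/-- Middle part `[u, v)` of an isomorphism of half open intervals. -/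
theorem isoS_mid {f : X → Y} {a b : X} {c d : Y} (hf : StrictMonoOn f (Ico a b))
    (hfi : f '' Ico a b = Ico c d) {u v : X} (h1 : a ≤ u) (h2 : u ≤ v) (h3 : v < b) :
    IsoS (Ico u v) (Ico (f u) (f v)) := by
  have h := ico_upper hf hfi h1 (h2.trans_lt h3)
  exact isoS_lower (hf.mono (Ico_subset_Ico_left h1)) h h2 h3

/-! ### The cross lemma -/

theorem cross_aux {a b p c : Y} (hab : a ≤ b) (hbp : b < p) (hpc : p < c)
    (hiso : IsoS (Ico a c) (Ico b c))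
    (hno : ∀ r, p ≤ r → r < c → ¬ IsoS (Ico a c) (Ico r c)) : IsoS (Ico a p) (Ico b p) := by
  classical
  obtain ⟨θ, hθ, hθi⟩ := hiso
  have hac : a < c := (hab.trans_lt hbp).trans hpc
  -- the iterates
  have key : ∀ k : ℕ, a ≤ (θ^[k] a) ∧ (θ^[k] a) < c ∧ IsoS (Ico a c) (Ico (θ^[k] a) c) := by
    intro k
    induction k with
    | zero => exact ⟨le_rfl, hac, IsoS.refl _⟩
    | succ k ih =>
      obtain ⟨h1, h2, h3⟩ := ih
      rw [Function.iterate_succ_apply']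
      have h4 := ico_mem hθi h1 h2
      exact ⟨hab.trans h4.1, h4.2, h3.trans (isoS_upper hθ hθi h1 h2)⟩
  have hlt : ∀ k : ℕ, θ^[k] a < p := by
    intro k
    by_contra hcon
    exact hno _ (not_lt.1 hcon) (key k).2.1 (key k).2.2
  have hθa : θ a = b := ico_min hθ hθi hac
  refine ⟨fun x => if ∃ k : ℕ, x < θ^[k] a then θ x else x, ?_, ?_⟩
  · intro x hx y hy hxy
    have hxI : x ∈ Ico a c := ⟨hx.1, hx.2.trans hpc⟩
    have hyI : y ∈ Ico a c := ⟨hy.1, hy.2.trans hpc⟩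
    simp only
    by_cases h1 : ∃ k : ℕ, y < θ^[k] a
    · have h2 : ∃ k : ℕ, x < θ^[k] a := ⟨h1.choose, hxy.trans h1.choose_spec⟩
      rw [if_pos h1, if_pos h2]
      exact hθ hxI hyI hxy
    · rw [if_neg h1]
      by_cases h2 : ∃ k : ℕ, x < θ^[k] a
      · rw [if_pos h2]
        obtain ⟨k, hk⟩ := h2
        have : θ x < θ^[k+1] a := by
          rw [Function.iterate_succ_apply']
          exact hθ hxI ⟨(key k).1, (key k).2.1⟩ hk
        push Not at h1
        exact this.trans_le (h1 (k+1))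
      · rw [if_neg h2]; exact hxy
  · ext y
    constructor
    · rintro ⟨x, hx, rfl⟩
      have hxI : x ∈ Ico a c := ⟨hx.1, hx.2.trans hpc⟩
      simp only
      by_cases h2 : ∃ k : ℕ, x < θ^[k] a
      · rw [if_pos h2]
        obtain ⟨k, hk⟩ := h2
        have : θ x < θ^[k+1] a := by
          rw [Function.iterate_succ_apply']
          exact hθ hxI ⟨(key k).1, (key k).2.1⟩ hk
        exact ⟨(ico_mem hθi hxI.1 hxI.2).1, this.trans (hlt _)⟩
      · rw [if_neg h2]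
        push Not at h2
        have := h2 1
        simp only [Function.iterate_one, hθa] at this
        exact ⟨this, hx.2⟩
    · rintro ⟨h1, h2⟩
      by_cases h3 : ∃ k : ℕ, y < θ^[k] a
      · obtain ⟨k, hk⟩ := h3
        have : y ∈ θ '' Ico a c := by rw [hθi]; exact ⟨h1, h2.trans hpc⟩
        obtain ⟨x, hx, rfl⟩ := this
        -- k cannot be zero
        cases k with
        | zero =>
          simp only [Function.iterate_zero, id_eq] at hk
          exact absurd (hab.trans h1) (not_le.2 hk)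
        | succ k =>
          rw [Function.iterate_succ_apply'] at hk
          have hxk : x < θ^[k] a := (hθ.lt_iff_lt hx ⟨(key k).1, (key k).2.1⟩).1 hk
          refine ⟨x, ⟨hx.1, hxk.trans (hlt k)⟩, ?_⟩
          simp only
          rw [if_pos ⟨k, hxk⟩]
      · refine ⟨y, ⟨hab.trans h1, h2⟩, ?_⟩
        simp only
        rw [if_neg h3]

/-- **Cross lemma.** -/
theorem cross {c q q' p : Y} (hiso : IsoS (Ico q c) (Ico q' c)) (hq'c : q' < c)
    (hp : q < p) (hpc : p < c)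
    (hno : ∀ r, p ≤ r → r < c → ¬ IsoS (Ico q c) (Ico r c)) :
    q' < p ∧ IsoS (Ico q p) (Ico q' p) := by
  have hne : Nonempty Y := ⟨c⟩
  have hq'p : q' < p := by
    by_contra hcon
    exact hno _ (not_lt.1 hcon) hq'c hiso
  refine ⟨hq'p, ?_⟩
  rcases le_total q q' with h | h
  · exact cross_aux h hq'p hpc hiso hno
  · refine (cross_aux h hp hpc hiso.symm ?_).symm
    intro r h1 h2 h3
    exact hno r h1 h2 (hiso.trans h3)

/-! ### Gluing -/

theorem glue {u : ℕ → X} {p : ℕ → Y} (hu : ∀ i, u (i+1) < u i) (hp : ∀ i, p (i+1) < p i)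
    (h : ∀ i, IsoS (Ico (u (i+1)) (u i)) (Ico (p (i+1)) (p i))) :
    IsoS {a | a < u 0 ∧ ∃ i, u i ≤ a} {b | b < p 0 ∧ ∃ i, p i ≤ b} := by
  classical
  have hua : StrictAnti u := strictAnti_nat_of_succ_lt hu
  have hpa : StrictAnti p := strictAnti_nat_of_succ_lt hp
  choose f hf hfi using h
  -- index of a point
  have hex : ∀ a, (a < u 0 ∧ ∃ i, u i ≤ a) → ∃ i, u (i+1) ≤ a := by
    rintro a ⟨_, i, hi⟩
    exact ⟨i, (hua (Nat.lt_succ_self i)).le.trans hi⟩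
  set idx : X → ℕ := fun a => if h : ∃ i, u (i+1) ≤ a then Nat.find h else 0 with hidx
  have hidx_spec : ∀ a, (a < u 0 ∧ ∃ i, u i ≤ a) → a ∈ Ico (u (idx a + 1)) (u (idx a)) := by
    intro a ha
    have h1 := hex a ha
    have h2 : idx a = Nat.find h1 := by simp only [hidx]; rw [dif_pos h1]
    refine ⟨by rw [h2]; exact Nat.find_spec h1, ?_⟩
    rcases Nat.eq_zero_or_pos (idx a) with h0 | h0
    · rw [h0]; exact ha.1
    · obtain ⟨k, hk⟩ := Nat.exists_eq_succ_of_ne_zero h0.ne'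
      rw [hk]
      by_contra hcon
      have : Nat.find h1 ≤ k := Nat.find_min' h1 (not_lt.1 hcon)
      rw [← h2, hk] at this
      omega
  have hidx_eq : ∀ a i, a ∈ Ico (u (i+1)) (u i) → idx a = i := by
    intro a i ha
    have h1 : ∃ i, u (i+1) ≤ a := ⟨i, ha.1⟩
    have h2 : idx a = Nat.find h1 := by simp only [hidx]; rw [dif_pos h1]
    rw [h2, Nat.find_eq_iff]
    refine ⟨ha.1, fun n hn => ?_⟩
    rw [not_le]
    exact ha.2.trans_le (hua.antitone hn)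
  refine ⟨fun a => f (idx a) a, ?_, ?_⟩
  · intro a ha b hb hab
    have h1 := hidx_spec a ha
    have h2 := hidx_spec b hb
    simp only
    rcases lt_trichotomy (idx a) (idx b) with h | h | h
    · exact absurd hab (not_lt.2 (h2.2.le.trans ((hua.antitone h).trans h1.1)))
    · rw [h] at h1 ⊢
      exact hf _ h1 h2 hab
    · have h3 := ico_mem (hfi _) h1.1 h1.2
      have h4 := ico_mem (hfi _) h2.1 h2.2
      exact h3.2.trans_le ((hpa.antitone h).trans h4.1)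
  · ext b
    constructor
    · rintro ⟨a, ha, rfl⟩
      have h1 := hidx_spec a ha
      have h3 := ico_mem (hfi _) h1.1 h1.2
      exact ⟨h3.2.trans_le (hpa.antitone (Nat.zero_le _)), _, h3.1⟩
    · rintro ⟨hb0, hb⟩
      have h1 : ∃ i, p (i+1) ≤ b := ⟨hb.choose, (hp _).le.trans hb.choose_spec⟩
      obtain ⟨i, hi1, hi2⟩ : ∃ i, p (i+1) ≤ b ∧ b < p i := by
        refine ⟨Nat.find h1, Nat.find_spec h1, ?_⟩
        rcases Nat.eq_zero_or_pos (Nat.find h1) with h0 | h0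
        · rw [h0]; exact hb0
        · obtain ⟨k, hk⟩ := Nat.exists_eq_succ_of_ne_zero h0.ne'
          rw [hk]
          by_contra hcon
          have : Nat.find h1 ≤ k := Nat.find_min' h1 (not_lt.1 hcon)
          omega
      have hbi : b ∈ f i '' Ico (u (i+1)) (u i) := by rw [hfi]; exact ⟨hi1, hi2⟩
      obtain ⟨a, ha, rfl⟩ := hbi
      refine ⟨a, ⟨ha.2.trans_le (hua.antitone (Nat.zero_le _)), _, ha.1⟩, ?_⟩
      simp only
      rw [hidx_eq a i ha]

/-! ### Left chains -/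

/-- Every interval `[x', x)` is isomorphic to an interval `[c', c)` with `P c'`. -/
def LeftP (P : Y → Prop) (x : X) (c : Y) : Prop :=
  ∀ x' ≤ x, ∃ c' ≤ c, P c' ∧ IsoS (Ico x' x) (Ico c' c)

/-- `(-∞, x)` is isomorphic to a final segment of `(-∞, c)` all whose points satisfy `P`. -/
def TailP (P : Y → Prop) (x : X) (c : Y) : Prop :=
  ∃ T : Set Y, T ⊆ Iio c ∧ (∀ a ∈ T, ∀ b, a ≤ b → b < c → b ∈ T) ∧ (∀ a ∈ T, P a) ∧
    IsoS (Iio x) T

theorem tailP_of_glue {P : Y → Prop} (hP : ∀ a b, P a → a ≤ b → P b) {x : X} {c : Y}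
    {u : ℕ → X} {p : ℕ → Y} (hu0 : u 0 = x) (hp0 : p 0 = c)
    (hu : ∀ i, u (i+1) < u i) (hp : ∀ i, p (i+1) < p i)
    (h : ∀ i, IsoS (Ico (u (i+1)) (u i)) (Ico (p (i+1)) (p i)))
    (hPp : ∀ i, P (p i)) (hco : ∀ a < x, ∃ i, u i ≤ a) : TailP P x c := by
  subst hu0 hp0
  refine ⟨{b | b < p 0 ∧ ∃ i, p i ≤ b}, fun b hb => hb.1, ?_, ?_, ?_⟩
  · rintro a ⟨_, i, hi⟩ b hab hb
    exact ⟨hb, i, hi.trans hab⟩
  · rintro a ⟨_, i, hi⟩
    exact hP _ _ (hPp i) hi
  · have := glue hu hp h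
    have e : {a | a < u 0 ∧ ∃ i, u i ≤ a} = Iio (u 0) := by
      ext a; constructor
      · exact fun h => h.1
      · exact fun h => ⟨h, hco a h⟩
    rw [e] at this
    exact this

/-- Type `N1` (the complement of type `N2`). -/
def N1 (x : X) : Prop :=
  ∀ u < x, ∃ v < u, ∀ r, u ≤ r → r < x → ¬ IsoS (Ico v x) (Ico r x)

theorem N1.tail [Countable X] {x : X} (hx : N1 x) {P : Y → Prop}
    (hP : ∀ a b, P a → a ≤ b → P b) {c : Y} (hL : LeftP P x c) : TailP P x c := by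
  classical
  by_cases hemp : ∃ u0, u0 < x
  swap
  · refine ⟨∅, empty_subset _, by simp, by simp, ?_⟩
    have : Iio x = ∅ := by
      ext a; simp only [mem_Iio, mem_empty_iff_false, iff_false]
      exact fun h => hemp ⟨a, h⟩
    rw [this]
    have hne : Nonempty Y := ⟨c⟩
    exact ⟨fun _ => c, by intro a ha; exact absurd ha (notMem_empty a), image_empty _⟩
  obtain ⟨u0, hu0⟩ := hemp
  have hneX : Nonempty X := ⟨x⟩
  obtain ⟨e, he⟩ := exists_surjective_nat X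
  -- the coinitial sequence
  have hstep : ∀ (n : ℕ) (u : {u : X // u < x}), ∃ v : {u : X // u < x}, v.1 < u.1 ∧
      (e n < x → v.1 ≤ e n) ∧ ∀ r, u.1 ≤ r → r < x → ¬ IsoS (Ico v.1 x) (Ico r x) := by
    intro n u
    by_cases hn : e n < x
    · obtain ⟨v, hv, hvr⟩ := hx (min u.1 (e n)) ((min_le_left _ _).trans_lt u.2)
      refine ⟨⟨v, hv.trans ((min_le_left _ _).trans_lt u.2)⟩, hv.trans_le (min_le_left _ _),
        fun _ => hv.le.trans (min_le_right _ _), ?_⟩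
      intro r h1 h2
      exact hvr r ((min_le_left _ _).trans h1) h2
    · obtain ⟨v, hv, hvr⟩ := hx u.1 u.2
      exact ⟨⟨v, hv.trans u.2⟩, hv, fun h => absurd h hn, hvr⟩
  choose stp hstp1 hstp2 hstp3 using hstep
  let U : ℕ → {u : X // u < x} := fun n => Nat.rec ⟨u0, hu0⟩ (fun n u => stp n u) n
  have hU1 : ∀ n, (U (n+1)).1 < (U n).1 := fun n => hstp1 n (U n)
  have hU2 : ∀ n, e n < x → (U (n+1)).1 ≤ e n := fun n => hstp2 n (U n)
  have hU3 : ∀ n r, (U n).1 ≤ r → r < x → ¬ IsoS (Ico (U (n+1)).1 x) (Ico r x) :=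
    fun n => hstp3 n (U n)
  have hUx : ∀ n, (U n).1 < x := fun n => (U n).2
  -- the points of `Y`
  have hc := fun n => hL (U n).1 (hUx n).le
  choose C hC1 hC2 hC3 using hc
  choose φ hφ hφi using hC3
  have hCc : ∀ n, C n < c := by
    intro n
    have := ico_mem (hφi n) le_rfl (hUx n)
    exact this.1.trans_lt this.2
  have hφC : ∀ n, φ n (U n).1 = C n := fun n => ico_min (hφ n) (hφi n) (hUx n)
  set p : ℕ → Y := fun n => φ (n+1) (U n).1 with hp
  have hpc : ∀ n, p n < c := fun n => (ico_mem (hφi (n+1)) (hU1 n).le (hUx n)).2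
  have hCp : ∀ n, C (n+1) < p n := by
    intro n
    rw [← hφC (n+1)]
    exact hφ (n+1) ⟨le_rfl, hUx (n+1)⟩ ⟨(hU1 n).le, hUx n⟩ (hU1 n)
  have hiso1 : ∀ n, IsoS (Ico (U n).1 x) (Ico (p n) c) := fun n =>
    isoS_upper (hφ (n+1)) (hφi (n+1)) (hU1 n).le (hUx n)
  have hiso2 : ∀ n, IsoS (Ico (U n).1 x) (Ico (C n) c) := fun n => ⟨φ n, hφ n, hφi n⟩
  have hiso3 : ∀ n, IsoS (Ico (U (n+1)).1 (U n).1) (Ico (C (n+1)) (p n)) := fun n =>
    isoS_lower (hφ (n+1)) (hφi (n+1)) (hU1 n).le (hUx n)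
  have hneY : Nonempty Y := ⟨c⟩
  have hcross : ∀ n, p (n+1) < p n ∧ IsoS (Ico (C (n+1)) (p n)) (Ico (p (n+1)) (p n)) := by
    intro n
    refine cross ((hiso2 (n+1)).symm.trans (hiso1 (n+1))) (hpc (n+1)) (hCp n) (hpc n) ?_
    intro r h1 h2 h3
    have hr : r ∈ φ (n+1) '' Ico (U (n+1)).1 x := by
      rw [hφi]; exact ⟨(hCp n).le.trans h1, h2⟩
    obtain ⟨r', hr', rfl⟩ := hr
    have hr'' : (U n).1 ≤ r' :=
      ((hφ (n+1)).le_iff_le ⟨(hU1 n).le, hUx n⟩ hr').1 h1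
    have h4 := isoS_upper (hφ (n+1)) (hφi (n+1)) hr'.1 hr'.2
    exact hU3 n r' hr'' hr'.2 (((hiso2 (n+1)).trans h3).trans h4.symm)
  refine tailP_of_glue hP (u := fun n => Nat.casesOn n x (fun n => (U n).1))
    (p := fun n => Nat.casesOn n c p) rfl rfl ?_ ?_ ?_ ?_ ?_
  · rintro (_|n)
    · exact hUx 0
    · exact hU1 n
  · rintro (_|n)
    · exact hpc 0
    · exact (hcross n).1
  · rintro (_|n)
    · exact hiso1 0
    · exact (hiso3 n).trans (hcross n).2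
  · rintro (_|n)
    · exact hP _ _ (hC2 0) (hC1 0)
    · exact hP _ _ (hC2 (n+1)) (hCp n).le
  · intro a ha
    obtain ⟨n, rfl⟩ := he a
    exact ⟨n+2, hU2 n ha⟩

theorem N2.tail [Countable X] {x : X} (hx : ∀ y ≤ x, ¬ N1 y) {P : Y → Prop}
    (hP : ∀ a b, P a → a ≤ b → P b) {c : Y} (hL : LeftP P x c) : TailP P x c := by
  classical
  have hN2 : ∀ y ≤ x, ∃ u < y, ∀ v < u, ∃ r, u ≤ r ∧ r < y ∧ IsoS (Ico v y) (Ico r y) := by
    intro y hy
    have := hx y hy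
    unfold N1 at this
    push Not at this
    exact this
  have hneX : Nonempty X := ⟨x⟩
  obtain ⟨e, he⟩ := exists_surjective_nat X
  let St := {q : X × Y // q.1 ≤ x ∧ LeftP P q.1 q.2}
  have hstep : ∀ (n : ℕ) (q : St), ∃ q' : St, q'.1.1 < q.1.1 ∧ q'.1.1 ≤ e n ∧
      q'.1.2 < q.1.2 ∧ IsoS (Ico q'.1.1 q.1.1) (Ico q'.1.2 q.1.2) := by
    rintro n ⟨⟨y, d⟩, hy, hyd⟩
    obtain ⟨u, hu, -⟩ := hN2 y hy
    obtain ⟨y', hy'y, hy'e⟩ : ∃ y' < y, y' ≤ e n := by
      by_cases hn : e n < y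
      · exact ⟨e n, hn, le_rfl⟩
      · exact ⟨u, hu, hu.le.trans (not_lt.1 hn)⟩
    obtain ⟨u', hu', hr⟩ := hN2 y' (hy'y.le.trans hy)
    obtain ⟨c', hc', hPc', φ, hφ, hφi⟩ := hyd u' (hu'.trans hy'y).le
    refine ⟨⟨⟨y', φ y'⟩, hy'y.le.trans hy, ?_⟩, hy'y, hy'e, ?_, ?_⟩
    · intro x' hx'
      by_cases h1 : u' ≤ x'
      · refine ⟨φ x', ?_, ?_, ?_⟩
        · exact (hφ.le_iff_le ⟨h1, hx'.trans_lt hy'y⟩ ⟨hu'.le, hy'y⟩).2 hx'
        · exact hP _ _ hPc' (ico_mem hφi h1 (hx'.trans_lt hy'y)).1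
        · exact isoS_mid hφ hφi h1 hx' hy'y
      · obtain ⟨r, hr1, hr2, hr3⟩ := hr x' (not_le.1 h1)
        refine ⟨φ r, ?_, ?_, ?_⟩
        · exact (hφ ⟨hr1, hr2.trans hy'y⟩ ⟨hu'.le, hy'y⟩ hr2).le
        · exact hP _ _ hPc' (ico_mem hφi hr1 (hr2.trans hy'y)).1
        · exact hr3.trans (isoS_mid hφ hφi hr1 hr2.le hy'y)
    · exact (ico_mem hφi hu'.le hy'y).2
    · exact isoS_upper hφ hφi hu'.le hy'y
  choose stp h1 h2 h3 h4 using hstep
  let q : ℕ → St := fun n => Nat.rec ⟨⟨x, c⟩, le_rfl, hL⟩ (fun n q => stp n q) n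
  refine tailP_of_glue hP (u := fun n => (q n).1.1) (p := fun n => (q n).1.2) rfl rfl
    (fun n => h1 n (q n)) (fun n => h3 n (q n)) (fun n => h4 n (q n)) ?_ ?_
  · intro n
    obtain ⟨c', hc', hPc', -⟩ := (q n).2.2 _ le_rfl
    exact hP _ _ hPc' hc'
  · intro a ha
    obtain ⟨n, rfl⟩ := he a
    exact ⟨n+1, h2 n (q n)⟩

/-- **Theorem A'.** Below every point of a countable linear order there is a point `x` such that
left chains of intervals at `x` can be straightened. -/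
theorem exists_good_left [Countable X] (x0 : X) : ∃ x ≤ x0,
    ∀ (Y : Type) [LinearOrder Y] (P : Y → Prop), (∀ a b, P a → a ≤ b → P b) →
      ∀ c : Y, LeftP P x c → TailP P x c := by
  by_cases h : ∃ x ≤ x0, N1 x
  · obtain ⟨x, hx, hN⟩ := h
    exact ⟨x, hx, fun Y _ P hP c hL => hN.tail hP hL⟩
  · push Not at h
    exact ⟨x0, le_rfl, fun Y _ P hP c hL => N2.tail h hP hL⟩

/-! ### Closed intervals and the criterion -/

theorem icc_mem {f : X → Y} {a b : X} {c d : Y} (hfi : f '' Icc a b = Icc c d) {u : X}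
    (h1 : a ≤ u) (h2 : u ≤ b) : c ≤ f u ∧ f u ≤ d := by
  have : f u ∈ Icc c d := by rw [← hfi]; exact mem_image_of_mem f ⟨h1, h2⟩
  exact this

theorem icc_min {f : X → Y} {a b : X} {c d : Y} (hf : StrictMonoOn f (Icc a b))
    (hfi : f '' Icc a b = Icc c d) (hab : a ≤ b) : f a = c := by
  have h1 := icc_mem hfi le_rfl hab
  apply le_antisymm _ h1.1
  have : c ∈ f '' Icc a b := by rw [hfi]; exact ⟨le_rfl, h1.1.trans h1.2⟩
  obtain ⟨t, ht, htc⟩ := this
  rw [← htc]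
  exact (hf.le_iff_le ⟨le_rfl, hab⟩ ht).2 ht.1

theorem icc_max {f : X → Y} {a b : X} {c d : Y} (hf : StrictMonoOn f (Icc a b))
    (hfi : f '' Icc a b = Icc c d) (hab : a ≤ b) : f b = d := by
  have h1 := icc_mem hfi hab le_rfl
  apply le_antisymm h1.2
  have : d ∈ f '' Icc a b := by rw [hfi]; exact ⟨h1.1.trans h1.2, le_rfl⟩
  obtain ⟨t, ht, htc⟩ := this
  rw [← htc]
  exact (hf.le_iff_le ht ⟨hab, le_rfl⟩).2 ht.2

theorem IsoS.ico_of_icc {a b : X} {c d : Y} (h : IsoS (Icc a b) (Icc c d)) (hab : a ≤ b) :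
    IsoS (Ico a b) (Ico c d) := by
  obtain ⟨f, hf, hfi⟩ := h
  have hb := icc_max hf hfi hab
  have h := image_inter_Iio hf hfi (u := b) ⟨hab, le_rfl⟩
  have e1 : Icc a b ∩ Iio b = Ico a b := by
    ext t; simp only [mem_inter_iff, mem_Icc, mem_Ico, mem_Iio]
    exact ⟨fun h => ⟨h.1.1, h.2⟩, fun h => ⟨⟨h.1, h.2.le⟩, h.2⟩⟩
  have e2 : Icc c d ∩ Iio (f b) = Ico c d := by
    rw [hb]
    ext t; simp only [mem_inter_iff, mem_Icc, mem_Ico, mem_Iio]
    exact ⟨fun h => ⟨h.1.1, h.2⟩, fun h => ⟨⟨h.1, h.2.le⟩, h.2⟩⟩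
  rw [e1, e2] at h
  exact ⟨f, hf.mono Ico_subset_Icc_self, h⟩

/-- Closed version of `LeftP`. -/
def LeftC (P : Y → Prop) (x : X) (c : Y) : Prop :=
  ∀ x' ≤ x, ∃ c' ≤ c, P c' ∧ IsoS (Icc x' x) (Icc c' c)

def RightC (Q : Y → Prop) (y : X) (d : Y) : Prop :=
  ∀ y' ≥ y, ∃ d' ≥ d, Q d' ∧ IsoS (Icc y y') (Icc d d')

def HeadQ (Q : Y → Prop) (y : X) (d : Y) : Prop :=
  ∃ T : Set Y, T ⊆ Ioi d ∧ (∀ a ∈ T, ∀ b, b ≤ a → d < b → b ∈ T) ∧ (∀ a ∈ T, Q a) ∧
    IsoS (Ioi y) T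

theorem LeftC.leftP {P : Y → Prop} {x : X} {c : Y} (h : LeftC P x c) : LeftP P x c := by
  intro x' hx'
  obtain ⟨c', h1, h2, h3⟩ := h x' hx'
  exact ⟨c', h1, h2, h3.ico_of_icc hx'⟩

open OrderDual in
theorem IsoS.dual {S : Set X} {T : Set Y} (h : IsoS S T) :
    IsoS (X := Xᵒᵈ) (Y := Yᵒᵈ) (ofDual ⁻¹' S) (ofDual ⁻¹' T) := by
  obtain ⟨f, hf, hfi⟩ := h
  refine ⟨fun a => toDual (f (ofDual a)), ?_, ?_⟩
  · intro a ha b hb hab
    exact hf hb ha hab
  · rw [← hfi]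
    ext b
    constructor
    · rintro ⟨a, ha, rfl⟩
      exact ⟨ofDual a, ha, rfl⟩
    · rintro ⟨a, ha, hab⟩
      exact ⟨toDual a, ha, hab⟩

open OrderDual in
theorem exists_good_right [Countable X] (x0 : X) : ∃ y ≥ x0,
    ∀ (Y : Type) [LinearOrder Y] (Q : Y → Prop), (∀ a b, Q a → b ≤ a → Q b) →
      ∀ d : Y, RightC Q y d → HeadQ Q y d := by
  have hcnt : Countable Xᵒᵈ := inferInstanceAs (Countable X)
  obtain ⟨x, hx, h⟩ := exists_good_left (X := Xᵒᵈ) (toDual x0)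
  refine ⟨ofDual x, hx, ?_⟩
  intro Y _ Q hQ d hR
  have hL : LeftP (Y := Yᵒᵈ) (fun a => Q (ofDual a)) x (toDual d) := by
    apply LeftC.leftP
    intro x' hx'
    obtain ⟨d', h1, h2, h3⟩ := hR (ofDual x') hx'
    refine ⟨toDual d', h1, h2, ?_⟩
    have h4 := h3.dual
    have e1 : (ofDual ⁻¹' (Icc (ofDual x) (ofDual x')) : Set Xᵒᵈ) = Icc x' x := by
      ext t; exact And.comm
    have e2 : (ofDual ⁻¹' (Icc d d') : Set Yᵒᵈ) = Icc (toDual d') (toDual d) := by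
      ext t; exact And.comm
    rw [e1, e2] at h4
    exact h4
  obtain ⟨T, hT1, hT2, hT3, hT4⟩ := h (Yᵒᵈ) (fun a => Q (ofDual a))
    (fun a b ha hab => hQ _ _ ha hab) (toDual d) hL
  refine ⟨toDual ⁻¹' T, ?_, ?_, ?_, ?_⟩
  · intro a ha
    exact hT1 ha
  · intro a ha b hba hdb
    exact hT2 (toDual a) ha (toDual b) hba hdb
  · intro a ha
    exact hT3 (toDual a) ha
  · obtain ⟨f, hf, hfi⟩ := hT4
    refine ⟨fun a => ofDual (f (toDual a)), ?_, ?_⟩
    · intro a ha b hb hab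
      exact hf (a := toDual b) hb (b := toDual a) ha hab
    · ext b
      constructor
      · rintro ⟨a, ha, rfl⟩
        show toDual (ofDual (f (toDual a))) ∈ T
        rw [toDual_ofDual, ← hfi]
        exact mem_image_of_mem f (show toDual a ∈ Iio x from ha)
      · intro hb
        have hb' : toDual b ∈ T := hb
        rw [← hfi] at hb'
        obtain ⟨a, ha, hab⟩ := hb'
        exact ⟨ofDual a, ha, by simp only [toDual_ofDual]; rw [hab]; rfl⟩

/-- A convex embedding. -/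
def ConvexEmb (f : X → Y) : Prop := StrictMono f ∧ (range f).OrdConnected

theorem exists_good_pair (X : Type*) [LinearOrder X] [Countable X] [Nonempty X] :
    ∃ x y : X, x ≤ y ∧
    ∀ (Y : Type) [LinearOrder Y] (P Q : Y → Prop), (∀ a b, P a → a ≤ b → P b) →
      (∀ a b, Q a → b ≤ a → Q b) → ∀ c d : Y, c ≤ d → IsoS (Icc x y) (Icc c d) →
      LeftC P x c → RightC Q y d → ∃ f : X → Y, ConvexEmb f ∧ ∀ a, P (f a) ∧ Q (f a) := by
  classical
  obtain ⟨x0⟩ := ‹Nonempty X›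
  obtain ⟨x, hx, hL⟩ := exists_good_left x0
  obtain ⟨y, hy, hR⟩ := exists_good_right x0
  refine ⟨x, y, hx.trans hy, ?_⟩
  intro Y _ P Q hP hQ c d hcd hiso hLC hRC
  obtain ⟨T, hT1, hT2, hT3, f1, hf1, hf1i⟩ := hL Y P hP c hLC.leftP
  obtain ⟨T', hT'1, hT'2, hT'3, f3, hf3, hf3i⟩ := hR Y Q hQ d hRC
  obtain ⟨f2, hf2, hf2i⟩ := hiso
  have hPc : P c := by
    obtain ⟨c', h1, h2, -⟩ := hLC x le_rfl
    exact hP _ _ h2 h1
  have hQd : Q d := by
    obtain ⟨d', h1, h2, -⟩ := hRC y le_rfl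
    exact hQ _ _ h2 h1
  have m1 : ∀ a < x, f1 a ∈ T := fun a ha => by rw [← hf1i]; exact mem_image_of_mem f1 ha
  have m3 : ∀ a, y < a → f3 a ∈ T' := fun a ha => by rw [← hf3i]; exact mem_image_of_mem f3 ha
  have m2 : ∀ a, x ≤ a → a ≤ y → c ≤ f2 a ∧ f2 a ≤ d := fun a h1 h2 => icc_mem hf2i h1 h2
  set f : X → Y := fun a => if a < x then f1 a else if a ≤ y then f2 a else f3 a with hf
  have v1 : ∀ a, a < x → f a = f1 a := fun a ha => by simp only [hf]; rw [if_pos ha]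
  have v2 : ∀ a, x ≤ a → a ≤ y → f a = f2 a := fun a h1 h2 => by
    simp only [hf]; rw [if_neg (not_lt.2 h1), if_pos h2]
  have v3 : ∀ a, y < a → f a = f3 a := fun a ha => by
    simp only [hf]
    rw [if_neg (not_lt.2 ((hx.trans hy).trans ha.le)), if_neg (not_le.2 ha)]
  refine ⟨f, ⟨?_, ?_⟩, ?_⟩
  · intro a b hab
    by_cases ha : a < x
    · rw [v1 a ha]
      by_cases hb : b < x
      · rw [v1 b hb]; exact hf1 ha hb hab
      · push Not at hb
        have h1 : f1 a < c := hT1 (m1 a ha)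
        by_cases hb' : b ≤ y
        · rw [v2 b hb hb']; exact h1.trans_le (m2 b hb hb').1
        · push Not at hb'
          rw [v3 b hb']; exact (h1.trans_le hcd).trans (hT'1 (m3 b hb'))
    · push Not at ha
      by_cases ha' : a ≤ y
      · rw [v2 a ha ha']
        by_cases hb' : b ≤ y
        · rw [v2 b (ha.trans hab.le) hb']
          exact hf2 ⟨ha, ha'⟩ ⟨ha.trans hab.le, hb'⟩ hab
        · push Not at hb'
          rw [v3 b hb']; exact (m2 a ha ha').2.trans_lt (hT'1 (m3 b hb'))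
      · push Not at ha'
        rw [v3 a ha', v3 b (ha'.trans hab)]
        exact hf3 ha' (ha'.trans hab) hab
  · have r1 : ∀ t ∈ range f, t < c → t ∈ T := by
      rintro _ ⟨a, rfl⟩ h
      by_cases ha : a < x
      · rw [v1 a ha]; exact m1 a ha
      · push Not at ha
        exfalso
        by_cases ha' : a ≤ y
        · rw [v2 a ha ha'] at h; exact absurd h (not_lt.2 (m2 a ha ha').1)
        · push Not at ha'
          rw [v3 a ha'] at h
          have : d < f3 a := hT'1 (m3 a ha')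
          exact absurd h (not_lt.2 (hcd.trans this.le))
    have r3 : ∀ t ∈ range f, d < t → t ∈ T' := by
      rintro _ ⟨a, rfl⟩ h
      by_cases ha : a < x
      · rw [v1 a ha] at h
        have : f1 a < c := hT1 (m1 a ha)
        exact absurd h (not_lt.2 (this.le.trans hcd))
      · push Not at ha
        by_cases ha' : a ≤ y
        · rw [v2 a ha ha'] at h; exact absurd h (not_lt.2 (m2 a ha ha').2)
        · push Not at ha'
          rw [v3 a ha']; exact m3 a ha'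
    constructor
    intro s hs t ht r hr
    rcases lt_or_ge r c with h | h
    · have h1 := r1 s hs (hr.1.trans_lt h)
      have h2 := hT2 s h1 r hr.1 h
      rw [← hf1i] at h2
      obtain ⟨a, ha, rfl⟩ := h2
      exact ⟨a, v1 a ha⟩
    · rcases le_or_gt r d with h' | h'
      · have : r ∈ f2 '' Icc x y := by rw [hf2i]; exact ⟨h, h'⟩
        obtain ⟨a, ha, rfl⟩ := this
        exact ⟨a, v2 a ha.1 ha.2⟩
      · have h1 := r3 t ht (h'.trans_le hr.2)
        have h2 := hT'2 t h1 r hr.2 h'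
        rw [← hf3i] at h2
        obtain ⟨a, ha, rfl⟩ := h2
        exact ⟨a, v3 a ha⟩
  · intro a
    by_cases ha : a < x
    · rw [v1 a ha]
      have h1 : f1 a < c := hT1 (m1 a ha)
      exact ⟨hT3 _ (m1 a ha), hQ _ _ hQd (h1.le.trans hcd)⟩
    · push Not at ha
      by_cases ha' : a ≤ y
      · rw [v2 a ha ha']
        exact ⟨hP _ _ hPc (m2 a ha ha').1, hQ _ _ hQd (m2 a ha ha').2⟩
      · push Not at ha'
        rw [v3 a ha']
        have h1 : d < f3 a := hT'1 (m3 a ha')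
        exact ⟨hP _ _ hPc (hcd.trans h1.le), hT'3 _ (m3 a ha')⟩

end Pool.Agent.MP_387a72_lc
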