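import Pool.Agent.MP_387a72_lc.Borel

/-!
# The Borel reduction
-/

namespace Pool.Agent.MP_387a72_lc

open Set

/-- The transition system of a coded linear order. -/
noncomputable def LO.lts (L : LO) : LTS (St ℕ) := @TL ℕ L.ord

noncomputable def chi : ℚ → Option (St ℕ) := (exists_denseCol (St ℕ)).choose

theorem chi_dense : DenseCol chi := (exists_denseCol (St ℕ)).choose_spec

/-- The order attached to a coded linear order. -/
def LO.dom (L : LO) : Set (List ℚ ×ₗ ℕ) := Dom L.lts chi (some .root)

theorem bm_lts_step (s t : St ℕ) : BM (fun L => L.lts.step s t) := bm_step s t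

theorem bm_child_some (o : Option (St ℕ)) (q : ℚ) (t : St ℕ) :
    BM (fun L => child L.lts chi o q = some t) :=
  (BM.ex fun s => (BM.const (o = some s)).and ((BM.const (chi q = some t)).and
    (bm_lts_step s t))).congr (fun _ => child_eq_some)

theorem bm_child (o : Option (St ℕ)) (q : ℚ) (o' : Option (St ℕ)) :
    BM (fun L => child L.lts chi o q = o') := by
  cases o' with
  | some t => exact bm_child_some o q t
  | none =>
    refine (BM.ex fun t => bm_child_some o q t).not.congr (fun L => ?_)
    constructor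
    · rintro h ⟨t, ht⟩
      rw [h] at ht; cases ht
    · intro h
      cases hc : child L.lts chi o q with
      | none => rfl
      | some t => exact absurd ⟨t, hc⟩ h

theorem bm_run (σ : List ℚ) : ∀ o o', BM (fun L => run L.lts chi o σ = o') := by
  induction σ with
  | nil => intro o o'; exact BM.const (o = o')
  | cons q σ ih =>
    intro o o'
    refine (BM.ex fun o1 => (bm_child o q o1).and (ih o1 o')).congr (fun L => ?_)
    constructor
    · intro h; exact ⟨_, rfl, h⟩
    · rintro ⟨o1, rfl, h⟩; exact h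

def labS : Option (St ℕ) → ℕ
  | none => 0
  | some s => lab s + 1

theorem labO_lts (L : LO) (o : Option (St ℕ)) : labO L.lts o = labS o := by
  cases o <;> rfl

theorem bm_dom (x : List ℚ ×ₗ ℕ) : BM (fun L => x ∈ L.dom) := by
  refine (BM.ex fun o => (bm_run (ofLex x).1 (some .root) o).and
    (BM.const ((ofLex x).2 < 2 + Nat.pair (labS o) (ofLex x).1.length))).congr (fun L => ?_)
  constructor
  · intro h
    refine ⟨_, rfl, ?_⟩
    rw [← labO_lts L]
    exact h
  · rintro ⟨o, rfl, h⟩
    rw [← labO_lts L] at h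
    exact h

theorem exists_enc : Nonempty (ℕ ≃ (List ℚ ×ₗ ℕ)) := by
  obtain ⟨h⟩ := nonempty_denumerable (List ℚ × ℕ)
  exact ⟨(Denumerable.eqv (List ℚ × ℕ)).symm.trans toLex⟩

noncomputable def enc : ℕ ≃ (List ℚ ×ₗ ℕ) := exists_enc.some

/-- indices of elements of the domain -/
def LO.idx (L : LO) (k : ℕ) : Prop := enc k ∈ L.dom

theorem mem_dom_zero (L : LO) (σ : List ℚ) : (toLex (σ, 0) : List ℚ ×ₗ ℕ) ∈ L.dom :=
  size_pos L.lts chi (some .root) σ

theorem idx_infinite (L : LO) : (Set.ofPred L.idx).Infinite := by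
  have h1 : Function.Injective (fun n : ℕ => enc.symm (toLex ([(n : ℚ)], 0))) := by
    intro a b hab
    have h1 := enc.symm.injective hab
    have h2 := toLex.injective h1
    simpa using h2
  apply (infinite_range_of_injective h1).mono
  rintro _ ⟨n, rfl⟩
  show enc (enc.symm _) ∈ L.dom
  rw [Equiv.apply_symm_apply]
  exact mem_dom_zero L _

theorem bm_idx (k : ℕ) : BM (fun L => L.idx k) := bm_dom (enc k)

open Classical in
theorem bm_count (k : ℕ) : ∀ m, BM (fun L => Nat.count L.idx k = m) := by
  induction k with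
  | zero =>
    intro m
    refine (BM.const (0 = m)).congr (fun L => ?_)
    rw [Nat.count_zero]
  | succ k ih =>
    intro m
    refine (((bm_idx k).and (BM.ex fun m' => (ih m').and (BM.const (m' + 1 = m)))).or
      ((bm_idx k).not.and (ih m))).congr (fun L => ?_)
    rw [Nat.count_succ]
    by_cases h : L.idx k
    · rw [if_pos h]
      constructor
      · intro h'; exact Or.inl ⟨h, _, rfl, h'⟩
      · rintro (⟨_, m', rfl, h'⟩ | ⟨h', _⟩)
        · exact h'
        · exact absurd h h'
    · rw [if_neg h, add_zero]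
      constructor
      · intro h'; exact Or.inr ⟨h, h'⟩
      · rintro (⟨h', _⟩ | ⟨_, h'⟩)
        · exact absurd h' h
        · exact h'

open Classical in
theorem bm_nth (m k : ℕ) : BM (fun L => Nat.nth L.idx m = k) := by
  refine ((bm_idx k).and (bm_count k m)).congr (fun L => ?_)
  constructor
  · rintro rfl
    exact ⟨Nat.nth_mem_of_infinite (idx_infinite L) m,
      Nat.count_nth_of_infinite (idx_infinite L) m⟩
  · rintro ⟨h1, h2⟩
    rw [← h2]
    exact Nat.nth_count h1

/-- The `m`-th element of the domain. -/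
noncomputable def LO.elt (L : LO) (m : ℕ) : List ℚ ×ₗ ℕ := enc (Nat.nth L.idx m)

theorem elt_mem (L : LO) (m : ℕ) : L.elt m ∈ L.dom :=
  Nat.nth_mem_of_infinite (idx_infinite L) m

theorem elt_inj (L : LO) : Function.Injective L.elt := by
  intro a b hab
  exact Nat.nth_injective (idx_infinite L) (enc.injective hab)

open Classical in
theorem elt_surj (L : LO) {x : List ℚ ×ₗ ℕ} (hx : x ∈ L.dom) : ∃ m, L.elt m = x := by
  have h1 : L.idx (enc.symm x) := by
    show enc (enc.symm x) ∈ L.dom
    rw [Equiv.apply_symm_apply]; exact hx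
  refine ⟨Nat.count L.idx (enc.symm x), ?_⟩
  show enc (Nat.nth L.idx _) = x
  rw [Nat.nth_count h1, Equiv.apply_symm_apply]

open Classical in
/-- **The reduction.** -/
noncomputable def red (L : LO) : LO :=
  ⟨fun p => decide (L.elt p.1 ≤ L.elt p.2), by
    refine ⟨fun m => ?_, fun m n h h' => ?_, fun m n k h h' => ?_, fun m n => ?_⟩
    · simp
    · simp only [decide_eq_true_eq] at h h'
      exact elt_inj L (le_antisymm h h')
    · simp only [decide_eq_true_eq] at h h' ⊢
      exact h.trans h'
    · simp only [decide_eq_true_eq]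
      exact le_total _ _⟩

theorem red_le (L : LO) (m n : ℕ) : (red L).le m n ↔ L.elt m ≤ L.elt n := by
  show decide (L.elt m ≤ L.elt n) = true ↔ _
  exact decide_eq_true_iff

theorem bm_red (m n : ℕ) : BM (fun L => (red L).le m n) := by
  refine (BM.ex fun k => BM.ex fun l => (bm_nth m k).and ((bm_nth n l).and
    (BM.const (enc k ≤ enc l)))).congr (fun L => ?_)
  rw [red_le]
  constructor
  · intro h; exact ⟨_, _, rfl, rfl, h⟩
  · rintro ⟨k, l, rfl, rfl, h⟩; exact h

theorem measurable_red : Measurable red := by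
  refine Measurable.subtype_mk ?_
  rw [measurable_pi_iff]
  rintro ⟨m, n⟩
  apply measurable_to_bool
  exact bm_red m n

theorem borel_red : @Measurable LO LO (borel LO) (borel LO) red := by
  have h := measurable_red
  have e : (inferInstance : MeasurableSpace LO) = borel LO := BorelSpace.measurable_eq
  rw [← e]
  exact h

/-- The order coded by `red L` is the order `L.dom`. -/
noncomputable def redEquiv (L : LO) : ℕ ≃ L.dom :=
  Equiv.ofBijective (fun m => ⟨L.elt m, elt_mem L m⟩)
    ⟨fun a b hab => elt_inj L (congrArg Subtype.val hab),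
      fun x => by
        obtain ⟨m, hm⟩ := elt_surj L x.2
        exact ⟨m, Subtype.ext hm⟩⟩

theorem redEquiv_le (L : LO) (m n : ℕ) : (red L).le m n ↔ redEquiv L m ≤ redEquiv L n :=
  red_le L m n

theorem iso_red_iff (L L' : LO) : IsoLO (red L) (red L') ↔ Nonempty (L.dom ≃o L'.dom) := by
  constructor
  · rintro ⟨e, he⟩
    refine ⟨⟨((redEquiv L).symm.trans e).trans (redEquiv L'), ?_⟩⟩
    intro a b
    show redEquiv L' (e ((redEquiv L).symm a)) ≤ redEquiv L' (e ((redEquiv L).symm b)) ↔ a ≤ b
    rw [← redEquiv_le, ← he, redEquiv_le, Equiv.apply_symm_apply, Equiv.apply_symm_apply]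
  · rintro ⟨Φ⟩
    refine ⟨((redEquiv L).trans Φ.toEquiv).trans (redEquiv L').symm, ?_⟩
    intro m n
    rw [redEquiv_le, redEquiv_le]
    show _ ↔ redEquiv L' ((redEquiv L').symm (Φ (redEquiv L m))) ≤
      redEquiv L' ((redEquiv L').symm (Φ (redEquiv L n)))
    rw [Equiv.apply_symm_apply, Equiv.apply_symm_apply, Φ.le_iff_le]

theorem convexEmb_iff {A B : Type} [LinearOrder A] [LinearOrder B] (f : A → B) :
    ConvexEmb f ↔ (∀ m n : A, m ≤ n ↔ f m ≤ f n) ∧
      (∀ (a b : A) (t : B), f a ≤ t → t ≤ f b → ∃ s, f s = t) := by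
  constructor
  · intro h
    exact ⟨fun m n => h.le_iff.symm, fun a b t h1 h2 => h.mem h1 h2⟩
  · rintro ⟨h1, h2⟩
    refine ⟨fun a b hab => ?_, ⟨?_⟩⟩
    · rw [← not_le] at hab ⊢
      rwa [← h1]
    · rintro _ ⟨a, rfl⟩ _ ⟨b, rfl⟩ t ht
      exact h2 a b t ht.1 ht.2

theorem isConvexEmb_iff (L L' : LO) (f : ℕ → ℕ) :
    IsConvexEmb L L' f ↔ @ConvexEmb ℕ ℕ L.ord L'.ord f :=
  (@convexEmb_iff ℕ ℕ L.ord L'.ord f).symm

theorem biEmb_iff (L L' : LO) : ConvexBiEmb L L' ↔ Nonempty (L.dom ≃o L'.dom) := by
  have h1 : Nonempty (L.dom ≃o L'.dom) ↔ Bisim L.lts L'.lts .root .root :=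
    dom_iso_iff chi_dense chi_dense .root .root
  rw [h1]
  have h2 := @root_bisim_iff ℕ ℕ L.ord L'.ord _ _ _ _
  refine Iff.trans ?_ h2.symm
  refine and_congr ?_ ?_
  · exact exists_congr fun f => isConvexEmb_iff L L' f
  · exact exists_congr fun f => isConvexEmb_iff L' L f

/-- **Q1.** -/
theorem main : BorelReducible ConvexBiEmb IsoLO :=
  ⟨red, borel_red, fun L L' => (biEmb_iff L L').trans (iso_red_iff L L').symm⟩

end Pool.Agent.MP_387a72_lc
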