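import Pool.Agent.MP_387a72_lc.Sys

/-!
# The transition system attached to a linear order
-/

namespace Pool.Agent.MP_387a72_lc

open Set

variable {A B : Type} [LinearOrder A] [LinearOrder B]

/-! ### Tuples -/

inductive TS (A : Type) : Type
  | tup (lo hi : Option A) (l : List A) : TS A
  | leaf (n : ℕ) : TS A
  | setI : TS A
  | setR : TS A
  | setL : TS A

/-- The interval with end points `lo`, `hi` (`none` means: no end point). -/
def InI (lo hi : Option A) : Set A := {b | (∀ x, lo = some x → x ≤ b) ∧ (∀ y, hi = some y → b ≤ y)}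

def tstep : TS A → TS A → Prop
  | .tup lo hi l, .tup lo' hi' l' => lo' = lo ∧ hi' = hi ∧ ∃ b ∈ InI lo hi, l' = b :: l
  | .tup _ _ l, .leaf n => ∃ a b, l[(Nat.unpair n).1]? = some a ∧ l[(Nat.unpair n).2]? = some b ∧
      a ≤ b
  | .setI, .tup lo hi l => ∃ x y, x ≤ y ∧ lo = some x ∧ hi = some y ∧ l = []
  | .setR, .tup lo hi l => (∃ x, lo = some x) ∧ hi = none ∧ l = []
  | .setL, .tup lo hi l => lo = none ∧ (∃ y, hi = some y) ∧ l = []
  | _, _ => False

def tlab : TS A → ℕ
  | .leaf n => n + 1
  | _ => 0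

def TT (A : Type) [LinearOrder A] : LTS (TS A) := ⟨tstep, tlab⟩

theorem tup_bisim_of_iso {lo hi : Option A} {lo' hi' : Option B}
    (h : IsoS (InI lo hi) (InI lo' hi')) : Bisim (TT A) (TT B) (.tup lo hi []) (.tup lo' hi' []) := by
  obtain ⟨f, hf, hfi⟩ := h
  refine ⟨fun s s' => (∃ l, (∀ a ∈ l, a ∈ InI lo hi) ∧ s = .tup lo hi l ∧
    s' = .tup lo' hi' (l.map f)) ∨ (∃ n, s = .leaf n ∧ s' = .leaf n), ?_,
    Or.inl ⟨[], by simp, rfl, rfl⟩⟩
  rintro s s' (⟨l, hl, rfl, rfl⟩ | ⟨n, rfl, rfl⟩)
  · have hle : ∀ (i j : ℕ), (∃ a b, l[i]? = some a ∧ l[j]? = some b ∧ a ≤ b) ↔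
        (∃ a b, (l.map f)[i]? = some a ∧ (l.map f)[j]? = some b ∧ a ≤ b) := by
      intro i j
      constructor
      · rintro ⟨a, b, h1, h2, h3⟩
        refine ⟨f a, f b, by rw [List.getElem?_map, h1]; rfl, by rw [List.getElem?_map, h2]; rfl, ?_⟩
        exact (hf.le_iff_le (hl a (List.mem_of_getElem? h1)) (hl b (List.mem_of_getElem? h2))).2 h3
      · rintro ⟨a', b', h1, h2, h3⟩
        rw [List.getElem?_map] at h1 h2
        obtain ⟨a, ha, rfl⟩ := Option.map_eq_some_iff.1 h1
        obtain ⟨b, hb, rfl⟩ := Option.map_eq_some_iff.1 h2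
        exact ⟨a, b, ha, hb,
          (hf.le_iff_le (hl a (List.mem_of_getElem? ha)) (hl b (List.mem_of_getElem? hb))).1 h3⟩
    refine ⟨rfl, ?_, ?_⟩
    · intro t ht
      cases t with
      | tup lo1 hi1 l1 =>
        obtain ⟨rfl, rfl, b, hb, rfl⟩ := ht
        refine ⟨.tup lo' hi' (f b :: l.map f), ⟨rfl, rfl, f b, ?_, rfl⟩, Or.inl ⟨b :: l, ?_, rfl, ?_⟩⟩
        · rw [← hfi]; exact mem_image_of_mem f hb
        · intro a ha
          rcases List.mem_cons.1 ha with rfl | ha
          · exact hb
          · exact hl a ha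
        · rfl
      | leaf n => exact ⟨.leaf n, (hle _ _).1 ht, Or.inr ⟨n, rfl, rfl⟩⟩
      | setI => exact ht.elim
      | setR => exact ht.elim
      | setL => exact ht.elim
    · intro t ht
      cases t with
      | tup lo1 hi1 l1 =>
        obtain ⟨rfl, rfl, b, hb, rfl⟩ := ht
        rw [← hfi] at hb
        obtain ⟨a, ha, rfl⟩ := hb
        refine ⟨.tup lo hi (a :: l), ⟨rfl, rfl, a, ha, rfl⟩, Or.inl ⟨a :: l, ?_, rfl, rfl⟩⟩
        intro a' ha'
        rcases List.mem_cons.1 ha' with rfl | ha'
        · exact ha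
        · exact hl a' ha'
      | leaf n => exact ⟨.leaf n, (hle _ _).2 ht, Or.inr ⟨n, rfl, rfl⟩⟩
      | setI => exact ht.elim
      | setR => exact ht.elim
      | setL => exact ht.elim
  · refine ⟨rfl, ?_, ?_⟩
    · intro t ht
      cases t <;> exact ht.elim
    · intro t ht
      cases t <;> exact ht.elim

theorem iso_of_tup_bisim [Countable A] [Countable B] [Nonempty B] {lo hi : Option A}
    {lo' hi' : Option B} (h : Bisim (TT A) (TT B) (.tup lo hi []) (.tup lo' hi' [])) :
    IsoS (InI lo hi) (InI lo' hi') := by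
  have key : ∃ f : A → B, StrictMonoOn f (InI lo hi) ∧ f '' (InI lo hi) = InI lo' hi' ∧
      ∀ x ∈ ([] : List (A × B)), f x.1 = x.2 := by
    refine back_forth (InI lo hi) (InI lo' hi')
      (fun l => (∀ x ∈ l, x.1 ∈ InI lo hi ∧ x.2 ∈ InI lo' hi') ∧
        Bisim (TT A) (TT B) (.tup lo hi (l.map Prod.fst)) (.tup lo' hi' (l.map Prod.snd)))
      ?_ (fun l hl => hl.1) ?_ ?_ [] ⟨fun x hx => absurd hx List.not_mem_nil, h⟩
    · rintro l ⟨-, hl⟩ x hx y hy
      obtain ⟨i, hi⟩ := List.getElem?_of_mem hx
      obtain ⟨j, hj⟩ := List.getElem?_of_mem hy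
      constructor
      · intro hxy
        obtain ⟨t', ht', hB⟩ := hl.fwd (t := .leaf (Nat.pair i j))
          ⟨x.1, y.1, by rw [Nat.unpair_pair, List.getElem?_map, hi]; rfl,
            by rw [Nat.unpair_pair, List.getElem?_map, hj]; rfl, hxy⟩
        have hlab := hB.lab
        cases t' with
        | leaf n =>
          have : Nat.pair i j = n := by
            have h1 : Nat.pair i j + 1 = n + 1 := hlab
            omega
          subst this
          obtain ⟨a, b, h1, h2, h3⟩ := ht'
          rw [Nat.unpair_pair, List.getElem?_map] at h1 h2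
          simp only [hi, hj, Option.map_some, Option.some.injEq] at h1 h2
          rw [h1, h2]; exact h3
        | tup _ _ _ => exact absurd hlab (Nat.succ_ne_zero _)
        | setI => exact absurd hlab (Nat.succ_ne_zero _)
        | setR => exact absurd hlab (Nat.succ_ne_zero _)
        | setL => exact absurd hlab (Nat.succ_ne_zero _)
      · intro hxy
        obtain ⟨t', ht', hB⟩ := hl.bwd (t' := .leaf (Nat.pair i j))
          ⟨x.2, y.2, by rw [Nat.unpair_pair, List.getElem?_map, hi]; rfl,
            by rw [Nat.unpair_pair, List.getElem?_map, hj]; rfl, hxy⟩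
        have hlab := hB.lab.symm
        cases t' with
        | leaf n =>
          have : Nat.pair i j = n := by
            have h1 : Nat.pair i j + 1 = n + 1 := hlab
            omega
          subst this
          obtain ⟨a, b, h1, h2, h3⟩ := ht'
          rw [Nat.unpair_pair, List.getElem?_map] at h1 h2
          simp only [hi, hj, Option.map_some, Option.some.injEq] at h1 h2
          rw [h1, h2]; exact h3
        | tup _ _ _ => exact absurd hlab (Nat.succ_ne_zero _)
        | setI => exact absurd hlab (Nat.succ_ne_zero _)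
        | setR => exact absurd hlab (Nat.succ_ne_zero _)
        | setL => exact absurd hlab (Nat.succ_ne_zero _)
    · rintro l ⟨hl1, hl⟩ a ha
      obtain ⟨t', ht', hB⟩ := hl.fwd (t := .tup lo hi (a :: l.map Prod.fst)) ⟨rfl, rfl, a, ha, rfl⟩
      have hlab := hB.lab
      cases t' with
      | tup lo1 hi1 l1 =>
        obtain ⟨rfl, rfl, b, hb, rfl⟩ := ht'
        refine ⟨b, ?_, hB⟩
        intro x hx
        rcases List.mem_cons.1 hx with rfl | hx
        · exact ⟨ha, hb⟩
        · exact hl1 x hx
      | leaf n => exact absurd hlab.symm (Nat.succ_ne_zero _)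
      | setI => exact ht'.elim
      | setR => exact ht'.elim
      | setL => exact ht'.elim
    · rintro l ⟨hl1, hl⟩ b hb
      obtain ⟨t', ht', hB⟩ := hl.bwd (t' := .tup lo' hi' (b :: l.map Prod.snd))
        ⟨rfl, rfl, b, hb, rfl⟩
      have hlab := hB.lab
      cases t' with
      | tup lo1 hi1 l1 =>
        obtain ⟨rfl, rfl, a, ha, rfl⟩ := ht'
        refine ⟨a, ?_, hB⟩
        intro x hx
        rcases List.mem_cons.1 hx with rfl | hx
        · exact ⟨ha, hb⟩
        · exact hl1 x hx
      | leaf n => exact absurd hlab (Nat.succ_ne_zero _)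
      | setI => exact ht'.elim
      | setR => exact ht'.elim
      | setL => exact ht'.elim
  obtain ⟨f, h1, h2, -⟩ := key
  exact ⟨f, h1, h2⟩

theorem InI_some_some (x y : A) : InI (some x) (some y) = Icc x y := by
  ext b
  constructor
  · rintro ⟨h1, h2⟩; exact ⟨h1 x rfl, h2 y rfl⟩
  · rintro ⟨h1, h2⟩
    exact ⟨fun x' h => by cases h; exact h1, fun y' h => by cases h; exact h2⟩

theorem InI_some_none (x : A) : InI (some x) none = Ici x := by
  ext b
  constructor
  · rintro ⟨h1, h2⟩; exact h1 x rfl
  · intro h1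
    exact ⟨fun x' h => by cases h; exact h1, fun y' h => by cases h⟩

theorem InI_none_some (y : A) : InI none (some y) = Iic y := by
  ext b
  constructor
  · rintro ⟨h1, h2⟩; exact h2 y rfl
  · intro h1
    exact ⟨fun x' h => (by cases h), fun y' h => by cases h; exact h1⟩

theorem InI_none_none : InI (none : Option A) none = univ := by
  ext b
  constructor
  · intro _; trivial
  · intro _
    exact ⟨fun x' h => (by cases h), fun y' h => (by cases h)⟩

/-! ### The full state space -/

inductive St (A : Type) : Type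
  | base (t : TS A) : St A
  | gate (bl br : Bool) (s : GS (Ob A A) (Ch A A)) : St A
  | HH (bl br : Bool) (s : St A) : St A
  | HPx (bl br : Bool) (s : St A) : St A
  | HPy (bl br : Bool) (n : ℕ) : St A
  | HD (bl br : Bool) : St A
  | tg (n : ℕ) (s : St A) : St A
  | Z : St A
  | root : St A

def listZ (A : Type) : List (St A) :=
  [.tg 0 (.gate true false .top), .tg 1 (.gate true false (.A [])),
   .tg 2 (.gate false true .top), .tg 3 (.gate false true (.A [])),
   .tg 4 (.HH false true (.base .setR)), .tg 5 (.HH true false (.base .setL)),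
   .tg 6 (.HH true false (.HH false true (.base (.tup none none []))))]

def listRoot (A : Type) : List (St A) :=
  [.tg 0 (.base .setI), .tg 1 (.gate true true .top), .tg 2 (.gate true true (.A [])),
   .tg 3 (.HH true true .Z)]

def step : St A → St A → Prop
  | .base s, .base t => tstep s t
  | .gate bl br s, .gate bl' br' t => bl = bl' ∧ br = br' ∧ (gm A A bl br).gstep s t
  | .HH bl br s, .HPx bl' br' t => bl = bl' ∧ br = br' ∧ step s t
  | .HH bl br _, .HPy bl' br' _ => bl = bl' ∧ br = br'
  | .HD bl br, .HPy bl' br' _ => bl = bl' ∧ br = br'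
  | .HPx bl br _, .gate bl' br' t => bl = bl' ∧ br = br' ∧ t = .top
  | .HPx bl br s, .HH bl' br' t => bl = bl' ∧ br = br' ∧ t = s
  | .HPy bl br _, .gate bl' br' t => bl = bl' ∧ br = br' ∧ t = .A []
  | .HPy bl br _, .HD bl' br' => bl = bl' ∧ br = br'
  | .tg _ s, t => t = s
  | .Z, t => t ∈ listZ A
  | .root, t => t ∈ listRoot A
  | _, _ => False

def lab : St A → ℕ
  | .base t => tlab t
  | .gate _ _ s => Game.glab s
  | .HH _ _ _ => 2
  | .HD _ _ => 2
  | .HPx _ _ s => 3 + lab s
  | .HPy _ _ n => 3 + n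
  | .tg n _ => n
  | .Z => 0
  | .root => 0

def TL (A : Type) [LinearOrder A] : LTS (St A) := ⟨step, lab⟩

theorem emb_base : IsEmb (TT A) (TL A) .base := by
  refine ⟨fun s => rfl, fun s t' => ?_⟩
  constructor
  · intro h
    cases t' with
    | base t =>
      refine ⟨t, rfl, ?_⟩
      simp only [TL, step] at h
      exact h
    | _ => simp [TL, step] at h
  · rintro ⟨t, rfl, ht⟩
    simp only [TL, step]
    exact ht

theorem emb_gate (bl br : Bool) : IsEmb (gm A A bl br).gate (TL A) (.gate bl br) := by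
  refine ⟨fun s => rfl, fun s t' => ?_⟩
  constructor
  · intro h
    cases t' with
    | gate bl' br' t =>
      simp only [TL, step] at h
      obtain ⟨rfl, rfl, h⟩ := h
      exact ⟨t, rfl, h⟩
    | _ => simp [TL, step] at h
  · rintro ⟨t, rfl, ht⟩
    simp only [TL, step]
    exact ⟨trivial, trivial, ht⟩

theorem step_HH {bl br : Bool} {s u : St A} : (TL A).step (.HH bl br s) u ↔
    (∃ t, (TL A).step s t ∧ u = .HPx bl br t) ∨ (∃ k, u = .HPy bl br k) := by
  constructor
  · intro h
    cases u with
    | HPx bl' br' t =>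
      simp only [TL, step] at h
      obtain ⟨rfl, rfl, h⟩ := h
      exact Or.inl ⟨t, h, rfl⟩
    | HPy bl' br' k =>
      simp only [TL, step] at h
      obtain ⟨rfl, rfl⟩ := h
      exact Or.inr ⟨k, rfl⟩
    | _ => simp [TL, step] at h
  · rintro (⟨t, h, rfl⟩ | ⟨k, rfl⟩)
    · simp only [TL, step] at h ⊢
      exact ⟨trivial, trivial, h⟩
    · simp [TL, step]

theorem step_HD {bl br : Bool} {u : St A} : (TL A).step (.HD bl br) u ↔
    (∃ k, u = .HPy bl br k) := by
  constructor
  · intro h
    cases u with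
    | HPy bl' br' k =>
      simp only [TL, step] at h
      obtain ⟨rfl, rfl⟩ := h
      exact ⟨k, rfl⟩
    | _ => simp [TL, step] at h
  · rintro ⟨k, rfl⟩
    simp [TL, step]

theorem step_HPx {bl br : Bool} {s u : St A} : (TL A).step (.HPx bl br s) u ↔
    u = .gate bl br .top ∨ u = .HH bl br s := by
  constructor
  · intro h
    cases u with
    | gate bl' br' t =>
      simp only [TL, step] at h
      obtain ⟨rfl, rfl, rfl⟩ := h
      exact Or.inl rfl
    | HH bl' br' t =>
      simp only [TL, step] at h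
      obtain ⟨rfl, rfl, rfl⟩ := h
      exact Or.inr rfl
    | _ => simp [TL, step] at h
  · rintro (rfl | rfl)
    · simp [TL, step]
    · simp [TL, step]

theorem step_HPy {bl br : Bool} {k : ℕ} {u : St A} : (TL A).step (.HPy bl br k) u ↔
    u = .gate bl br (.A []) ∨ u = .HD bl br := by
  constructor
  · intro h
    cases u with
    | gate bl' br' t =>
      simp only [TL, step] at h
      obtain ⟨rfl, rfl, rfl⟩ := h
      exact Or.inl rfl
    | HD bl' br' =>
      simp only [TL, step] at h
      obtain ⟨rfl, rfl⟩ := h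
      exact Or.inr rfl
    | _ => simp [TL, step] at h
  · rintro (rfl | rfl)
    · simp [TL, step]
    · simp [TL, step]

theorem step_tg {n : ℕ} {s u : St A} : (TL A).step (.tg n s) u ↔ u = s := by
  simp [TL, step]

theorem step_Z {u : St A} : (TL A).step .Z u ↔ u ∈ listZ A := by
  simp [TL, step]

theorem step_root {u : St A} : (TL A).step .root u ↔ u ∈ listRoot A := by
  simp [TL, step]

end Pool.Agent.MP_387a72_lc
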