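import Pool.Agent.MP_387a72_lc.Game
import Pool.Agent.MP_387a72_lc.Order

/-!
# The games attached to a pair of linear orders
-/

namespace Pool.Agent.MP_387a72_lc

open Set

/-! ### Back and forth -/

theorem back_forth_strong {A B : Type} [LinearOrder A] [LinearOrder B] [Countable A] [Countable B]
    [Nonempty B] (SA : Set A) (SB : Set B) (S : List (A × B) → Prop)
    (hgood : ∀ l, S l → ∀ x ∈ l, ∀ y ∈ l, (x.1 ≤ y.1 ↔ x.2 ≤ y.2))
    (hsub : ∀ l, S l → ∀ x ∈ l, x.1 ∈ SA ∧ x.2 ∈ SB)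
    (forth : ∀ l, S l → ∀ a ∈ SA, ∃ b, S ((a, b) :: l))
    (back : ∀ l, S l → ∀ b ∈ SB, ∃ a, S ((a, b) :: l))
    (l0 : List (A × B)) (h0 : S l0) :
    ∃ f : A → B, StrictMonoOn f SA ∧ f '' SA = SB ∧ (∀ x ∈ l0, f x.1 = x.2) ∧
      ∀ a ∈ SA, ∃ l, S l ∧ (a, f a) ∈ l := by
  classical
  obtain ⟨eA, heA⟩ := exists_surjective_nat (Option A)
  obtain ⟨eB, heB⟩ := exists_surjective_nat (Option B)
  have hstep : ∀ (n : ℕ) (l : {l // S l}), ∃ l' : {l // S l}, l.1 ⊆ l'.1 ∧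
      (∀ a ∈ SA, eA n = some a → ∃ b, (a, b) ∈ l'.1) ∧
      (∀ b ∈ SB, eB n = some b → ∃ a, (a, b) ∈ l'.1) := by
    rintro n ⟨l, hl⟩
    obtain ⟨l1, hl1, h1, h2⟩ : ∃ l1, S l1 ∧ l ⊆ l1 ∧
        ∀ a ∈ SA, eA n = some a → ∃ b, (a, b) ∈ l1 := by
      by_cases h : ∃ a ∈ SA, eA n = some a
      · obtain ⟨a, ha, hna⟩ := h
        obtain ⟨b, hb⟩ := forth l hl a ha
        refine ⟨_, hb, List.subset_cons_self _ _, ?_⟩
        intro a' _ ha'
        rw [hna] at ha'; cases ha'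
        exact ⟨b, by simp⟩
      · exact ⟨l, hl, List.Subset.refl _, fun a ha hna => absurd ⟨a, ha, hna⟩ h⟩
    obtain ⟨l2, hl2, h3, h4⟩ : ∃ l2, S l2 ∧ l1 ⊆ l2 ∧
        ∀ b ∈ SB, eB n = some b → ∃ a, (a, b) ∈ l2 := by
      by_cases h : ∃ b ∈ SB, eB n = some b
      · obtain ⟨b, hb, hnb⟩ := h
        obtain ⟨a, ha⟩ := back l1 hl1 b hb
        refine ⟨_, ha, List.subset_cons_self _ _, ?_⟩
        intro b' _ hb'
        rw [hnb] at hb'; cases hb'
        exact ⟨a, by simp⟩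
      · exact ⟨l1, hl1, List.Subset.refl _, fun b hb hnb => absurd ⟨b, hb, hnb⟩ h⟩
    refine ⟨⟨l2, hl2⟩, fun x hx => h3 (h1 hx), ?_, h4⟩
    intro a ha hna
    obtain ⟨b, hb⟩ := h2 a ha hna
    exact ⟨b, h3 hb⟩
  choose stp hs1 hs2 hs3 using hstep
  let L : ℕ → {l // S l} := fun n => Nat.rec ⟨l0, h0⟩ (fun n l => stp n l) n
  have hL1 : ∀ n, (L n).1 ⊆ (L (n+1)).1 := fun n => hs1 n (L n)
  have hmono : ∀ n k, (L n).1 ⊆ (L (n+k)).1 := by
    intro n k
    induction k with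
    | zero => exact List.Subset.refl _
    | succ k ih => exact fun x hx => hL1 (n+k) (ih hx)
  have hcommon : ∀ {x y : A × B} {n m : ℕ}, x ∈ (L n).1 → y ∈ (L m).1 →
      (x.1 ≤ y.1 ↔ x.2 ≤ y.2) := by
    intro x y n m hx hy
    have hx' : x ∈ (L (n+m)).1 := hmono n m hx
    have hy' : y ∈ (L (n+m)).1 := by rw [add_comm]; exact hmono m n hy
    exact hgood _ (L (n+m)).2 x hx' y hy'
  have huniq : ∀ {a : A} {b b' : B} {n m : ℕ}, (a, b) ∈ (L n).1 → (a, b') ∈ (L m).1 → b = b' := by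
    intro a b b' n m h h'
    exact le_antisymm ((hcommon h h').1 le_rfl) ((hcommon h' h).1 le_rfl)
  have hex : ∀ a : A, ∃ b : B, a ∈ SA → ∃ n, (a, b) ∈ (L n).1 := by
    intro a
    by_cases ha : a ∈ SA
    · obtain ⟨n, hn⟩ := heA (some a)
      obtain ⟨b, hb⟩ := hs2 n (L n) a ha hn
      exact ⟨b, fun _ => ⟨n+1, hb⟩⟩
    · exact ⟨Classical.arbitrary B, fun h => absurd h ha⟩
  choose f hf using hex
  refine ⟨f, ?_, ?_, ?_, ?_⟩
  rotate_left 3
  · intro a ha
    obtain ⟨n, hn⟩ := hf a ha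
    exact ⟨(L n).1, (L n).2, hn⟩
  · intro a ha a' ha' haa'
    obtain ⟨n, hn⟩ := hf a ha
    obtain ⟨m, hm⟩ := hf a' ha'
    rw [← not_le]
    intro hle
    exact absurd ((hcommon hm hn).2 hle) (not_le.2 haa')
  · ext b
    constructor
    · rintro ⟨a, ha, rfl⟩
      obtain ⟨n, hn⟩ := hf a ha
      exact (hsub _ (L n).2 _ hn).2
    · intro hb
      obtain ⟨n, hn⟩ := heB (some b)
      obtain ⟨a, ha⟩ := hs3 n (L n) b hb hn
      have ha' : (a, b) ∈ (L (n+1)).1 := ha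
      have haS : a ∈ SA := (hsub _ (L (n+1)).2 _ ha').1
      obtain ⟨m, hm⟩ := hf a haS
      exact ⟨a, haS, huniq (m := n+1) hm ha'⟩
  · rintro ⟨a, b⟩ hx
    have hx' : (a, b) ∈ (L 0).1 := hx
    have haS : a ∈ SA := (hsub _ (L 0).2 _ hx').1
    obtain ⟨m, hm⟩ := hf a haS
    exact huniq (m := 0) hm hx'

theorem back_forth {A B : Type} [LinearOrder A] [LinearOrder B] [Countable A] [Countable B]
    [Nonempty B] (SA : Set A) (SB : Set B) (S : List (A × B) → Prop)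
    (hgood : ∀ l, S l → ∀ x ∈ l, ∀ y ∈ l, (x.1 ≤ y.1 ↔ x.2 ≤ y.2))
    (hsub : ∀ l, S l → ∀ x ∈ l, x.1 ∈ SA ∧ x.2 ∈ SB)
    (forth : ∀ l, S l → ∀ a ∈ SA, ∃ b, S ((a, b) :: l))
    (back : ∀ l, S l → ∀ b ∈ SB, ∃ a, S ((a, b) :: l))
    (l0 : List (A × B)) (h0 : S l0) :
    ∃ f : A → B, StrictMonoOn f SA ∧ f '' SA = SB ∧ ∀ x ∈ l0, f x.1 = x.2 := by
  obtain ⟨f, h1, h2, h3, -⟩ := back_forth_strong SA SB S hgood hsub forth back l0 h0
  exact ⟨f, h1, h2, h3⟩

/-! ### Obligations and challenges -/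

inductive Ch (A B : Type) : Type
  | isoF (p q : A) (p' q' : B) (l : List (A × B)) (a : A) : Ch A B
  | isoB (p q : A) (p' q' : B) (l : List (A × B)) (b : B) : Ch A B
  | left (x' x : A) (z c : B) : Ch A B
  | right (y y' : A) (d w : B) : Ch A B
  | rt (x y : A) : Ch A B

inductive Ob (A B : Type) : Type
  | root : Ob A B
  | trip (x y : A) (z c d w : B) : Ob A B
  | par (p q : A) (p' q' : B) (l : List (A × B)) : Ob A B
  | single (c : Ch A B) : Ob A B
  | triv : Ob A B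

variable {A B A' B' : Type} [LinearOrder A] [LinearOrder B] [LinearOrder A'] [LinearOrder B']

/-- The finite relation `l` is an order isomorphism. -/
def Good (l : List (A × B)) : Prop := ∀ x ∈ l, ∀ y ∈ l, (x.1 ≤ y.1 ↔ x.2 ≤ y.2)

def chalPar (p q : A) (p' q' : B) (l : List (A × B)) (ch : Ch A B) : Prop :=
  (∃ a, p ≤ a ∧ a ≤ q ∧ ch = .isoF p q p' q' l a) ∨
  (∃ b, p' ≤ b ∧ b ≤ q' ∧ ch = .isoB p q p' q' l b)

def chal : Ob A B → Ch A B → Prop
  | .root, ch => ∃ x y, x ≤ y ∧ ch = .rt x y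
  | .trip x y z c d w, ch => chalPar x y c d [] ch ∨ (∃ x', x' ≤ x ∧ ch = .left x' x z c) ∨
      (∃ y', y ≤ y' ∧ ch = .right y y' d w)
  | .par p q p' q' l, ch => chalPar p q p' q' l ch
  | .single c, ch => ch = c
  | .triv, _ => False

def resp (bl br : Bool) : Ch A B → Ob A B → Prop
  | .isoF p q p' q' l a, o =>
      ∃ b, p' ≤ b ∧ b ≤ q' ∧ Good ((a, b) :: l) ∧ o = .par p q p' q' ((a, b) :: l)
  | .isoB p q p' q' l b, o =>
      ∃ a, p ≤ a ∧ a ≤ q ∧ Good ((a, b) :: l) ∧ o = .par p q p' q' ((a, b) :: l)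
  | .left x' x z c, o => ∃ c', c' ≤ c ∧ (bl = true → ¬ c' ≤ z) ∧ o = .par x' x c' c []
  | .right y y' d w, o => ∃ d', d ≤ d' ∧ (br = true → ¬ w ≤ d') ∧ o = .par y y' d d' []
  | .rt x y, o => (x ≤ y ∧ ∃ z c d w, c ≤ d ∧ (bl = true → ¬ c ≤ z) ∧
      (br = true → ¬ w ≤ d) ∧ o = .trip x y z c d w) ∨ (¬ x ≤ y ∧ o = .triv)

/-- The game for the existence of a convex embedding of `A` into `B`, bounded on the left (if
`bl`) and on the right (if `br`). -/
def gm (A B : Type) [LinearOrder A] [LinearOrder B] (bl br : Bool) : Game (Ob A B) (Ch A B) where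
  chal := chal
  resp := resp bl br
  root := .root
  single := .single
  single_iff := fun _ _ => Iff.rfl

variable {bl br : Bool}

theorem satC_isoF (α : Ordinal.{0}) (p q : A) (p' q' : B) (l : List (A × B)) (a : A) :
    (gm A B bl br).SatC α (.isoF p q p' q' l a) ↔ ∀ β < α, ∃ b, p' ≤ b ∧ b ≤ q' ∧
      Good ((a, b) :: l) ∧ (gm A B bl br).SatO β (.par p q p' q' ((a, b) :: l)) := by
  rw [Game.satC_iff]
  refine forall₂_congr fun β _ => ?_
  constructor
  · rintro ⟨_, ⟨b, h1, h2, h3, rfl⟩, h4⟩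
    exact ⟨b, h1, h2, h3, h4⟩
  · rintro ⟨b, h1, h2, h3, h4⟩
    exact ⟨_, ⟨b, h1, h2, h3, rfl⟩, h4⟩

theorem satC_isoB (α : Ordinal.{0}) (p q : A) (p' q' : B) (l : List (A × B)) (b : B) :
    (gm A B bl br).SatC α (.isoB p q p' q' l b) ↔ ∀ β < α, ∃ a, p ≤ a ∧ a ≤ q ∧
      Good ((a, b) :: l) ∧ (gm A B bl br).SatO β (.par p q p' q' ((a, b) :: l)) := by
  rw [Game.satC_iff]
  refine forall₂_congr fun β _ => ?_
  constructor
  · rintro ⟨_, ⟨b, h1, h2, h3, rfl⟩, h4⟩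
    exact ⟨b, h1, h2, h3, h4⟩
  · rintro ⟨b, h1, h2, h3, h4⟩
    exact ⟨_, ⟨b, h1, h2, h3, rfl⟩, h4⟩

theorem satC_left (α : Ordinal.{0}) (x' x : A) (z c : B) :
    (gm A B bl br).SatC α (.left x' x z c) ↔ ∀ β < α, ∃ c', c' ≤ c ∧
      (bl = true → ¬ c' ≤ z) ∧ (gm A B bl br).SatO β (.par x' x c' c []) := by
  rw [Game.satC_iff]
  refine forall₂_congr fun β _ => ?_
  constructor
  · rintro ⟨_, ⟨b, h1, h2, rfl⟩, h4⟩
    exact ⟨b, h1, h2, h4⟩
  · rintro ⟨b, h1, h2, h4⟩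
    exact ⟨_, ⟨b, h1, h2, rfl⟩, h4⟩

theorem satC_right (α : Ordinal.{0}) (y y' : A) (d w : B) :
    (gm A B bl br).SatC α (.right y y' d w) ↔ ∀ β < α, ∃ d', d ≤ d' ∧
      (br = true → ¬ w ≤ d') ∧ (gm A B bl br).SatO β (.par y y' d d' []) := by
  rw [Game.satC_iff]
  refine forall₂_congr fun β _ => ?_
  constructor
  · rintro ⟨_, ⟨b, h1, h2, rfl⟩, h4⟩
    exact ⟨b, h1, h2, h4⟩
  · rintro ⟨b, h1, h2, h4⟩
    exact ⟨_, ⟨b, h1, h2, rfl⟩, h4⟩

theorem satC_rt (α : Ordinal.{0}) {x y : A} (hxy : x ≤ y) :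
    (gm A B bl br).SatC α (.rt x y) ↔ ∀ β < α, ∃ z c d w, c ≤ d ∧
      (bl = true → ¬ c ≤ z) ∧ (br = true → ¬ w ≤ d) ∧
      (gm A B bl br).SatO β (.trip x y z c d w) := by
  rw [Game.satC_iff]
  refine forall₂_congr fun β _ => ?_
  constructor
  · rintro ⟨_, (⟨-, z, c, d, w, h1, h2, h3, rfl⟩ | ⟨h, -⟩), h4⟩
    · exact ⟨z, c, d, w, h1, h2, h3, h4⟩
    · exact absurd hxy h
  · rintro ⟨z, c, d, w, h1, h2, h3, h4⟩
    exact ⟨_, Or.inl ⟨hxy, z, c, d, w, h1, h2, h3, rfl⟩, h4⟩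

theorem satO_par (α : Ordinal.{0}) (p q : A) (p' q' : B) (l : List (A × B)) :
    (gm A B bl br).SatO α (.par p q p' q' l) ↔
      (∀ a, p ≤ a → a ≤ q → (gm A B bl br).SatC α (.isoF p q p' q' l a)) ∧
      (∀ b, p' ≤ b → b ≤ q' → (gm A B bl br).SatC α (.isoB p q p' q' l b)) := by
  constructor
  · intro h
    exact ⟨fun a h1 h2 => h _ (Or.inl ⟨a, h1, h2, rfl⟩),
      fun b h1 h2 => h _ (Or.inr ⟨b, h1, h2, rfl⟩)⟩
  · rintro ⟨h1, h2⟩ _ (⟨a, h3, h4, rfl⟩ | ⟨b, h3, h4, rfl⟩)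
    · exact h1 a h3 h4
    · exact h2 b h3 h4

theorem satO_trip (α : Ordinal.{0}) (x y : A) (z c d w : B) :
    (gm A B bl br).SatO α (.trip x y z c d w) ↔
      (gm A B bl br).SatO α (.par x y c d []) ∧
      (∀ x', x' ≤ x → (gm A B bl br).SatC α (.left x' x z c)) ∧
      (∀ y', y ≤ y' → (gm A B bl br).SatC α (.right y y' d w)) := by
  constructor
  · intro h
    refine ⟨fun ch hch => h ch (Or.inl hch), fun x' hx' => h _ (Or.inr (Or.inl ⟨x', hx', rfl⟩)),
      fun y' hy' => h _ (Or.inr (Or.inr ⟨y', hy', rfl⟩))⟩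
  · rintro ⟨h1, h2, h3⟩ ch (hch | ⟨x', hx', rfl⟩ | ⟨y', hy', rfl⟩)
    · exact h1 ch hch
    · exact h2 x' hx'
    · exact h3 y' hy'

theorem satO_root (α : Ordinal.{0}) :
    (gm A B bl br).SatO α .root ↔ ∀ x y : A, x ≤ y → (gm A B bl br).SatC α (.rt x y) := by
  constructor
  · intro h x y hxy; exact h _ ⟨x, y, hxy, rfl⟩
  · rintro h _ ⟨x, y, hxy, rfl⟩; exact h x y hxy

/-! ### Transfer along convex embeddings -/

theorem ConvexEmb.le_iff {f : A → B} (hf : ConvexEmb f) {a b : A} : f a ≤ f b ↔ a ≤ b :=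
  hf.1.le_iff_le

theorem ConvexEmb.mem {f : A → B} (hf : ConvexEmb f) {a b : A} {t : B} (h1 : f a ≤ t)
    (h2 : t ≤ f b) : ∃ s, f s = t := hf.2.out ⟨a, rfl⟩ ⟨b, rfl⟩ ⟨h1, h2⟩

theorem ConvexEmb.id : ConvexEmb (fun a : A => a) :=
  ⟨strictMono_id, by simpa using (ordConnected_univ (α := A))⟩

theorem good_map {u : A → A'} {v : B → B'} (hu : ConvexEmb u) (hv : ConvexEmb v)
    (l : List (A × B)) : Good (l.map (Prod.map u v)) ↔ Good l := by
  unfold Good
  constructor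
  · intro h x hx y hy
    have := h (Prod.map u v x) (List.mem_map_of_mem hx) (Prod.map u v y) (List.mem_map_of_mem hy)
    simpa only [Prod.map_fst, Prod.map_snd, hu.le_iff, hv.le_iff] using this
  · intro h x hx y hy
    obtain ⟨x', hx', rfl⟩ := List.mem_map.1 hx
    obtain ⟨y', hy', rfl⟩ := List.mem_map.1 hy
    simpa only [Prod.map_fst, Prod.map_snd, hu.le_iff, hv.le_iff] using h x' hx' y' hy'

theorem par_transfer {u : A → A'} {v : B → B'} (hu : ConvexEmb u) (hv : ConvexEmb v)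
    (α : Ordinal.{0}) : ∀ (p q : A) (p' q' : B) (l : List (A × B)),
    ((gm A B bl br).SatO α (.par p q p' q' l) ↔
      (gm A' B' bl br).SatO α (.par (u p) (u q) (v p') (v q') (l.map (Prod.map u v)))) := by
  induction α using WellFoundedLT.induction with
  | ind α ih =>
  intro p q p' q' l
  rw [satO_par, satO_par]
  refine and_congr ?_ ?_
  · constructor
    · intro h a h1 h2
      obtain ⟨a, rfl⟩ := hu.mem h1 h2
      have h3 := h a (hu.le_iff.1 h1) (hu.le_iff.1 h2)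
      rw [satC_isoF] at h3 ⊢
      intro β hβ
      obtain ⟨b, h4, h5, h6, h7⟩ := h3 β hβ
      refine ⟨v b, hv.le_iff.2 h4, hv.le_iff.2 h5, ?_, ?_⟩
      · have := (good_map hu hv ((a, b) :: l)).2 h6
        simpa using this
      · have := (ih β hβ p q p' q' ((a, b) :: l)).1 h7
        simpa using this
    · intro h a h1 h2
      have h3 := h (u a) (hu.le_iff.2 h1) (hu.le_iff.2 h2)
      rw [satC_isoF] at h3 ⊢
      intro β hβ
      obtain ⟨b, h4, h5, h6, h7⟩ := h3 β hβ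
      obtain ⟨b, rfl⟩ := hv.mem h4 h5
      refine ⟨b, hv.le_iff.1 h4, hv.le_iff.1 h5, ?_, ?_⟩
      · apply (good_map hu hv ((a, b) :: l)).1
        simpa using h6
      · apply (ih β hβ p q p' q' ((a, b) :: l)).2
        simpa using h7
  · constructor
    · intro h b h1 h2
      obtain ⟨b, rfl⟩ := hv.mem h1 h2
      have h3 := h b (hv.le_iff.1 h1) (hv.le_iff.1 h2)
      rw [satC_isoB] at h3 ⊢
      intro β hβ
      obtain ⟨a, h4, h5, h6, h7⟩ := h3 β hβ
      refine ⟨u a, hu.le_iff.2 h4, hu.le_iff.2 h5, ?_, ?_⟩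
      · have := (good_map hu hv ((a, b) :: l)).2 h6
        simpa using this
      · have := (ih β hβ p q p' q' ((a, b) :: l)).1 h7
        simpa using this
    · intro h b h1 h2
      have h3 := h (v b) (hv.le_iff.2 h1) (hv.le_iff.2 h2)
      rw [satC_isoB] at h3 ⊢
      intro β hβ
      obtain ⟨a, h4, h5, h6, h7⟩ := h3 β hβ
      obtain ⟨a, rfl⟩ := hu.mem h4 h5
      refine ⟨a, hu.le_iff.1 h4, hu.le_iff.1 h5, ?_, ?_⟩
      · apply (good_map hu hv ((a, b) :: l)).1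
        simpa using h6
      · apply (ih β hβ p q p' q' ((a, b) :: l)).2
        simpa using h7

theorem isoF_transfer {u : A → A'} {v : B → B'} (hu : ConvexEmb u) (hv : ConvexEmb v)
    (α : Ordinal.{0}) (p q : A) (p' q' : B) (l : List (A × B)) (a : A) :
    ((gm A B bl br).SatC α (.isoF p q p' q' l a) ↔
      (gm A' B' bl br).SatC α (.isoF (u p) (u q) (v p') (v q') (l.map (Prod.map u v)) (u a))) := by
  rw [satC_isoF, satC_isoF]
  refine forall₂_congr fun β _ => ?_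
  constructor
  · rintro ⟨b, h4, h5, h6, h7⟩
    refine ⟨v b, hv.le_iff.2 h4, hv.le_iff.2 h5, ?_, ?_⟩
    · have := (good_map hu hv ((a, b) :: l)).2 h6
      simpa using this
    · have := (par_transfer hu hv β p q p' q' ((a, b) :: l)).1 h7
      simpa using this
  · rintro ⟨b, h4, h5, h6, h7⟩
    obtain ⟨b, rfl⟩ := hv.mem h4 h5
    refine ⟨b, hv.le_iff.1 h4, hv.le_iff.1 h5, ?_, ?_⟩
    · apply (good_map hu hv ((a, b) :: l)).1
      simpa using h6
    · apply (par_transfer hu hv β p q p' q' ((a, b) :: l)).2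
      simpa using h7

theorem isoB_transfer {u : A → A'} {v : B → B'} (hu : ConvexEmb u) (hv : ConvexEmb v)
    (α : Ordinal.{0}) (p q : A) (p' q' : B) (l : List (A × B)) (b : B) :
    ((gm A B bl br).SatC α (.isoB p q p' q' l b) ↔
      (gm A' B' bl br).SatC α (.isoB (u p) (u q) (v p') (v q') (l.map (Prod.map u v)) (v b))) := by
  rw [satC_isoB, satC_isoB]
  refine forall₂_congr fun β _ => ?_
  constructor
  · rintro ⟨a, h4, h5, h6, h7⟩
    refine ⟨u a, hu.le_iff.2 h4, hu.le_iff.2 h5, ?_, ?_⟩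
    · have := (good_map hu hv ((a, b) :: l)).2 h6
      simpa using this
    · have := (par_transfer hu hv β p q p' q' ((a, b) :: l)).1 h7
      simpa using this
  · rintro ⟨a, h4, h5, h6, h7⟩
    obtain ⟨a, rfl⟩ := hu.mem h4 h5
    refine ⟨a, hu.le_iff.1 h4, hu.le_iff.1 h5, ?_, ?_⟩
    · apply (good_map hu hv ((a, b) :: l)).1
      simpa using h6
    · apply (par_transfer hu hv β p q p' q' ((a, b) :: l)).2
      simpa using h7

/-- One direction of the transfer for left challenges; no condition is needed. -/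
theorem left_push {u : A → A'} {v : B → B'} (hu : ConvexEmb u) (hv : ConvexEmb v)
    (α : Ordinal.{0}) (x' x : A) (z c : B) (h : (gm A B bl br).SatC α (.left x' x z c)) :
    (gm A' B' bl br).SatC α (.left (u x') (u x) (v z) (v c)) := by
  rw [satC_left] at h ⊢
  intro β hβ
  obtain ⟨c', h1, h2, h3⟩ := h β hβ
  exact ⟨v c', hv.le_iff.2 h1, fun hb => by rw [hv.le_iff]; exact h2 hb,
    (par_transfer hu hv β x' x c' c []).1 h3⟩

theorem right_push {u : A → A'} {v : B → B'} (hu : ConvexEmb u) (hv : ConvexEmb v)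
    (α : Ordinal.{0}) (y y' : A) (d w : B) (h : (gm A B bl br).SatC α (.right y y' d w)) :
    (gm A' B' bl br).SatC α (.right (u y) (u y') (v d) (v w)) := by
  rw [satC_right] at h ⊢
  intro β hβ
  obtain ⟨d', h1, h2, h3⟩ := h β hβ
  exact ⟨v d', hv.le_iff.2 h1, fun hb => by rw [hv.le_iff]; exact h2 hb,
    (par_transfer hu hv β y y' d d' []).1 h3⟩

theorem left_pull {u : A → A'} {v : B → B'} (hu : ConvexEmb u) (hv : ConvexEmb v)
    (hvl : bl = false → ∀ b t, t ≤ v b → ∃ s, v s = t)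
    (α : Ordinal.{0}) (x' x : A) (z c : B)
    (h : (gm A' B' bl br).SatC α (.left (u x') (u x) (v z) (v c))) :
    (gm A B bl br).SatC α (.left x' x z c) := by
  rw [satC_left] at h ⊢
  intro β hβ
  obtain ⟨c', h1, h2, h3⟩ := h β hβ
  have h4 : ∃ s, v s = c' := by
    cases hbl : bl with
    | false => exact hvl hbl c c' h1
    | true => exact hv.mem (not_le.1 (h2 hbl)).le h1
  obtain ⟨c', rfl⟩ := h4
  exact ⟨c', hv.le_iff.1 h1, fun hb => by have := h2 hb; rwa [hv.le_iff] at this,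
    (par_transfer hu hv β x' x c' c []).2 h3⟩

theorem right_pull {u : A → A'} {v : B → B'} (hu : ConvexEmb u) (hv : ConvexEmb v)
    (hvr : br = false → ∀ b t, v b ≤ t → ∃ s, v s = t)
    (α : Ordinal.{0}) (y y' : A) (d w : B)
    (h : (gm A' B' bl br).SatC α (.right (u y) (u y') (v d) (v w))) :
    (gm A B bl br).SatC α (.right y y' d w) := by
  rw [satC_right] at h ⊢
  intro β hβ
  obtain ⟨d', h1, h2, h3⟩ := h β hβ
  have h4 : ∃ s, v s = d' := by
    cases hbr : br with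
    | false => exact hvr hbr d d' h1
    | true => exact hv.mem h1 (not_le.1 (h2 hbr)).le
  obtain ⟨d', rfl⟩ := h4
  exact ⟨d', hv.le_iff.1 h1, fun hb => by have := h2 hb; rwa [hv.le_iff] at this,
    (par_transfer hu hv β y y' d d' []).2 h3⟩

/-- The root is contravariant in the first order. -/
theorem root_left {u : A → A'} (hu : ConvexEmb u) {α : Ordinal.{0}}
    (h : (gm A' B bl br).SatO α .root) : (gm A B bl br).SatO α .root := by
  rw [satO_root] at h ⊢
  intro x y hxy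
  have h1 := h (u x) (u y) (hu.le_iff.2 hxy)
  rw [satC_rt _ (hu.le_iff.2 hxy)] at h1
  rw [satC_rt _ hxy]
  intro β hβ
  obtain ⟨z, c, d, w, h2, h3, h4, h5⟩ := h1 β hβ
  refine ⟨z, c, d, w, h2, h3, h4, ?_⟩
  rw [satO_trip] at h5 ⊢
  obtain ⟨h6, h7, h8⟩ := h5
  refine ⟨?_, ?_, ?_⟩
  · exact (par_transfer hu (ConvexEmb.id (A := B)) β x y c d []).2 h6
  · intro x' hx'
    have h9 := h7 (u x') (hu.le_iff.2 hx')
    rw [satC_left] at h9 ⊢
    intro γ hγ
    obtain ⟨c', k1, k2, k3⟩ := h9 γ hγ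
    exact ⟨c', k1, k2, (par_transfer hu (ConvexEmb.id (A := B)) γ x' x c' c []).2 k3⟩
  · intro y' hy'
    have h9 := h8 (u y') (hu.le_iff.2 hy')
    rw [satC_right] at h9 ⊢
    intro γ hγ
    obtain ⟨d', k1, k2, k3⟩ := h9 γ hγ
    exact ⟨d', k1, k2, (par_transfer hu (ConvexEmb.id (A := B)) γ y y' d d' []).2 k3⟩

/-- The root is covariant in the second order. -/
theorem root_right {v : B → B'} (hv : ConvexEmb v) {α : Ordinal.{0}}
    (h : (gm A B bl br).SatO α .root) : (gm A B' bl br).SatO α .root := by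
  rw [satO_root] at h ⊢
  intro x y hxy
  have h1 := h x y hxy
  rw [satC_rt _ hxy] at h1 ⊢
  intro β hβ
  obtain ⟨z, c, d, w, h2, h3, h4, h5⟩ := h1 β hβ
  refine ⟨v z, v c, v d, v w, hv.le_iff.2 h2, fun hb => by rw [hv.le_iff]; exact h3 hb,
    fun hb => by rw [hv.le_iff]; exact h4 hb, ?_⟩
  rw [satO_trip] at h5 ⊢
  obtain ⟨h6, h7, h8⟩ := h5
  refine ⟨?_, ?_, ?_⟩
  · exact (par_transfer (ConvexEmb.id (A := A)) hv β x y c d []).1 h6
  · intro x' hx'
    exact left_push (ConvexEmb.id (A := A)) hv β x' x z c (h7 x' hx')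
  · intro y' hy'
    exact right_push (ConvexEmb.id (A := A)) hv β y y' d w (h8 y' hy')

/-! ### Winning the root -/

theorem iso_of_par [Countable A] [Countable B] [Nonempty B] {p q : A} {p' q' : B}
    (h : ∀ α, (gm A B bl br).SatO α (.par p q p' q' [])) : IsoS (Icc p q) (Icc p' q') := by
  have key : ∃ f : A → B, StrictMonoOn f (Icc p q) ∧ f '' (Icc p q) = Icc p' q' ∧
      ∀ x ∈ ([] : List (A × B)), f x.1 = x.2 := by
    refine back_forth (Icc p q) (Icc p' q')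
      (fun l => Good l ∧ (∀ x ∈ l, x.1 ∈ Icc p q ∧ x.2 ∈ Icc p' q') ∧
        ∀ α, (gm A B bl br).SatO α (.par p q p' q' l))
      (fun l hl => hl.1) (fun l hl => hl.2.1) ?_ ?_ [] ?_
    rotate_left 2
    · exact ⟨fun x hx => absurd hx List.not_mem_nil, fun x hx => absurd hx List.not_mem_nil, h⟩
    · rintro l ⟨h1, h2, h3⟩ a ha
      have h4 : ∀ α, (gm A B bl br).SatC α (.isoF p q p' q' l a) := fun α =>
        ((satO_par α p q p' q' l).1 (h3 α)).1 a ha.1 ha.2
      obtain ⟨o, ⟨b, hb1, hb2, hb3, rfl⟩, ho⟩ := Game.exists_resp_univ _ h4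
      refine ⟨b, hb3, ?_, ho⟩
      intro x hx
      rcases List.mem_cons.1 hx with rfl | hx
      · exact ⟨ha, hb1, hb2⟩
      · exact h2 x hx
    · rintro l ⟨h1, h2, h3⟩ b hb
      have h4 : ∀ α, (gm A B bl br).SatC α (.isoB p q p' q' l b) := fun α =>
        ((satO_par α p q p' q' l).1 (h3 α)).2 b hb.1 hb.2
      obtain ⟨o, ⟨a, hb1, hb2, hb3, rfl⟩, ho⟩ := Game.exists_resp_univ _ h4
      refine ⟨a, hb3, ?_, ho⟩
      intro x hx
      rcases List.mem_cons.1 hx with rfl | hx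
      · exact ⟨⟨hb1, hb2⟩, hb⟩
      · exact h2 x hx
  obtain ⟨f, h1, h2, -⟩ := key
  exact ⟨f, h1, h2⟩


theorem par_of_iso {p q : A} {p' q' : B} {f : A → B} (hf : StrictMonoOn f (Icc p q))
    (hfi : f '' Icc p q = Icc p' q') (α : Ordinal.{0}) :
    ∀ l : List (A × B), (∀ x ∈ l, x.1 ∈ Icc p q ∧ f x.1 = x.2) →
      (gm A B bl br).SatO α (.par p q p' q' l) := by
  have hgood : ∀ l : List (A × B), (∀ x ∈ l, x.1 ∈ Icc p q ∧ f x.1 = x.2) → Good l := by
    intro l hl x hx y hy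
    rw [← (hl x hx).2, ← (hl y hy).2, hf.le_iff_le (hl x hx).1 (hl y hy).1]
  induction α using WellFoundedLT.induction with
  | ind α ih =>
  intro l hl
  rw [satO_par]
  constructor
  · intro a h1 h2
    rw [satC_isoF]
    intro β hβ
    have h3 : ∀ x ∈ (a, f a) :: l, x.1 ∈ Icc p q ∧ f x.1 = x.2 := by
      intro x hx
      rcases List.mem_cons.1 hx with rfl | hx
      · exact ⟨⟨h1, h2⟩, rfl⟩
      · exact hl x hx
    have h4 := icc_mem hfi h1 h2
    exact ⟨f a, h4.1, h4.2, hgood _ h3, ih β hβ _ h3⟩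
  · intro b h1 h2
    rw [satC_isoB]
    intro β hβ
    have hb : b ∈ f '' Icc p q := by rw [hfi]; exact ⟨h1, h2⟩
    obtain ⟨a, ha, rfl⟩ := hb
    have h3 : ∀ x ∈ (a, f a) :: l, x.1 ∈ Icc p q ∧ f x.1 = x.2 := by
      intro x hx
      rcases List.mem_cons.1 hx with rfl | hx
      · exact ⟨ha, rfl⟩
      · exact hl x hx
    exact ⟨a, ha.1, ha.2, hgood _ h3, ih β hβ _ h3⟩

theorem ConvexEmb.image_Icc {f : A → B} (hf : ConvexEmb f) (a b : A) :
    f '' Icc a b = Icc (f a) (f b) := by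
  ext t
  constructor
  · rintro ⟨s, hs, rfl⟩
    exact ⟨hf.le_iff.2 hs.1, hf.le_iff.2 hs.2⟩
  · rintro ⟨h1, h2⟩
    obtain ⟨s, rfl⟩ := hf.mem h1 h2
    exact ⟨s, ⟨hf.le_iff.1 h1, hf.le_iff.1 h2⟩, rfl⟩

theorem ConvexEmb.par {f : A → B} (hf : ConvexEmb f) (a b : A) (α : Ordinal.{0}) :
    (gm A B bl br).SatO α (.par a b (f a) (f b) []) :=
  par_of_iso (hf.1.strictMonoOn _) (hf.image_Icc a b) α [] (fun _ hx => absurd hx List.not_mem_nil)

/-- There is a bounded convex embedding. -/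
def BEmb (A B : Type) [LinearOrder A] [LinearOrder B] (bl br : Bool) : Prop :=
  ∃ f : A → B, ConvexEmb f ∧ ∃ z w : B, ∀ a, (bl = true → z < f a) ∧ (br = true → f a < w)

theorem win_iff [Countable A] [Nonempty A] [Countable B] :
    (gm A B bl br).Win ↔ BEmb A B bl br := by
  constructor
  · intro h
    obtain ⟨x, y, hxy, hgp⟩ := exists_good_pair A
    have h0 : ∀ α, (gm A B bl br).SatC α (.rt x y) := by
      intro α
      have : α ∈ (gm A B bl br).VO (gm A B bl br).root := by rw [h]; trivial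
      exact (satO_root α).1 this x y hxy
    obtain ⟨_, (⟨-, z, c, d, w, h1, h2, h3, rfl⟩ | ⟨hcon, -⟩), h4⟩ :=
      Game.exists_resp_univ _ h0
    swap
    · exact absurd hxy hcon
    have hne : Nonempty B := ⟨c⟩
    obtain ⟨f, hf, hPQ⟩ := hgp B (fun b => bl = true → z < b) (fun b => br = true → b < w)
      (fun a b ha hab hb => (ha hb).trans_le hab) (fun a b ha hab hb => hab.trans_lt (ha hb))
      c d h1 (iso_of_par (fun α => ((satO_trip α x y z c d w).1 (h4 α)).1))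
      (by
        intro x' hx'
        obtain ⟨_, ⟨c', k1, k2, rfl⟩, k3⟩ := Game.exists_resp_univ _
          (fun α => ((satO_trip α x y z c d w).1 (h4 α)).2.1 x' hx')
        exact ⟨c', k1, fun hb => not_le.1 (k2 hb), iso_of_par k3⟩)
      (by
        intro y' hy'
        obtain ⟨_, ⟨d', k1, k2, rfl⟩, k3⟩ := Game.exists_resp_univ _
          (fun α => ((satO_trip α x y z c d w).1 (h4 α)).2.2 y' hy')
        exact ⟨d', k1, fun hb => not_le.1 (k2 hb), iso_of_par k3⟩)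
    exact ⟨f, hf, z, w, hPQ⟩
  · rintro ⟨f, hf, z, w, h⟩
    apply eq_univ_of_forall
    intro α
    show (gm A B bl br).SatO α .root
    rw [satO_root]
    intro x y hxy
    rw [satC_rt _ hxy]
    intro β _
    refine ⟨z, f x, f y, w, hf.le_iff.2 hxy, fun hb => not_le.2 ((h x).1 hb),
      fun hb => not_le.2 ((h y).2 hb), ?_⟩
    rw [satO_trip]
    refine ⟨hf.par x y β, ?_, ?_⟩
    · intro x' hx'
      rw [satC_left]
      intro γ _
      exact ⟨f x', hf.le_iff.2 hx', fun hb => not_le.2 ((h x').1 hb), hf.par x' x γ⟩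
    · intro y' hy'
      rw [satC_right]
      intro γ _
      exact ⟨f y', hf.le_iff.2 hy', fun hb => not_le.2 ((h y').2 hb), hf.par y y' γ⟩

/-! ### Comparing the games of two bi-embeddable orders -/

theorem root_sub {f : A → B} {g : B → A} (hf : ConvexEmb f) (hg : ConvexEmb g) :
    (gm A A bl br).VO .root ⊆ (gm B B bl br).VO .root :=
  fun _ h => root_right hf (root_left hg h)

theorem root_eq {f : A → B} {g : B → A} (hf : ConvexEmb f) (hg : ConvexEmb g) :
    (gm A A bl br).VO .root = (gm B B bl br).VO .root :=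
  Subset.antisymm (root_sub hf hg) (root_sub hg hf)

/-- `f` is onto an initial segment, if `b = false`. -/
def InitIf (b : Bool) (f : A → B) : Prop := b = false → ∀ a t, t ≤ f a → ∃ s, f s = t
def FinIf (b : Bool) (f : A → B) : Prop := b = false → ∀ a t, f a ≤ t → ∃ s, f s = t

theorem true_case {f : A → B} (hf : ConvexEmb f) (hl : InitIf bl f) (hr : FinIf br f)
    (h : (gm A A bl br).VO .root = univ) (c : Ch A A) (hc : (gm A A bl br).VC c ≠ univ) :
    ∃ c' : Ch B B, (gm B B bl br).VC c' = (gm A A bl br).VC c := by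
  cases c with
  | isoF p q p' q' l a =>
    exact ⟨_, Set.ext fun α => (isoF_transfer hf hf α p q p' q' l a).symm⟩
  | isoB p q p' q' l b =>
    exact ⟨_, Set.ext fun α => (isoB_transfer hf hf α p q p' q' l b).symm⟩
  | left x' x z c =>
    exact ⟨.left (f x') (f x) (f z) (f c), Set.ext fun α =>
      ⟨left_pull hf hf hl α x' x z c, left_push hf hf α x' x z c⟩⟩
  | right y y' d w =>
    exact ⟨.right (f y) (f y') (f d) (f w), Set.ext fun α =>
      ⟨right_pull hf hf hr α y y' d w, right_push hf hf α y y' d w⟩⟩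
  | rt x y =>
    by_cases hxy : x ≤ y
    · exfalso
      apply hc
      apply eq_univ_of_forall
      intro α
      have : α ∈ (gm A A bl br).VO .root := by rw [h]; trivial
      exact (satO_root α).1 this x y hxy
    · exfalso
      apply hc
      apply eq_univ_of_forall
      intro α
      show (gm A A bl br).SatC α _
      rw [Game.satC_iff]
      exact fun β _ => ⟨.triv, Or.inr ⟨hxy, rfl⟩, fun c' hc' => hc'.elim⟩

theorem vals_sub {f : A → B} {g : B → A} (hf : ConvexEmb f) (hg : ConvexEmb g)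
    (hcond : (gm A A bl br).Win → InitIf bl f ∧ FinIf br f) :
    (gm A A bl br).vals ⊆ (gm B B bl br).vals := by
  apply Game.vals_subset (root_eq hf hg)
  intro hw c hc
  exact true_case hf (hcond hw).1 (hcond hw).2 hw c hc

theorem vals_eq {f : A → B} {g : B → A} (hf : ConvexEmb f) (hg : ConvexEmb g)
    (hcond : (gm A A bl br).Win → InitIf bl f ∧ FinIf br f ∧ InitIf bl g ∧ FinIf br g) :
    (gm A A bl br).vals = (gm B B bl br).vals := by
  have hroot := root_eq (bl := bl) (br := br) hf hg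
  apply Subset.antisymm
  · exact vals_sub hf hg (fun h => ⟨(hcond h).1, (hcond h).2.1⟩)
  · apply vals_sub hg hf
    intro h
    have h' : (gm A A bl br).Win := hroot.trans h
    exact ⟨(hcond h').2.2.1, (hcond h').2.2.2⟩

theorem gates_bisim {f : A → B} {g : B → A} (hf : ConvexEmb f) (hg : ConvexEmb g)
    (hcond : (gm A A bl br).Win → InitIf bl f ∧ FinIf br f ∧ InitIf bl g ∧ FinIf br g) :
    Bisim (gm A A bl br).gate (gm B B bl br).gate .top .top ∧
    Bisim (gm A A bl br).gate (gm B B bl br).gate (.A []) (.A []) := by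
  have hv := vals_eq hf hg hcond
  refine ⟨Game.gate_bisim hv trivial trivial rfl, Game.gate_bisim hv trivial trivial ?_⟩
  show (gm A A bl br).VL [] = (gm B B bl br).VL []
  rw [Game.VL_nil, Game.VL_nil]
  exact root_eq hf hg

theorem gate_open_iff [Countable A] [Nonempty A] :
    Bisim (gm A A bl br).gate (gm A A bl br).gate .top (.A []) ↔ BEmb A A bl br := by
  rw [← win_iff]
  constructor
  · intro h
    by_contra hcon
    exact Game.not_gate_open _ hcon [] h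
  · exact Game.gate_open _

/-! ### Facts on bi-embeddable orders -/

theorem bemb_both (h1 : BEmb A A true false) (h2 : BEmb A A false true) : BEmb A A true true := by
  obtain ⟨f, hf, z, _, hfz⟩ := h1
  obtain ⟨g, hg, _, w, hgw⟩ := h2
  refine ⟨fun a => g (f a), ⟨hg.1.comp hf.1, ?_⟩, g z, w, fun a => ⟨fun _ => ?_, fun _ => ?_⟩⟩
  · constructor
    rintro _ ⟨a, rfl⟩ _ ⟨b, rfl⟩ t ht
    obtain ⟨s, rfl⟩ := hg.mem ht.1 ht.2
    obtain ⟨r, rfl⟩ := hf.mem (hg.le_iff.1 ht.1) (hg.le_iff.1 ht.2)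
    exact ⟨r, rfl⟩
  · exact hg.1 ((hfz a).1 rfl)
  · exact (hgw (f a)).2 rfl

theorem ConvexEmb.comp {C : Type} [LinearOrder C] {g : B → C} {f : A → B} (hg : ConvexEmb g)
    (hf : ConvexEmb f) : ConvexEmb (fun a => g (f a)) := by
  refine ⟨hg.1.comp hf.1, ?_⟩
  constructor
  rintro _ ⟨a, rfl⟩ _ ⟨b, rfl⟩ t ht
  obtain ⟨s, rfl⟩ := hg.mem ht.1 ht.2
  obtain ⟨r, rfl⟩ := hf.mem (hg.le_iff.1 ht.1) (hg.le_iff.1 ht.2)
  exact ⟨r, rfl⟩

theorem fin_of_not {f : A → B} {g : B → A} (hf : ConvexEmb f) (hg : ConvexEmb g)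
    (h : ¬ BEmb A A false true) : FinIf false f ∧ FinIf false g := by
  refine ⟨fun _ a t hat => ?_, fun _ b t hbt => ?_⟩
  · by_contra hcon
    push Not at hcon
    have h1 : ∀ b, f b < t := by
      intro b
      by_contra hb
      obtain ⟨s, hs⟩ := hf.mem hat (not_lt.1 hb)
      exact hcon s hs
    exact h ⟨_, hg.comp hf, g t, g t, fun b => ⟨fun h => absurd h (by simp), fun _ => hg.1 (h1 b)⟩⟩
  · by_contra hcon
    push Not at hcon
    have h1 : ∀ b, g b < t := by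
      intro b'
      by_contra hb
      obtain ⟨s, hs⟩ := hg.mem hbt (not_lt.1 hb)
      exact hcon s hs
    exact h ⟨_, hg.comp hf, t, t, fun b => ⟨fun h => absurd h (by simp), fun _ => h1 (f b)⟩⟩

theorem init_of_not {f : A → B} {g : B → A} (hf : ConvexEmb f) (hg : ConvexEmb g)
    (h : ¬ BEmb A A true false) : InitIf false f ∧ InitIf false g := by
  refine ⟨fun _ a t hat => ?_, fun _ b t hbt => ?_⟩
  · by_contra hcon
    push Not at hcon
    have h1 : ∀ b, t < f b := by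
      intro b
      by_contra hb
      obtain ⟨s, hs⟩ := hf.mem (not_lt.1 hb) hat
      exact hcon s hs
    exact h ⟨_, hg.comp hf, g t, g t, fun b => ⟨fun _ => hg.1 (h1 b), fun h => absurd h (by simp)⟩⟩
  · by_contra hcon
    push Not at hcon
    have h1 : ∀ b, t < g b := by
      intro b'
      by_contra hb
      obtain ⟨s, hs⟩ := hg.mem (not_lt.1 hb) hbt
      exact hcon s hs
    exact h ⟨_, hg.comp hf, t, t, fun b => ⟨fun _ => h1 (f b), fun h => absurd h (by simp)⟩⟩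

/-- Moving an embedding along an isomorphism of convex sets. -/
theorem emb_of_isoS {f : A → A} (hf : ConvexEmb f) {S : Set A} {T : Set B}
    (hfS : ∀ a, f a ∈ S) (hT : T.OrdConnected) (h : IsoS S T) : ∃ g : A → B, ConvexEmb g := by
  obtain ⟨k, hk, hki⟩ := h
  refine ⟨fun a => k (f a), fun a b hab => hk (hfS a) (hfS b) (hf.1 hab), ?_⟩
  constructor
  rintro _ ⟨a, rfl⟩ _ ⟨b, rfl⟩ t ht
  have m : ∀ a, k (f a) ∈ T := fun a => by rw [← hki]; exact mem_image_of_mem k (hfS a)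
  have ht' : t ∈ T := hT.out (m a) (m b) ht
  rw [← hki] at ht'
  obtain ⟨s, hs, rfl⟩ := ht'
  obtain ⟨r, rfl⟩ := hf.mem ((hk.le_iff_le (hfS a) hs).1 ht.1) ((hk.le_iff_le hs (hfS b)).1 ht.2)
  exact ⟨r, rfl⟩

end Pool.Agent.MP_387a72_lc
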