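import Pool.Agent.MP_387a72_lc.Sys

/-!
# Coding transition systems into linear orders
-/

namespace Pool.Agent.MP_387a72_lc

open Set

variable {S S' : Type}

/-- All fibres of the colouring are dense. -/
def DenseCol (χ : ℚ → Option S) : Prop :=
  ∀ (o : Option S) (a b : ℚ), a < b → ∃ q, a < q ∧ q < b ∧ χ q = o

open Classical in
/-- The `q`-th child of a state (`none` is a dead state). -/
noncomputable def child (T : LTS S) (χ : ℚ → Option S) (o : Option S) (q : ℚ) : Option S :=
  if ∃ s t, o = some s ∧ χ q = some t ∧ T.step s t then χ q else none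

theorem child_eq_some {T : LTS S} {χ : ℚ → Option S} {o : Option S} {q : ℚ} {t : S} :
    child T χ o q = some t ↔ ∃ s, o = some s ∧ χ q = some t ∧ T.step s t := by
  unfold child
  constructor
  · intro h
    split_ifs at h with h1
    obtain ⟨s, t', h2, h3, h4⟩ := h1
    rw [h] at h3
    cases h3
    exact ⟨s, h2, h, h4⟩
  · rintro ⟨s, h1, h2, h3⟩
    rw [if_pos ⟨s, t, h1, h2, h3⟩, h2]

theorem child_eq_none_of {T : LTS S} {χ : ℚ → Option S} {o : Option S} {q : ℚ}
    (h : χ q = none) : child T χ o q = none := by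
  unfold child
  split_ifs with h1
  · exact h
  · rfl

noncomputable def run (T : LTS S) (χ : ℚ → Option S) : Option S → List ℚ → Option S
  | o, [] => o
  | o, q :: σ => run T χ (child T χ o q) σ

theorem run_append (T : LTS S) (χ : ℚ → Option S) (o : Option S) (σ τ : List ℚ) :
    run T χ o (σ ++ τ) = run T χ (run T χ o σ) τ := by
  induction σ generalizing o with
  | nil => rfl
  | cons q σ ih => exact ih _

def labO (T : LTS S) : Option S → ℕ
  | none => 0
  | some s => T.lab s + 1

noncomputable def size (T : LTS S) (χ : ℚ → Option S) (o : Option S) (σ : List ℚ) : ℕ :=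
  2 + Nat.pair (labO T (run T χ o σ)) σ.length

/-- The coded linear order. -/
def Dom (T : LTS S) (χ : ℚ → Option S) (o : Option S) : Set (List ℚ ×ₗ ℕ) :=
  {x | (ofLex x).2 < size T χ o (ofLex x).1}

/-! ### Bisimilar states have isomorphic orders -/

def BO (T : LTS S) (T' : LTS S') (o : Option S) (o' : Option S') : Prop :=
  (o = none ∧ o' = none) ∨ ∃ s s', o = some s ∧ o' = some s' ∧ Bisim T T' s s'

theorem BO.symm {T : LTS S} {T' : LTS S'} {o : Option S} {o' : Option S'} (h : BO T T' o o') :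
    BO T' T o' o := by
  rcases h with ⟨h1, h2⟩ | ⟨s, s', h1, h2, h3⟩
  · exact Or.inl ⟨h2, h1⟩
  · exact Or.inr ⟨s', s, h2, h1, h3.symm⟩

theorem BO.labO {T : LTS S} {T' : LTS S'} {o : Option S} {o' : Option S'} (h : BO T T' o o') :
    labO T o = labO T' o' := by
  rcases h with ⟨rfl, rfl⟩ | ⟨s, s', rfl, rfl, h3⟩
  · rfl
  · show T.lab s + 1 = T'.lab s' + 1
    rw [h3.lab]

theorem BO.fwd {T : LTS S} {T' : LTS S'} {χ : ℚ → Option S} {χ' : ℚ → Option S'}
    (hχ' : DenseCol χ') {o : Option S} {o' : Option S'} (h : BO T T' o o') (q : ℚ)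
    {a b : ℚ} (hab : a < b) :
    ∃ q', a < q' ∧ q' < b ∧ BO T T' (child T χ o q) (child T' χ' o' q') := by
  cases hc : child T χ o q with
  | none =>
    obtain ⟨q', h1, h2, h3⟩ := hχ' none a b hab
    exact ⟨q', h1, h2, Or.inl ⟨rfl, child_eq_none_of h3⟩⟩
  | some t =>
    obtain ⟨s, h1, h2, h3⟩ := child_eq_some.1 hc
    subst h1
    rcases h with ⟨h4, -⟩ | ⟨s1, s', h4, h5, h6⟩
    · cases h4
    · cases h4
      obtain ⟨t', ht', hB⟩ := h6.fwd h3
      obtain ⟨q', k1, k2, k3⟩ := hχ' (some t') a b hab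
      exact ⟨q', k1, k2, Or.inr ⟨t, t', rfl, child_eq_some.2 ⟨s', h5, k3, ht'⟩, hB⟩⟩

theorem exists_pos {l : List (ℚ × ℚ)} (hl : Good l) (a : ℚ) {P : ℚ → Prop}
    (hP : ∀ x y : ℚ, x < y → ∃ q, x < q ∧ q < y ∧ P q) (hnew : ∀ x ∈ l, x.1 ≠ a) :
    ∃ b, P b ∧ Good ((a, b) :: l) := by
  classical
  set lo : Finset ℚ := ((l.filter (fun x => x.1 < a)).map Prod.snd).toFinset with hlo
  set hi : Finset ℚ := ((l.filter (fun x => a < x.1)).map Prod.snd).toFinset with hhi
  have mlo : ∀ x ∈ l, x.1 < a → x.2 ∈ lo := by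
    intro x hx h
    rw [hlo, List.mem_toFinset]
    exact List.mem_map_of_mem (List.mem_filter.2 ⟨hx, by simpa using h⟩)
  have mhi : ∀ x ∈ l, a < x.1 → x.2 ∈ hi := by
    intro x hx h
    rw [hhi, List.mem_toFinset]
    exact List.mem_map_of_mem (List.mem_filter.2 ⟨hx, by simpa using h⟩)
  have hlt : ∀ x ∈ lo, ∀ y ∈ hi, x < y := by
    intro x hx y hy
    rw [hlo, List.mem_toFinset, List.mem_map] at hx
    rw [hhi, List.mem_toFinset, List.mem_map] at hy
    obtain ⟨u, hu, rfl⟩ := hx
    obtain ⟨v, hv, rfl⟩ := hy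
    rw [List.mem_filter] at hu hv
    have h1 : u.1 < a := by simpa using hu.2
    have h2 : a < v.1 := by simpa using hv.2
    have h3 := hl v hv.1 u hu.1
    rw [← not_le]
    intro h4
    exact absurd (h3.2 h4) (not_le.2 (h1.trans h2))
  obtain ⟨m1, h1, h2⟩ := Order.exists_between_finsets lo hi hlt
  obtain ⟨m2, h3, h4⟩ := Order.exists_between_finsets (insert m1 lo) hi (by
    intro x hx y hy
    rcases Finset.mem_insert.1 hx with rfl | hx
    · exact h2 y hy
    · exact hlt x hx y hy)
  obtain ⟨b, hb1, hb2, hb3⟩ := hP m1 m2 (h3 m1 (Finset.mem_insert_self _ _))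
  refine ⟨b, hb3, ?_⟩
  have key : ∀ x ∈ l, (a ≤ x.1 ↔ b ≤ x.2) ∧ (x.1 ≤ a ↔ x.2 ≤ b) := by
    intro x hx
    rcases lt_or_gt_of_ne (hnew x hx) with h | h
    · have h5 : x.2 < b := (h1 _ (mlo x hx h)).trans hb1
      exact ⟨⟨fun h' => absurd h' (not_le.2 h), fun h' => absurd h' (not_le.2 h5)⟩,
        ⟨fun _ => h5.le, fun _ => h.le⟩⟩
    · have h5 : b < x.2 := hb2.trans (h4 _ (mhi x hx h))
      exact ⟨⟨fun _ => h5.le, fun _ => h.le⟩,
        ⟨fun h' => absurd h' (not_le.2 h), fun h' => absurd h' (not_le.2 h5)⟩⟩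
  intro x hx y hy
  rcases List.mem_cons.1 hx with rfl | hx
  · rcases List.mem_cons.1 hy with rfl | hy
    · simp
    · exact (key y hy).1
  · rcases List.mem_cons.1 hy with rfl | hy
    · exact (key x hx).2
    · exact hl x hx y hy

theorem good_swap {l : List (ℚ × ℚ)} (hl : Good l) : Good (l.map Prod.swap) := by
  intro x hx y hy
  obtain ⟨u, hu, rfl⟩ := List.mem_map.1 hx
  obtain ⟨v, hv, rfl⟩ := List.mem_map.1 hy
  exact (hl u hu v hv).symm

theorem exists_order_iso {T : LTS S} {T' : LTS S'} {χ : ℚ → Option S} {χ' : ℚ → Option S'}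
    (hχ : DenseCol χ) (hχ' : DenseCol χ') {o : Option S} {o' : Option S'} (h : BO T T' o o') :
    ∃ e : ℚ ≃o ℚ, ∀ q, BO T T' (child T χ o q) (child T' χ' o' (e q)) := by
  obtain ⟨f, h1, h2, -, h4⟩ := back_forth_strong (univ : Set ℚ) (univ : Set ℚ)
    (fun l => Good l ∧ ∀ x ∈ l, BO T T' (child T χ o x.1) (child T' χ' o' x.2))
    (fun l hl => hl.1) (fun l hl x hx => ⟨trivial, trivial⟩)
    (by
      rintro l ⟨hl1, hl2⟩ a -
      by_cases hnew : ∀ x ∈ l, x.1 ≠ a
      · obtain ⟨b, hb1, hb2⟩ := exists_pos hl1 a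
          (P := fun b => BO T T' (child T χ o a) (child T' χ' o' b))
          (fun x y hxy => h.fwd hχ' a hxy) hnew
        refine ⟨b, hb2, ?_⟩
        intro x hx
        rcases List.mem_cons.1 hx with rfl | hx
        · exact hb1
        · exact hl2 x hx
      · push Not at hnew
        obtain ⟨⟨a', b⟩, hx, rfl⟩ := hnew
        refine ⟨b, ?_, ?_⟩
        · intro x hx' y hy'
          have e1 : x ∈ l := by
            rcases List.mem_cons.1 hx' with rfl | hx'
            · exact hx
            · exact hx'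
          have e2 : y ∈ l := by
            rcases List.mem_cons.1 hy' with rfl | hy'
            · exact hx
            · exact hy'
          exact hl1 x e1 y e2
        · intro x hx'
          rcases List.mem_cons.1 hx' with rfl | hx'
          · exact hl2 _ hx
          · exact hl2 x hx')
    (by
      rintro l ⟨hl1, hl2⟩ b -
      by_cases hnew : ∀ x ∈ l, x.2 ≠ b
      · obtain ⟨a, hb1, hb2⟩ := exists_pos (good_swap hl1) b
          (P := fun a => BO T T' (child T χ o a) (child T' χ' o' b))
          (fun x y hxy => by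
            obtain ⟨q, k1, k2, k3⟩ := h.symm.fwd hχ b hxy
            exact ⟨q, k1, k2, k3.symm⟩)
          (by
            intro x hx
            obtain ⟨u, hu, rfl⟩ := List.mem_map.1 hx
            exact hnew u hu)
        refine ⟨a, ?_, ?_⟩
        · have := good_swap hb2
          simpa [List.map_map, Function.comp_def] using this
        · intro x hx
          rcases List.mem_cons.1 hx with rfl | hx
          · exact hb1
          · exact hl2 x hx
      · push Not at hnew
        obtain ⟨⟨a, b'⟩, hx, rfl⟩ := hnew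
        refine ⟨a, ?_, ?_⟩
        · intro x hx' y hy'
          have e1 : x ∈ l := by
            rcases List.mem_cons.1 hx' with rfl | hx'
            · exact hx
            · exact hx'
          have e2 : y ∈ l := by
            rcases List.mem_cons.1 hy' with rfl | hy'
            · exact hx
            · exact hy'
          exact hl1 x e1 y e2
        · intro x hx'
          rcases List.mem_cons.1 hx' with rfl | hx'
          · exact hl2 _ hx
          · exact hl2 x hx')
    [] ⟨fun x hx => absurd hx List.not_mem_nil, fun x hx => absurd hx List.not_mem_nil⟩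
  have hm : StrictMono f := fun a b hab => h1 trivial trivial hab
  have hs : Function.Surjective f := by
    intro b
    have : b ∈ f '' univ := by rw [h2]; trivial
    obtain ⟨a, -, ha⟩ := this
    exact ⟨a, ha⟩
  refine ⟨StrictMono.orderIsoOfSurjective f hm hs, ?_⟩
  intro q
  obtain ⟨l, hl, hql⟩ := h4 q trivial
  exact hl.2 _ hql

section Build

variable (T : LTS S) (T' : LTS S') (χ : ℚ → Option S) (χ' : ℚ → Option S')

open Classical in
noncomputable def EE (o : Option S) (o' : Option S') : ℚ ≃o ℚ :=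
  if h : ∃ e : ℚ ≃o ℚ, ∀ q, BO T T' (child T χ o q) (child T' χ' o' (e q)) then h.choose
  else OrderIso.refl ℚ

noncomputable def phi : Option S → Option S' → List ℚ → List ℚ
  | _, _, [] => []
  | o, o', q :: σ => EE T T' χ χ' o o' q ::
      phi (child T χ o q) (child T' χ' o' (EE T T' χ χ' o o' q)) σ

theorem phi_length (σ : List ℚ) : ∀ o o', (phi T T' χ χ' o o' σ).length = σ.length := by
  induction σ with
  | nil => intro o o'; rfl
  | cons q σ ih => intro o o'; simp only [phi, List.length_cons]; rw [ih]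

theorem phi_strictMono (σ : List ℚ) : ∀ (τ : List ℚ) o o', σ < τ →
    phi T T' χ χ' o o' σ < phi T T' χ χ' o o' τ := by
  induction σ with
  | nil =>
    intro τ o o' h
    cases τ with
    | nil => exact absurd h (lt_irrefl _)
    | cons p τ => exact List.nil_lt_cons _ _
  | cons q σ ih =>
    intro τ o o' h
    cases τ with
    | nil => exact absurd h (List.not_lt_nil _)
    | cons p τ =>
      rw [List.cons_lt_cons_iff] at h
      simp only [phi]
      rw [List.cons_lt_cons_iff]
      rcases h with h | ⟨rfl, h⟩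
      · exact Or.inl ((EE T T' χ χ' o o').lt_iff_lt.2 h)
      · exact Or.inr ⟨rfl, ih τ _ _ h⟩

theorem phi_surj (τ : List ℚ) : ∀ o o', ∃ σ, phi T T' χ χ' o o' σ = τ := by
  induction τ with
  | nil => intro o o'; exact ⟨[], rfl⟩
  | cons p τ ih =>
    intro o o'
    obtain ⟨q, hq⟩ := (EE T T' χ χ' o o').surjective p
    obtain ⟨σ, hσ⟩ := ih (child T χ o q) (child T' χ' o' p)
    refine ⟨q :: σ, ?_⟩
    simp only [phi]
    rw [hq, hσ]

variable {T T' χ χ'}

theorem phi_BO (hχ : DenseCol χ) (hχ' : DenseCol χ') (σ : List ℚ) : ∀ o o', BO T T' o o' →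
    BO T T' (run T χ o σ) (run T' χ' o' (phi T T' χ χ' o o' σ)) := by
  induction σ with
  | nil => intro o o' h; exact h
  | cons q σ ih =>
    intro o o' h
    simp only [phi, run]
    apply ih
    have hex := exists_order_iso hχ hχ' h
    have : EE T T' χ χ' o o' = hex.choose := by unfold EE; rw [dif_pos hex]
    rw [this]
    exact hex.choose_spec q

theorem size_phi (hχ : DenseCol χ) (hχ' : DenseCol χ') {o : Option S} {o' : Option S'}
    (h : BO T T' o o') (σ : List ℚ) :
    size T' χ' o' (phi T T' χ χ' o o' σ) = size T χ o σ := by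
  unfold size
  rw [phi_length, (phi_BO hχ hχ' σ o o' h).labO]

theorem iso_of_BO (hχ : DenseCol χ) (hχ' : DenseCol χ') {o : Option S} {o' : Option S'}
    (h : BO T T' o o') : Nonempty (Dom T χ o ≃o Dom T' χ' o') := by
  let F : Dom T χ o → Dom T' χ' o' := fun x =>
    ⟨toLex (phi T T' χ χ' o o' (ofLex x.1).1, (ofLex x.1).2), by
      show (ofLex x.1).2 < size T' χ' o' (phi T T' χ χ' o o' (ofLex x.1).1)
      rw [size_phi hχ hχ' h]
      exact x.2⟩
  have hm : StrictMono F := by
    rintro ⟨x, hx⟩ ⟨y, hy⟩ hxy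
    have hxy' : x < y := hxy
    show (toLex (phi T T' χ χ' o o' (ofLex x).1, (ofLex x).2) : List ℚ ×ₗ ℕ) <
      toLex (phi T T' χ χ' o o' (ofLex y).1, (ofLex y).2)
    rw [Prod.Lex.toLex_lt_toLex]
    rw [Prod.Lex.lt_iff] at hxy'
    rcases hxy' with h1 | ⟨h1, h2⟩
    · exact Or.inl (phi_strictMono T T' χ χ' _ _ o o' h1)
    · exact Or.inr ⟨by simp only; rw [h1], h2⟩
  have hs : Function.Surjective F := by
    rintro ⟨y, hy⟩
    obtain ⟨σ, hσ⟩ := phi_surj T T' χ χ' (ofLex y).1 o o'
    refine ⟨⟨toLex (σ, (ofLex y).2), ?_⟩, ?_⟩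
    · show (ofLex y).2 < size T χ o σ
      rw [← size_phi hχ hχ' h, hσ]
      exact hy
    · apply Subtype.ext
      show toLex (phi T T' χ χ' o o' σ, (ofLex y).2) = y
      rw [hσ]
      rfl
  exact ⟨StrictMono.orderIsoOfSurjective F hm hs⟩

end Build

end Pool.Agent.MP_387a72_lc
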